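import Pool.Agent.Y883.GJ.Stm
import Pool.Agent.W93.PG6

/-!
# Project GS (helper460): Goldbach lower bounds in the residue classes of EVERY modulus `q ≤ x ^ (7/10 - ρ)`

Notation: `L = log N`, `Z = N ^ (3/10)`, `W = N ^ (3/20)`.
`gr N n = log N` if `n` has no prime factor `≤ Z`, and `0` otherwise.
`f = gr - Wt * lsh` is a function with small sums over almost all characters modulo `q`, and
`Λ * Λ ≥ Λ * gr + gr * Λ - gr * gr` (up to prime powers).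
-/

set_option autoImplicit false

namespace Pool.Agent.R460.GS

open Finset
open Pool.Agent.H807R2.Dav (ee)
open Pool.Agent.H373R2.T7 (lamz Vz pz)
open Pool.Agent.Y883.T3 (lsh)
open Pool.Agent.Y883.GJ

/-- `N ^ (3 / 20)` -/
noncomputable def WW (N : ℕ) : ℕ := ⌊(N : ℝ) ^ (3 / 20 : ℝ)⌋₊

/-- `N ^ (3 / 10)` -/
noncomputable def ZZ (N : ℕ) : ℕ := ⌊(N : ℝ) ^ (3 / 10 : ℝ)⌋₊

/-- `log N` times the indicator function of the integers without prime factors up to `N ^ (3 / 10)` -/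
noncomputable def gr (N n : ℕ) : ℝ := if ∀ p ∈ n.primeFactors, ZZ N < p then Real.log N else 0

/-- the same with complex values -/
noncomputable def GG (N n : ℕ) : ℂ := ((gr N n : ℝ) : ℂ)

/-- the numbers `m`, without prime factors up to `N ^ (3 / 10)`, for which `m p` with a prime `p` not smaller
than the prime factors of `m` and larger than `N ^ (3 / 10)` may be counted by `gr`, up to `n` -/
noncomputable def mm (N n : ℕ) : Finset ℕ :=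
  (Icc 1 n).filter (fun m => (∀ p ∈ m.primeFactors, ZZ N < p) ∧ m * max (m.primeFactors.sup id) (ZZ N) < n)

/-- the local density of `gr` -/
noncomputable def Wt (N n : ℕ) : ℝ := Real.log N * ∑ m ∈ mm N n, 1 / ((m : ℝ) * Real.log ((n : ℝ) / m))

/-- bound by the divisor function -/
def BdAt (N : ℕ) (F : ℕ → ℂ) : Prop := ∀ n ∈ Icc 1 N, ‖F n‖ ≤ Real.log N ^ 2 * (n.divisors.card : ℝ)

/-- few bad characters on the major arcs -/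
def MajAt (N : ℕ) (ρ : ℝ) (A C C₃ : ℕ) (F : ℕ → ℂ) : Prop :=
  ∀ (q : ℕ) [NeZero q], (q : ℝ) ≤ (N : ℝ) ^ (7 / 10 - ρ) →
    ∃ B : Finset (DirichletCharacter ℂ q), 1 ∈ B ∧ (B.card : ℝ) ≤ Real.log N ^ C₃ ∧
      ∀ η : ℝ, |η| ≤ Real.log N ^ C / N → ∀ y : ℕ, y ≤ N → ∀ S : Finset (DirichletCharacter ℂ q),
        Disjoint S B → ∑ χ ∈ S, ‖cs q y F η χ‖ ^ 2 ≤ (N : ℝ) ^ 2 / Real.log N ^ A

/-- no bad characters on the minor arcs -/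
def MinAt (N : ℕ) (ρ : ℝ) (A C : ℕ) (F : ℕ → ℂ) : Prop :=
  ∀ (q : ℕ) [NeZero q], (q : ℝ) ≤ (N : ℝ) ^ (7 / 10 - ρ) → ∀ (k : ℕ) (h : ℤ) (β : ℝ),
    Real.log N ^ C ≤ k → (q : ℝ) * k * Real.log N ^ C ≤ N → IsCoprime h (k : ℤ) →
    |q * β - h / k| ≤ 1 / (k : ℝ) ^ 2 → ∀ y : ℕ, y ≤ N →
    ∑ χ : DirichletCharacter ℂ q, ‖cs q y F β χ‖ ^ 2 ≤ (N : ℝ) ^ 2 / Real.log N ^ A

/-- the correlation with a shifted character of a large conductor is small -/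
def ShAt (N : ℕ) (ρ : ℝ) (B C T K : ℕ) (F : ℕ → ℂ) : Prop :=
  ∀ (q : ℕ) [NeZero q], (q : ℝ) ≤ (N : ℝ) ^ (7 / 10 - ρ) → ∀ χ : DirichletCharacter ℂ q,
    Real.log N ^ K < χ.conductor → ∀ a : ZMod q, (Nat.gcd a.val q : ℝ) ≤ Real.log N ^ T →
    ∀ η : ℝ, |η| ≤ Real.log N ^ C / N → ∀ y : ℕ, y ≤ N →
    ‖∑ l : ZMod q, cl q y F η l * χ (a - l)‖ ≤ N / Real.log N ^ B

/-- small sums over the arithmetic progressions with a small difference -/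
def ApAt (N K U : ℕ) (F : ℕ → ℂ) : Prop :=
  ∀ r : ℕ, 1 ≤ r → (r : ℝ) ≤ Real.log N ^ K → ∀ c y : ℕ, y ≤ N →
    ‖∑ n ∈ (Icc 1 y).filter (fun n => n ≡ c [MOD r]), F n‖ ≤ N / Real.log N ^ U

/-- small on the integers which are not coprime to a given integer -/
def NcAt (N U : ℕ) (F : ℕ → ℂ) : Prop :=
  ∀ q : ℕ, 1 ≤ q → q ≤ N → ∑ n ∈ (Icc 1 N).filter (fun n => ¬ n.Coprime q), ‖F n‖ ≤ N / Real.log N ^ U

/-- BILMAJ2: bilinear sums, major arcs, all characters but few bad ones. The set of bad characters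
depends only on the first coefficients. -/
def BilMaj2Stm : Prop := ∀ (A C : ℕ) (ρ : ℝ), 0 < ρ → ∃ C₃ N₀ : ℕ, ∀ N : ℕ, N₀ ≤ N →
  ∀ (q : ℕ) [NeZero q], (q : ℝ) ≤ (N : ℝ) ^ (7 / 10 - ρ) → ∀ a : ℕ → ℂ,
  (∀ m ∈ Icc 1 N, ‖a m‖ ≤ Real.log N * (m.divisors.card : ℝ)) →
  (∀ m, a m ≠ 0 → (N : ℝ) ^ (3 / 20 : ℝ) ≤ 2 * m ∧ (m : ℝ) ≤ (N : ℝ) ^ (3 / 10 : ℝ)) →
  ∃ B : Finset (DirichletCharacter ℂ q), (B.card : ℝ) ≤ Real.log N ^ C₃ ∧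
    ∀ b : ℕ → ℂ, (∀ m ∈ Icc 1 N, ‖b m‖ ≤ Real.log N * (m.divisors.card : ℝ)) →
    ∀ η : ℝ, |η| ≤ Real.log N ^ C / N → ∀ y : ℕ, y ≤ N →
    ∀ S : Finset (DirichletCharacter ℂ q), Disjoint S B →
    ‖∑ m ∈ Icc 1 y, ∑ k ∈ Icc 1 (y / m), (a m * b k) • ev S η (m * k)‖ ^ 2 ≤
      (N : ℝ) ^ 2 / Real.log N ^ A

/-- TIMAJ2: smooth sums, nonprincipal characters -/
def TiMaj2Stm : Prop := ∀ (q : ℕ) [NeZero q] (S : Finset (DirichletCharacter ℂ q)),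
  (1 : DirichletCharacter ℂ q) ∉ S → ∀ (η : ℝ) (c y : ℕ),
  ‖∑ b ∈ Icc 1 y, ev S η (b * c)‖ ≤ 2 * q * (1 + 7 * |η| * (c * y))

/-- MG: the function `gr` on the major arcs -/
def MGStm : Prop := ∀ (A C : ℕ) (ρ : ℝ), 0 < ρ → ∃ C₃ N₀ : ℕ, ∀ N : ℕ, N₀ ≤ N → MajAt N ρ A C C₃ (GG N)

/-- NG: the function `gr` on the minor arcs -/
def NGStm : Prop := ∀ (A : ℕ) (ρ : ℝ), 0 < ρ → ∃ C N₀ : ℕ, ∀ N : ℕ, N₀ ≤ N → MinAt N ρ A C (GG N)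

/-- MH: the sieve model on the major arcs; only the principal character is bad -/
def MHStm : Prop := ∀ (A C : ℕ) (ρ : ℝ), 0 < ρ → ∃ N₀ : ℕ, ∀ N : ℕ, N₀ ≤ N →
  ∀ (q : ℕ) [NeZero q], (q : ℝ) ≤ (N : ℝ) ^ (7 / 10 - ρ) → ∀ z r : ℕ,
  ((((z + 1) ^ r) ^ 100 : ℕ) : ℝ) ≤ N → (Vz z)⁻¹ ≤ Real.log N →
  ∀ η : ℝ, |η| ≤ Real.log N ^ C / N → ∀ y : ℕ, y ≤ N →
  ∀ S : Finset (DirichletCharacter ℂ q), 1 ∉ S →
    ∑ χ ∈ S, ‖cs q y (fun n => ((Wt N n * lsh z r n : ℝ) : ℂ)) η χ‖ ^ 2 ≤ (N : ℝ) ^ 2 / Real.log N ^ A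

/-- NH: the sieve model on the minor arcs -/
def NHStm : Prop := ∀ (A : ℕ) (ρ : ℝ), 0 < ρ → ∃ C N₀ : ℕ, ∀ N : ℕ, N₀ ≤ N → ∀ z r : ℕ,
  ((((z + 1) ^ r) ^ 100 : ℕ) : ℝ) ≤ N → (Vz z)⁻¹ ≤ Real.log N →
  MinAt N ρ A C (fun n => ((Wt N n * lsh z r n : ℝ) : ℂ))

/-- WTB: the density is bounded and of bounded variation -/
def WtbStm : Prop := ∃ (c : ℝ) (N₀ : ℕ), ∀ N : ℕ, N₀ ≤ N →
  (∀ n : ℕ, 0 ≤ Wt N n) ∧ (∀ n : ℕ, n ≤ N → Wt N n ≤ c) ∧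
  ∑ n ∈ range N, |Wt N (n + 1) - Wt N n| ≤ c

/-- WTD: upper bound for the density -/
def WtdStm : Prop := ∀ B : ℕ, ∃ N₀ : ℕ, ∀ N : ℕ, N₀ ≤ N → ∀ n : ℕ, n ≤ N → (N : ℝ) / Real.log N ^ B ≤ n →
  1 ≤ Wt N n ∧ Wt N n ≤ 197 / 100

/-- APG: the function `gr` in arithmetic progressions with a small difference -/
def ApgStm : Prop := ∀ K U : ℕ, ∃ N₀ : ℕ, ∀ N : ℕ, N₀ ≤ N → ∀ r : ℕ, 1 ≤ r → (r : ℝ) ≤ Real.log N ^ K →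
  ∀ c y : ℕ, y ≤ N → |∑ n ∈ (Icc 1 y).filter (fun n => n ≡ c [MOD r]), gr N n -
    (if c.Coprime r then (∑ n ∈ Icc 1 y, Wt N n) / (Nat.totient r : ℝ) else 0)| ≤ N / Real.log N ^ U

/-- SHL: correlations of the primes with shifted characters -/
def ShlStm : Prop := ∀ (B C T : ℕ) (ρ : ℝ), 0 < ρ → ∃ K N₀ : ℕ, ∀ N : ℕ, N₀ ≤ N → ShAt N ρ B C T K LA

/-- SHM: few bad characters on the major arcs imply small correlations with the shifted characters -/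
def ShmStm : Prop := ∀ (B C T : ℕ) (ρ : ℝ), 0 < ρ → ∃ A₂ : ℕ, ∀ C₃ : ℕ, ∃ K N₀ : ℕ, ∀ N : ℕ, N₀ ≤ N →
  ∀ F : ℕ → ℂ, BdAt N F → NcAt N (B + 1) F → MajAt N ρ A₂ C C₃ F → ShAt N ρ B C T K F

/-- CORE2: the mean square in a residue class -/
def Core2Stm : Prop := ∀ (A T : ℕ) (ρ : ℝ), 0 < ρ → ∃ A₁ : ℕ, ∀ C : ℕ, ∃ A₂ : ℕ, ∀ C₃ : ℕ, ∃ B₂ : ℕ,
  ∀ K : ℕ, ∃ U N₀ : ℕ, ∀ N : ℕ, N₀ ≤ N → ∀ F G : ℕ → ℂ, BdAt N F → BdAt N G →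
  MinAt N (ρ / 2) A₁ C G → MajAt N (ρ / 2) A₂ C C₃ G → ApAt N K U G → NcAt N U G →
  ShAt N (ρ / 2) B₂ C (T + C) K F →
  ∀ (q : ℕ) [NeZero q], (q : ℝ) ≤ (N : ℝ) ^ (7 / 10 - ρ) → ∀ a : ZMod q,
  (Nat.gcd a.val q : ℝ) ≤ Real.log N ^ T → ∀ y₁ y₂ : ℕ, y₁ ≤ N → y₂ ≤ N →
    ∑ n ∈ (Icc 1 (2 * N)).filter (fun n : ℕ => (n : ZMod q) = a),
      ‖∑ b ∈ Icc 1 y₁, ∑ c ∈ Icc 1 y₂, if b + c = n then F b * G c else 0‖ ^ 2 ≤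
        (N : ℝ) ^ 3 / (q * Real.log N ^ A)

end Pool.Agent.R460.GS
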