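import Pool.Agent.R460.GS.Asm

/-!
Project GS: the theorem for real `x` and residue classes given by integers.
-/

set_option autoImplicit false

namespace Pool.Agent.R460.GS

open Finset
open Pool.Agent.Y883.T4 (badc class_le)

lemma winL_mono {A B m : ℕ} (hAB : A ≤ B) (hm : 1 ≤ Real.log m) (h : WinL B m) : WinL A m := by
  intro y₁ y₂ h1 h2 h3
  refine h y₁ y₂ h1 h2 (le_trans ?_ h3)
  exact div_le_div_of_nonneg_left (Nat.cast_nonneg _) (by positivity) (pow_le_pow_right₀ hm hAB)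

lemma mod_iff' (n q : ℕ) (a : ℤ) (hq : 1 ≤ q) (h : (n : ℤ) ≡ a [ZMOD q]) :
    n % q = (a % (q : ℤ)).toNat % q := by
  have hq0 : (q : ℤ) ≠ 0 := by exact_mod_cast (by omega : q ≠ 0)
  have h1 : 0 ≤ a % (q : ℤ) := Int.emod_nonneg _ hq0
  have h2 : (n : ℤ) % q = a % q := h
  have h3 : ((n % q : ℕ) : ℤ) = ((a % (q : ℤ)).toNat : ℤ) := by
    rw [Int.toNat_of_nonneg h1, ← h2]
    push_cast
    rfl
  have h4 : n % q = (a % (q : ℤ)).toNat := by exact_mod_cast h3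
  rw [← h4, Nat.mod_mod]

lemma gcd_toNat (q : ℕ) (a : ℤ) (hq : 1 ≤ q) : Nat.gcd (a % (q : ℤ)).toNat q = Int.gcd a q := by
  have hq0 : (q : ℤ) ≠ 0 := by exact_mod_cast (by omega : q ≠ 0)
  have h2 : (((a % (q : ℤ)).toNat : ℕ) : ℤ) = a % q := Int.toNat_of_nonneg (Int.emod_nonneg _ hq0)
  have h3 : Int.gcd (((a % (q : ℤ)).toNat : ℕ) : ℤ) (q : ℤ) = Nat.gcd (a % (q : ℤ)).toNat q :=
    Int.gcd_natCast_natCast _ _
  rw [← h3, h2]
  exact Int.gcd_emod _ _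

lemma pow_range (θ ρ : ℝ) (hρ : 0 < ρ) (hθ : θ ≤ 1) : ∃ x₀ : ℝ, 4 ≤ x₀ ∧ ∀ x : ℝ, x₀ ≤ x →
    x ^ (θ - ρ) ≤ ((⌊x⌋₊ : ℕ) : ℝ) ^ (θ - ρ / 2) := by
  obtain ⟨x₂, hx₂⟩ : ∃ x₂ : ℝ, ∀ x : ℝ, x₂ ≤ x → 2 ≤ x ^ (ρ / 2) := by
    have h := (tendsto_rpow_atTop (show (0 : ℝ) < ρ / 2 by linarith)).eventually_ge_atTop (2 : ℝ)
    exact Filter.eventually_atTop.1 h
  refine ⟨max 4 x₂, le_max_left _ _, fun x hx => ?_⟩
  have hx4 : 4 ≤ x := (le_max_left _ _).trans hx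
  have hx2 := hx₂ x ((le_max_right _ _).trans hx)
  have hx0 : 0 < x := by linarith
  obtain ⟨N, hN⟩ : ∃ N, N = ⌊x⌋₊ := ⟨_, rfl⟩
  have hNx : (N : ℝ) ≤ x := by rw [hN]; exact Nat.floor_le hx0.le
  have hxN1 : x < N + 1 := by rw [hN]; exact Nat.lt_floor_add_one x
  have hN0 : (0 : ℝ) < N := by linarith
  rw [← hN]
  have e1 : x ^ (θ - ρ / 2) ≤ 2 * (N : ℝ) ^ (θ - ρ / 2) := by
    rcases le_or_gt 0 (θ - ρ / 2) with hc | hc
    · have e2 : x ^ (θ - ρ / 2) ≤ (2 * N : ℝ) ^ (θ - ρ / 2) :=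
        Real.rpow_le_rpow hx0.le (by linarith) hc
      rw [Real.mul_rpow (by norm_num) hN0.le] at e2
      refine e2.trans (mul_le_mul_of_nonneg_right ?_ (by positivity))
      calc (2 : ℝ) ^ (θ - ρ / 2) ≤ 2 ^ (1 : ℝ) :=
            Real.rpow_le_rpow_of_exponent_le (by norm_num) (by linarith)
        _ = 2 := Real.rpow_one 2
    · have e2 : x ^ (θ - ρ / 2) ≤ (N : ℝ) ^ (θ - ρ / 2) :=
        Real.rpow_le_rpow_of_nonpos hN0 hNx hc.le
      have e3 : 0 < (N : ℝ) ^ (θ - ρ / 2) := by positivity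
      linarith
  have e2 : x ^ (θ - ρ / 2) = x ^ (θ - ρ) * x ^ (ρ / 2) := by
    rw [← Real.rpow_add hx0]; congr 1; ring
  rw [e2] at e1
  have e3 : x ^ (θ - ρ) * 2 ≤ x ^ (θ - ρ) * x ^ (ρ / 2) :=
    mul_le_mul_of_nonneg_left hx2 (by positivity)
  linarith

lemma real_log (C : ℕ) {s : ℝ} (hs : 0 < s) (b : ℝ) : ∀ᶠ x : ℝ in Filter.atTop,
    b ≤ Real.log x ∧ Real.log x ^ C ≤ x ^ s := by
  have t2 := (isLittleO_log_rpow_rpow_atTop (C : ℝ) hs).bound one_pos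
  filter_upwards [Real.tendsto_log_atTop.eventually_ge_atTop b, t2,
    Real.tendsto_log_atTop.eventually_ge_atTop 0, Filter.eventually_ge_atTop 0] with x h1 h2 h3 h4
  refine ⟨h1, ?_⟩
  rw [one_mul, Real.norm_of_nonneg (Real.rpow_nonneg h3 _), Real.norm_of_nonneg (Real.rpow_nonneg h4 _),
    Real.rpow_natCast] at h2
  exact h2

/-- the theorem of project GS for an arbitrary consequence of the property `WinL` -/
theorem class_few (Q : ℕ → Prop) (W : ℕ) (hQ : ∃ n₀ : ℕ, ∀ n : ℕ, n₀ ≤ n → 2 ∣ n → WinL W n → Q n)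
    (ρ : ℝ) (hρ : 0 < ρ) (A T : ℕ) :
    ∃ x₀ : ℝ, ∀ x : ℝ, x₀ ≤ x → ∀ q : ℕ, 1 ≤ q → (q : ℝ) ≤ x ^ (7 / 10 - ρ) → ∀ a : ℤ,
      (Int.gcd a q : ℝ) ≤ Real.log x ^ T →
        ({n : ℕ | 0 < n ∧ (n : ℝ) ≤ x ∧ 2 ∣ n ∧ (n : ℤ) ≡ a [ZMOD q] ∧ ¬ Q n}).Finite ∧
        (({n : ℕ | 0 < n ∧ (n : ℝ) ≤ x ∧ 2 ∣ n ∧ (n : ℤ) ≡ a [ZMOD q] ∧ ¬ Q n}.ncard : ℕ) : ℝ) ≤
          x / (q * Real.log x ^ A) := by
  classical
  obtain ⟨n₀', hn₀'⟩ := hQ
  obtain ⟨n₀, hn₀⟩ : ∃ n₀ : ℕ, n₀ = n₀' + 3 := ⟨_, rfl⟩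
  obtain ⟨A', hA'⟩ : ∃ A', A' = A + 2 + W := ⟨_, rfl⟩
  obtain ⟨N₀, h0⟩ := gs_all (ρ / 2) (by linarith) A' (T + 1)
  obtain ⟨x₁, hx₁⟩ : ∃ x₁ : ℝ, ∀ x : ℝ, x₁ ≤ x → 2 ^ (2 * A' + 6) + 2 * 2 ^ T ≤ Real.log x := by
    have h := Real.tendsto_log_atTop.eventually_ge_atTop (2 ^ (2 * A' + 6) + 2 * 2 ^ T : ℝ)
    exact Filter.eventually_atTop.1 h
  obtain ⟨x₂, hx₂4, hx₂⟩ := pow_range (7 / 10) ρ hρ (by norm_num)
  obtain ⟨x₃, hx₃⟩ := Filter.eventually_atTop.1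
    (real_log (A + 1) (s := 3 / 10) (by norm_num) (2 * (n₀ + 1)))
  refine ⟨max (max (max ((N₀ : ℝ) + 4) x₁) x₂) x₃, fun x hx => ?_⟩
  have hxN : (N₀ : ℝ) + 4 ≤ x :=
    (le_max_left _ _).trans ((le_max_left _ _).trans ((le_max_left _ _).trans hx))
  have hlx' := hx₁ x ((le_max_right _ _).trans ((le_max_left _ _).trans ((le_max_left _ _).trans hx)))
  have hrange := hx₂ x ((le_max_right _ _).trans ((le_max_left _ _).trans hx))
  have h2T : (0 : ℝ) < 2 * 2 ^ T := by positivity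
  have h2A : (0 : ℝ) < 2 ^ (2 * A' + 6) := by positivity
  have hlx : (2 : ℝ) ^ (2 * A' + 6) ≤ Real.log x := by linarith
  have hN₀r : (0 : ℝ) ≤ N₀ := Nat.cast_nonneg _
  have hx4 : 4 ≤ x := by linarith
  have hx0 : 0 < x := by linarith
  obtain ⟨N, hN⟩ : ∃ N, N = ⌊x⌋₊ := ⟨_, rfl⟩
  rw [← hN] at hrange
  have hNx : (N : ℝ) ≤ x := by rw [hN]; exact Nat.floor_le hx0.le
  have hxN1 : x < N + 1 := by rw [hN]; exact Nat.lt_floor_add_one x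
  have hN0 : (0 : ℝ) < N := by linarith
  have hNN₀ : N₀ ≤ N := by
    rw [hN]
    exact Nat.le_floor (by linarith)
  obtain ⟨l, hl⟩ : ∃ l, l = Real.log x := ⟨_, rfl⟩
  obtain ⟨L, hL⟩ : ∃ L, L = Real.log N := ⟨_, rfl⟩
  have h64 : (64 : ℝ) ≤ 2 ^ (2 * A' + 6) := by
    calc (64 : ℝ) = 2 ^ 6 := by norm_num
      _ ≤ 2 ^ (2 * A' + 6) := pow_le_pow_right₀ (by norm_num) (by omega)
  rw [← hl] at hlx hlx'
  have hl64 : 64 ≤ l := by linarith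
  have hLl : L ≤ l := by rw [hL, hl]; exact Real.log_le_log hN0 hNx
  have hlL : l / 2 ≤ L := by
    have h1 : x / 2 ≤ N := by linarith
    have h2 : Real.log (x / 2) ≤ L := by rw [hL]; exact Real.log_le_log (by linarith) h1
    rw [Real.log_div hx0.ne' (by norm_num), ← hl] at h2
    have h3 := Real.log_two_lt_d9
    linarith
  have hL0 : 0 < L := by linarith
  have hl0 : 0 < l := by linarith
  have hpow : 8 * l ^ A ≤ L ^ A' := by
    have hL1 : 1 ≤ L := by linarith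
    refine le_trans ?_ (pow_le_pow_right₀ hL1 (show A + 2 ≤ A' by omega))
    have h1 : (l / 2) ^ (A + 2) ≤ L ^ (A + 2) := pow_le_pow_left₀ (by linarith) hlL _
    refine le_trans ?_ h1
    rw [div_pow, le_div_iff₀ (by positivity), pow_add l A 2]
    have h2 : (8 : ℝ) * 2 ^ (A + 2) ≤ l ^ 2 := by
      calc (8 : ℝ) * 2 ^ (A + 2) = 2 ^ (A + 5) := by rw [show A + 5 = 3 + (A + 2) by ring, pow_add 2 3]; norm_num
        _ ≤ 2 ^ (2 * A' + 6) := pow_le_pow_right₀ (by norm_num) (by omega)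
        _ ≤ l := hlx
        _ ≤ l ^ 2 := by nlinarith
    calc 8 * l ^ A * 2 ^ (A + 2) = l ^ A * (8 * 2 ^ (A + 2)) := by ring
      _ ≤ l ^ A * l ^ 2 := mul_le_mul_of_nonneg_left h2 (by positivity)
  have hTT : l ^ T ≤ L ^ (T + 1) := by
    have h1 : l ^ T ≤ (2 * L) ^ T := pow_le_pow_left₀ hl0.le (by linarith) T
    rw [mul_pow] at h1
    refine h1.trans ?_
    rw [pow_succ' L T]
    exact mul_le_mul_of_nonneg_right (by linarith) (by positivity)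
  intro q hq hqx a ha
  have hq0 : (0 : ℝ) < q := by exact_mod_cast hq
  obtain ⟨a', ha'⟩ : ∃ a', a' = (a % (q : ℤ)).toNat := ⟨_, rfl⟩
  have hcon := h0 N hNN₀ q hq (hqx.trans hrange) a' (by
    rw [ha', gcd_toNat q a hq, ← hL]
    rw [← hl] at ha
    exact ha.trans hTT)
  rw [← hL] at hcon
  obtain ⟨S, hS⟩ : ∃ S, S = badc (WinL A') N q a' := ⟨_, rfl⟩
  rw [← hS] at hcon
  obtain ⟨S', hS'⟩ : ∃ S' : Finset ℕ, S' = (Icc 1 n₀).filter (fun n => n % q = a' % q) := ⟨_, rfl⟩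
  have hS'c : (S'.card : ℝ) ≤ (n₀ : ℝ) / q + 1 := by
    apply class_le N q a' hq S' (n₀ : ℝ) (Nat.cast_nonneg _)
    intro n hn
    rw [hS', mem_filter, mem_Icc] at hn
    exact ⟨hn.2, by exact_mod_cast hn.1.2⟩
  have hsub : {n : ℕ | 0 < n ∧ (n : ℝ) ≤ x ∧ 2 ∣ n ∧ (n : ℤ) ≡ a [ZMOD q] ∧ ¬ Q n} ⊆
      ((S ∪ S' : Finset ℕ) : Set ℕ) := by
    rintro n ⟨a1, a2, a3, a4, a5⟩
    have hmod := mod_iff' n q a hq a4
    rw [← ha'] at hmod
    rw [mem_coe, mem_union]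
    by_cases hn : n ≤ n₀
    · right
      rw [hS', mem_filter, mem_Icc]
      exact ⟨⟨a1, hn⟩, hmod⟩
    · left
      rw [hS]
      refine mem_filter.2 ⟨mem_Icc.2 ⟨a1, ?_⟩, a3, hmod, ?_⟩
      · rw [hN]; exact Nat.le_floor a2
      · intro hw
        apply a5
        refine hn₀' n (by omega) a3 (winL_mono (show W ≤ A' by omega) ?_ hw)
        have h3 : (3 : ℝ) ≤ n := by exact_mod_cast (by omega : 3 ≤ n)
        rw [Real.le_log_iff_exp_le (by linarith)]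
        have := Real.exp_one_lt_d9
        linarith
  have hfin := (Finset.finite_toSet (S ∪ S')).subset hsub
  refine ⟨hfin, ?_⟩
  have h1 : (({n : ℕ | 0 < n ∧ (n : ℝ) ≤ x ∧ 2 ∣ n ∧ (n : ℤ) ≡ a [ZMOD q] ∧ ¬ Q n}.ncard : ℕ) : ℝ) ≤
      (S.card : ℝ) + S'.card := by
    have h2 := Set.ncard_le_ncard hsub (Finset.finite_toSet _)
    rw [Set.ncard_coe_finset] at h2
    have h3 := card_union_le S S'
    exact_mod_cast h2.trans h3
  rw [← hl]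
  have hlA : 0 < l ^ A := by positivity
  have hfirst : (N : ℝ) / (q * L ^ A') ≤ x / (q * l ^ A) / 8 := by
    rw [div_div, div_le_div_iff₀ (by positivity) (by positivity)]
    calc (N : ℝ) * (q * l ^ A * 8) ≤ x * (q * l ^ A * 8) :=
          mul_le_mul_of_nonneg_right hNx (by positivity)
      _ = (x * q) * (8 * l ^ A) := by ring
      _ ≤ (x * q) * L ^ A' := mul_le_mul_of_nonneg_left hpow (by positivity)
      _ = x * (q * L ^ A') := by ring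
  -- the small exceptions
  have hsecond : (n₀ : ℝ) / q + 1 ≤ x / (q * l ^ A) / 2 := by
    obtain ⟨e1, e2⟩ := hx₃ x ((le_max_right _ _).trans hx)
    rw [← hl] at e1 e2
    have e3 : (n₀ : ℝ) / q ≤ n₀ := div_le_self (Nat.cast_nonneg _) (by exact_mod_cast hq)
    have e4 : x ^ (3 / 10 : ℝ) * q ≤ x := by
      calc x ^ (3 / 10 : ℝ) * q ≤ x ^ (3 / 10 : ℝ) * x ^ (7 / 10 - ρ) :=
            mul_le_mul_of_nonneg_left hqx (by positivity)
        _ = x ^ (1 - ρ) := by rw [← Real.rpow_add hx0]; congr 1; ring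
        _ ≤ x ^ (1 : ℝ) := Real.rpow_le_rpow_of_exponent_le (by linarith) (by linarith)
        _ = x := Real.rpow_one x
    have e5 : ((n₀ : ℝ) + 1) * (2 * (q * l ^ A)) ≤ x := by
      calc ((n₀ : ℝ) + 1) * (2 * (q * l ^ A)) = (2 * (n₀ + 1)) * l ^ A * q := by ring
        _ ≤ l * l ^ A * q := by gcongr
        _ = l ^ (A + 1) * q := by rw [pow_succ']
        _ ≤ x ^ (3 / 10 : ℝ) * q := mul_le_mul_of_nonneg_right e2 hq0.le
        _ ≤ x := e4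
    rw [div_div, show (q : ℝ) * l ^ A * 2 = 2 * (q * l ^ A) by ring, le_div_iff₀ (by positivity)]
    refine le_trans ?_ e5
    exact mul_le_mul_of_nonneg_right (by linarith) (by positivity)
  have hpos : 0 ≤ x / (q * l ^ A) := by positivity
  linarith

end Pool.Agent.R460.GS
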