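import Mathlib

set_option autoImplicit false

/-! Partial summation for vectors. -/

namespace Pool.Agent.R460.GS

open Finset

variable {V : Type*} [NormedAddCommGroup V] [NormedSpace ℂ V]

/-- partial summation, weights of bounded variation -/
lemma abelBV (a : ℕ → V) (w : ℕ → ℂ) (C D E : ℝ) (n : ℕ) (hC : ∀ m ≤ n, ‖∑ i ∈ range m, a i‖ ≤ C)
    (hw : ∀ i < n, ‖w i‖ ≤ D) (hd : ∑ i ∈ range (n - 1), ‖w (i + 1) - w i‖ ≤ E) (hD : 0 ≤ D) :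
    ‖∑ i ∈ range n, w i • a i‖ ≤ C * (D + E) := by
  have hC0 : 0 ≤ C := (norm_nonneg _).trans (hC 0 (Nat.zero_le _))
  rcases Nat.eq_zero_or_pos n with h0 | h0
  · subst h0
    simp only [range_zero, sum_empty, norm_zero]
    have : 0 ≤ E := (sum_nonneg fun _ _ => norm_nonneg _).trans hd
    positivity
  rw [Finset.sum_range_by_parts w a n]
  have h1 : ‖w (n - 1) • ∑ i ∈ range n, a i‖ ≤ D * C := by
    rw [norm_smul]
    exact mul_le_mul (hw _ (by omega)) (hC n le_rfl) (norm_nonneg _) hD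
  have h2 : ‖∑ i ∈ range (n - 1), (w (i + 1) - w i) • ∑ i ∈ range (i + 1), a i‖ ≤ E * C := by
    calc ‖∑ i ∈ range (n - 1), (w (i + 1) - w i) • ∑ i ∈ range (i + 1), a i‖
        ≤ ∑ i ∈ range (n - 1), ‖(w (i + 1) - w i) • ∑ i ∈ range (i + 1), a i‖ := norm_sum_le _ _
      _ ≤ ∑ i ∈ range (n - 1), ‖w (i + 1) - w i‖ * C := by
          refine sum_le_sum fun i hi => ?_
          rw [norm_smul]
          rw [mem_range] at hi
          exact mul_le_mul_of_nonneg_left (hC _ (by omega)) (norm_nonneg _)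
      _ = (∑ i ∈ range (n - 1), ‖w (i + 1) - w i‖) * C := by rw [sum_mul]
      _ ≤ E * C := mul_le_mul_of_nonneg_right hd hC0
  calc _ ≤ ‖w (n - 1) • ∑ i ∈ range n, a i‖ +
        ‖∑ i ∈ range (n - 1), (w (i + 1) - w i) • ∑ i ∈ range (i + 1), a i‖ := norm_sub_le _ _
    _ ≤ D * C + E * C := add_le_add h1 h2
    _ = C * (D + E) := by ring

/-- partial summation, smooth weights -/
lemma abelV (a : ℕ → V) (w : ℕ → ℂ) (C δ : ℝ) (n : ℕ) (hC : ∀ m ≤ n, ‖∑ i ∈ range m, a i‖ ≤ C)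
    (hw : ∀ i, ‖w i‖ ≤ 1) (hd : ∀ i, ‖w (i + 1) - w i‖ ≤ δ) :
    ‖∑ i ∈ range n, w i • a i‖ ≤ C * (1 + δ * n) := by
  have hδ0 : 0 ≤ δ := (norm_nonneg _).trans (hd 0)
  apply abelBV a w C 1 (δ * n) n hC (fun i _ => hw i) _ zero_le_one
  calc ∑ i ∈ range (n - 1), ‖w (i + 1) - w i‖ ≤ ∑ i ∈ range (n - 1), δ := sum_le_sum fun i _ => hd i
    _ = ((n - 1 : ℕ) : ℝ) * δ := by rw [sum_const, card_range, nsmul_eq_mul]
    _ ≤ n * δ := by
        refine mul_le_mul_of_nonneg_right ?_ hδ0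
        exact_mod_cast Nat.sub_le n 1
    _ = δ * n := mul_comm _ _

/-- the same for sums over `Icc 1 n` -/
lemma abelI (a : ℕ → V) (w : ℕ → ℂ) (C δ : ℝ) (n : ℕ) (hC : ∀ m ≤ n, ‖∑ i ∈ Icc 1 m, a i‖ ≤ C)
    (hw : ∀ i, ‖w i‖ ≤ 1) (hd : ∀ i, ‖w (i + 1) - w i‖ ≤ δ) :
    ‖∑ i ∈ Icc 1 n, w i • a i‖ ≤ C * (1 + δ * n) := by
  have e : ∀ (m : ℕ) (f : ℕ → V), ∑ i ∈ Icc 1 m, f i = ∑ i ∈ range m, f (i + 1) := by
    intro m f
    rw [Finset.range_eq_Ico, Finset.sum_Ico_add' f 0 m 1]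
    exact sum_congr (by ext b; simp only [mem_Icc, mem_Ico]; omega) fun _ _ => rfl
  rw [e]
  exact abelV (fun i => a (i + 1)) (fun i => w (i + 1)) C δ n (fun m hm => by rw [← e]; exact hC m hm)
    (fun i => hw _) (fun i => hd _)

/-- the same for sums over `Icc 1 n`, bounded variation -/
lemma abelIBV (a : ℕ → V) (w : ℕ → ℂ) (C D E : ℝ) (n : ℕ) (hC : ∀ m ≤ n, ‖∑ i ∈ Icc 1 m, a i‖ ≤ C)
    (hw : ∀ i ∈ Icc 1 n, ‖w i‖ ≤ D) (hd : ∑ i ∈ range n, ‖w (i + 1) - w i‖ ≤ E) (hD : 0 ≤ D) :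
    ‖∑ i ∈ Icc 1 n, w i • a i‖ ≤ C * (D + E) := by
  have e : ∀ (m : ℕ) (f : ℕ → V), ∑ i ∈ Icc 1 m, f i = ∑ i ∈ range m, f (i + 1) := by
    intro m f
    rw [Finset.range_eq_Ico, Finset.sum_Ico_add' f 0 m 1]
    exact sum_congr (by ext b; simp only [mem_Icc, mem_Ico]; omega) fun _ _ => rfl
  rw [e]
  apply abelBV (fun i => a (i + 1)) (fun i => w (i + 1)) C D E n (fun m hm => by rw [← e]; exact hC m hm)
    (fun i hi => hw _ (mem_Icc.2 ⟨by omega, by omega⟩)) _ hD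
  refine le_trans ?_ hd
  rcases Nat.eq_zero_or_pos n with h0 | h0
  · subst h0; simp
  · obtain ⟨m, rfl⟩ : ∃ m, n = m + 1 := ⟨n - 1, by omega⟩
    rw [Nat.add_sub_cancel, sum_range_succ' (fun i => ‖w (i + 1) - w i‖) m]
    have := norm_nonneg (w (0 + 1) - w 0)
    linarith

end Pool.Agent.R460.GS
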