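import Pool.Agent.R460.GS.Core2

set_option autoImplicit false

/-! Few bad characters on the major arcs imply small correlations with the shifted characters. -/

namespace Pool.Agent.R460.GS

open Finset
open Pool.Agent.Y883.GJ
open Pool.Agent.H807R2.Dav (ee)
open Pool.Agent.Y614.GJ.Core (q_le_phi ev_log)

lemma bd_l1 {N : ℕ} {F : ℕ → ℂ} (hF : BdAt N F) (hL : 8 ≤ Real.log N) :
    ∑ n ∈ Icc 1 N, ‖F n‖ ≤ N * Real.log N ^ 5 := by
  obtain ⟨L, hLd⟩ : ∃ L, L = Real.log (N : ℝ) := ⟨_, rfl⟩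
  have hb : ∀ n ∈ Icc 1 N, ‖F n‖ ≤ L ^ 2 * (n.divisors.card : ℝ) := by rw [hLd]; exact hF
  rw [← hLd] at hL ⊢
  have hL0 : 0 < L := by linarith
  have h1 := Pool.Agent.TH935.LD.tau_pow_sum 1 N
  rw [← hLd] at h1
  calc ∑ n ∈ Icc 1 N, ‖F n‖ ≤ ∑ n ∈ Icc 1 N, L ^ 2 * (n.divisors.card : ℝ) := sum_le_sum hb
    _ = L ^ 2 * ∑ n ∈ Icc 1 N, (n.divisors.card : ℝ) ^ 1 := by rw [mul_sum]; simp
    _ ≤ L ^ 2 * (N * (1 + L) ^ 2 ^ 1) := by gcongr
    _ ≤ L ^ 2 * (N * L ^ 3) := by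
        have : (1 + L) ^ 2 ^ 1 ≤ L ^ 3 := by
          rw [pow_one]
          nlinarith [mul_self_nonneg L]
        gcongr
    _ = N * L ^ 5 := by ring

open Classical in
/-- the main estimate -/
lemma shm_aux (h5 : OrthStm) (hJ : JacStm) {q y : ℕ} [NeZero q] (F : ℕ → ℂ) (η : ℝ)
    (χ : DirichletCharacter ℂ q) (a : ZMod q) (S : Finset (DirichletCharacter ℂ q)) {X1 X2 X3 : ℝ}
    (hX1 : 0 ≤ X1) (hs : ∑ ψ ∈ univ.filter (fun ψ => ψ ∉ S), ‖cs q y F η ψ‖ ^ 2 ≤ X1 ^ 2)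
    (hn : ∑ n ∈ (Icc 1 y).filter (fun n => ¬ n.Coprime q), ‖F n‖ ≤ X2)
    (h1 : ∑ n ∈ Icc 1 y, ‖F n‖ ≤ X3) :
    ‖∑ l : ZMod q, cl q y F η l * χ (a - l)‖ ≤ X1 + X2 + (S.card : ℝ) * (X3 * ((1 + 2 * Real.log q) *
      ((1 + Real.log q) * Real.sqrt ((Nat.gcd a.val q : ℝ) / χ.conductor)))) := by
  have hq0 : 0 < q := NeZero.pos q
  have hφ0 : (0 : ℝ) < q.totient := by exact_mod_cast Nat.totient_pos.2 hq0
  have hqφ := q_le_phi hq0
  have hlq : 0 ≤ Real.log q := Real.log_natCast_nonneg q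
  have hX3 : 0 ≤ X3 := (sum_nonneg fun _ _ => norm_nonneg _).trans h1
  obtain ⟨Jb, hJb⟩ : ∃ J, J = (1 + Real.log q) * Real.sqrt ((Nat.gcd a.val q : ℝ) / χ.conductor) :=
    ⟨_, rfl⟩
  have hJb0 : 0 ≤ Jb := by rw [hJb]; positivity
  rw [← hJb]
  obtain ⟨D, hD⟩ : ∃ D : ZMod q → ℂ, D = fun l => cl q y F η l - clB q y F η S l := ⟨_, rfl⟩
  have hnu : ∀ l : ZMod q, ¬ IsUnit l → clB q y F η S l = 0 := by
    intro l hl
    unfold clB
    rw [sum_eq_zero, mul_zero]
    intro ψ _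
    rw [ψ⁻¹.map_nonunit hl, zero_mul]
  have hO := (h5 q y F η S).1
  have hsplit : ∑ l : ZMod q, cl q y F η l * χ (a - l) =
      (∑ l ∈ univ.filter (fun l : ZMod q => IsUnit l), D l * χ (a - l)) +
      (∑ l ∈ univ.filter (fun l : ZMod q => ¬ IsUnit l), cl q y F η l * χ (a - l)) +
      ∑ l : ZMod q, clB q y F η S l * χ (a - l) := by
    have e1 : ∑ l ∈ univ.filter (fun l : ZMod q => ¬ IsUnit l), cl q y F η l * χ (a - l) =
        ∑ l ∈ univ.filter (fun l : ZMod q => ¬ IsUnit l), D l * χ (a - l) := by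
      refine sum_congr rfl fun l hl => ?_
      rw [hD]
      simp only
      rw [hnu l (mem_filter.1 hl).2, sub_zero]
    rw [e1, sum_filter_add_sum_filter_not univ (fun l : ZMod q => IsUnit l) (fun l => D l * χ (a - l)),
      ← sum_add_distrib]
    refine sum_congr rfl fun l _ => ?_
    rw [hD]
    ring
  -- the units
  have t1 : ‖∑ l ∈ univ.filter (fun l : ZMod q => IsUnit l), D l * χ (a - l)‖ ≤ X1 := by
    have e1 : ∑ l ∈ univ.filter (fun l : ZMod q => IsUnit l), ‖D l‖ ^ 2 ≤ (q.totient : ℝ)⁻¹ * X1 ^ 2 := by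
      have e2 : ∑ l : ZMod q, ‖D l‖ ^ 2 = ∑ l ∈ univ.filter (fun l : ZMod q => IsUnit l), ‖D l‖ ^ 2 +
          ∑ l ∈ univ.filter (fun l : ZMod q => ¬ IsUnit l), ‖D l‖ ^ 2 :=
        (sum_filter_add_sum_filter_not _ _ _).symm
      have e3 : ∑ l ∈ univ.filter (fun l : ZMod q => ¬ IsUnit l), ‖D l‖ ^ 2 =
          ∑ l ∈ univ.filter (fun l : ZMod q => ¬ IsUnit l), ‖cl q y F η l‖ ^ 2 := by
        refine sum_congr rfl fun l hl => ?_
        rw [hD]
        simp only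
        rw [hnu l (mem_filter.1 hl).2, sub_zero]
      have e4 : ∑ l : ZMod q, ‖D l‖ ^ 2 = (q.totient : ℝ)⁻¹ *
          ∑ χ ∈ univ.filter (fun χ => χ ∉ S), ‖cs q y F η χ‖ ^ 2 +
          ∑ l ∈ univ.filter (fun l : ZMod q => ¬ IsUnit l), ‖cl q y F η l‖ ^ 2 := by
        rw [hD]
        convert hO using 3
      have e5 : ∑ l ∈ univ.filter (fun l : ZMod q => IsUnit l), ‖D l‖ ^ 2 = (q.totient : ℝ)⁻¹ *
          ∑ χ ∈ univ.filter (fun χ => χ ∉ S), ‖cs q y F η χ‖ ^ 2 := by linarith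
      rw [e5]
      apply mul_le_mul_of_nonneg_left hs (by positivity)
    have e6 : ((univ.filter (fun l : ZMod q => IsUnit l)).card : ℝ) = q.totient := by
      have : (univ.filter (fun l : ZMod q => IsUnit l)).card = q.totient := by
        rw [← ZMod.card_units_eq_totient, ← card_univ,
          ← card_map (⟨Units.val, Units.val_injective⟩ : (ZMod q)ˣ ↪ ZMod q)]
        congr 1
        ext l
        simp only [mem_filter, mem_univ, true_and, mem_map, Function.Embedding.coeFn_mk]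
        rfl
      rw [this]
    have e7 : ‖∑ l ∈ univ.filter (fun l : ZMod q => IsUnit l), D l * χ (a - l)‖ ≤
        ∑ l ∈ univ.filter (fun l : ZMod q => IsUnit l), ‖D l‖ := by
      refine (norm_sum_le _ _).trans (sum_le_sum fun l _ => ?_)
      rw [norm_mul]
      exact mul_le_of_le_one_right (norm_nonneg _) (DirichletCharacter.norm_le_one _ _)
    have e8 : (∑ l ∈ univ.filter (fun l : ZMod q => IsUnit l), ‖D l‖) ^ 2 ≤ X1 ^ 2 := by
      calc (∑ l ∈ univ.filter (fun l : ZMod q => IsUnit l), ‖D l‖) ^ 2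
          ≤ ((univ.filter (fun l : ZMod q => IsUnit l)).card : ℝ) *
            ∑ l ∈ univ.filter (fun l : ZMod q => IsUnit l), ‖D l‖ ^ 2 := sq_sum_le_card_mul_sum_sq
        _ ≤ q.totient * ((q.totient : ℝ)⁻¹ * X1 ^ 2) := by
            rw [e6]
            gcongr
        _ = X1 ^ 2 := by field_simp
    exact e7.trans (abs_le_of_sq_le_sq' e8 hX1).2
  -- the other classes
  have t2 : ‖∑ l ∈ univ.filter (fun l : ZMod q => ¬ IsUnit l), cl q y F η l * χ (a - l)‖ ≤ X2 := by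
    refine le_trans ?_ hn
    calc ‖∑ l ∈ univ.filter (fun l : ZMod q => ¬ IsUnit l), cl q y F η l * χ (a - l)‖
        ≤ ∑ l ∈ univ.filter (fun l : ZMod q => ¬ IsUnit l),
          ∑ n ∈ (Icc 1 y).filter (fun n : ℕ => (n : ZMod q) = l), ‖F n‖ := by
          refine (norm_sum_le _ _).trans (sum_le_sum fun l _ => ?_)
          rw [norm_mul]
          refine (mul_le_of_le_one_right (norm_nonneg _) (DirichletCharacter.norm_le_one _ _)).trans ?_
          unfold cl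
          refine (norm_sum_le _ _).trans (sum_le_sum fun n _ => ?_)
          rw [norm_mul, Pool.Agent.H807R2.Dav.norm_ee, mul_one]
      _ = ∑ n ∈ (Icc 1 y).filter (fun n => ¬ n.Coprime q), ‖F n‖ := by
          have e1 : ∀ n ∈ (Icc 1 y).filter (fun n => ¬ n.Coprime q),
              (n : ZMod q) ∈ univ.filter (fun l : ZMod q => ¬ IsUnit l) := by
            intro n hn
            rw [mem_filter] at hn
            rw [mem_filter, ZMod.isUnit_iff_coprime]
            exact ⟨mem_univ _, hn.2⟩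
          rw [← sum_fiberwise_of_maps_to e1]
          refine sum_congr rfl fun l hl => ?_
          rw [mem_filter] at hl
          refine sum_congr ?_ fun _ _ => rfl
          ext n
          simp only [mem_filter]
          constructor
          · rintro ⟨k1, k2⟩
            refine ⟨⟨k1, fun k3 => hl.2 ?_⟩, k2⟩
            rw [← k2, ZMod.isUnit_iff_coprime]
            exact k3
          · rintro ⟨⟨k1, _⟩, k2⟩
            exact ⟨k1, k2⟩
  -- the bad characters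
  have t3 : ‖∑ l : ZMod q, clB q y F η S l * χ (a - l)‖ ≤
      (S.card : ℝ) * (X3 * ((1 + 2 * Real.log q) * Jb)) := by
    have e1 : ∑ l : ZMod q, clB q y F η S l * χ (a - l) = (q.totient : ℂ)⁻¹ *
        ∑ ψ ∈ S, cs q y F η ψ * ∑ l : ZMod q, χ l * ψ⁻¹ (a - l) := by
      have e2 : ∀ ψ : DirichletCharacter ℂ q, ∑ l : ZMod q, χ l * ψ⁻¹ (a - l) =
          ∑ l : ZMod q, ψ⁻¹ l * χ (a - l) := by
        intro ψ
        rw [← Equiv.sum_comp (Equiv.subLeft a)]
        refine sum_congr rfl fun l _ => ?_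
        rw [Equiv.subLeft_apply, sub_sub_cancel, mul_comm]
      unfold clB
      have e3 : ∀ l : ZMod q, (q.totient : ℂ)⁻¹ * (∑ ψ ∈ S, ψ⁻¹ l * cs q y F η ψ) * χ (a - l) =
          ∑ ψ ∈ S, (q.totient : ℂ)⁻¹ * (cs q y F η ψ * (ψ⁻¹ l * χ (a - l))) := by
        intro l
        rw [mul_sum, sum_mul]
        refine sum_congr rfl fun ψ _ => ?_
        ring
      rw [sum_congr rfl fun l _ => e3 l, sum_comm, mul_sum]
      refine sum_congr rfl fun ψ _ => ?_
      rw [e2, ← mul_sum, ← mul_sum]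
    have e4 : ‖∑ ψ ∈ S, cs q y F η ψ * ∑ l : ZMod q, χ l * ψ⁻¹ (a - l)‖ ≤
        (S.card : ℝ) * (X3 * (q * Jb)) := by
      apply sum_norm_le
      intro ψ _
      rw [norm_mul]
      refine mul_le_mul ?_ ?_ (norm_nonneg _) hX3
      · refine le_trans ?_ h1
        unfold cs
        refine (norm_sum_le _ _).trans (sum_le_sum fun n _ => ?_)
        rw [norm_mul, norm_mul, Pool.Agent.H807R2.Dav.norm_ee, mul_one]
        exact mul_le_of_le_one_right (norm_nonneg _) (DirichletCharacter.norm_le_one _ _)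
      · have := hJ q χ ψ⁻¹ a
        rw [hJb]
        linarith
    rw [e1, norm_mul, norm_inv, Complex.norm_natCast]
    calc (q.totient : ℝ)⁻¹ * ‖∑ ψ ∈ S, cs q y F η ψ * ∑ l : ZMod q, χ l * ψ⁻¹ (a - l)‖
        ≤ (q.totient : ℝ)⁻¹ * ((S.card : ℝ) * (X3 * (q * Jb))) := by gcongr
      _ ≤ (q.totient : ℝ)⁻¹ * ((S.card : ℝ) * (X3 * (q.totient * (1 + 2 * Real.log q) * Jb))) := by gcongr
      _ = _ := by field_simp
  rw [hsplit]
  refine (norm_add_le _ _).trans (add_le_add ((norm_add_le _ _).trans (add_le_add t1 t2)) t3)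

theorem shm (h5 : OrthStm) (hJ : JacStm) : ShmStm := by
  classical
  intro B C T ρ hρ
  refine ⟨2 * B + 2, fun C₃ => ⟨T + 2 * (C₃ + B + 10), ?_⟩⟩
  obtain ⟨N₀, hN₀⟩ := Filter.eventually_atTop.1 (ev_log 1 (s := 1) one_pos 8)
  refine ⟨max N₀ 1, fun N hN F hF hNc hM q _ hq χ hχ a ha η hη y hy => ?_⟩
  have hN1 : 1 ≤ N := le_trans (le_max_right _ _) hN
  obtain ⟨hL8, -⟩ := hN₀ N (le_trans (le_max_left _ _) hN)
  have hl1 := bd_l1 hF hL8
  obtain ⟨S, -, hSc, hS⟩ := hM q hq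
  have hN0 : (0 : ℝ) < N := by exact_mod_cast hN1
  have hNr1 : (1 : ℝ) ≤ N := by exact_mod_cast hN1
  have hq0 : (0 : ℝ) < q := by exact_mod_cast NeZero.pos q
  have hqN : (q : ℝ) ≤ N := by
    calc (q : ℝ) ≤ (N : ℝ) ^ (7 / 10 - ρ) := hq
      _ ≤ (N : ℝ) ^ (1 : ℝ) := Real.rpow_le_rpow_of_exponent_le hNr1 (by linarith)
      _ = N := Real.rpow_one _
  have hlq : Real.log q ≤ Real.log N := Real.log_le_log hq0 hqN
  have hlq0 : 0 ≤ Real.log q := Real.log_natCast_nonneg q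
  have hnc := hNc q (NeZero.pos q) (by exact_mod_cast hqN)
  have hSS := hS η hη y hy (univ.filter (fun χ => χ ∉ S)) (by
    rw [disjoint_left]
    intro χ k1 k2
    exact (mem_filter.1 k1).2 k2)
  obtain ⟨L, hL⟩ : ∃ L, L = Real.log (N : ℝ) := ⟨_, rfl⟩
  rw [← hL] at hL8 hl1 hSc hlq hnc hSS hχ ha ⊢
  have hL0 : 0 < L := by linarith
  have hL1 : 1 ≤ L := by linarith
  have h := shm_aux h5 hJ F η χ a S (X1 := N / L ^ (B + 1)) (X2 := N / L ^ (B + 1)) (X3 := N * L ^ 5)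
    (by positivity)
    (by
      refine hSS.trans (le_of_eq ?_)
      rw [div_pow, ← pow_mul]
      congr 2
      ring)
    (by
      refine le_trans ?_ hnc
      exact sum_le_sum_of_subset_of_nonneg (filter_subset_filter _ (Icc_subset_Icc le_rfl hy))
        fun _ _ _ => norm_nonneg _)
    (by
      refine le_trans ?_ hl1
      exact sum_le_sum_of_subset_of_nonneg (Icc_subset_Icc le_rfl hy) fun _ _ _ => norm_nonneg _)
  refine h.trans ?_
  have hcond : (0 : ℝ) < χ.conductor := lt_of_le_of_lt (by positivity) hχ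
  have e1 : Real.sqrt ((Nat.gcd a.val q : ℝ) / χ.conductor) ≤ 1 / L ^ (C₃ + B + 10) := by
    apply Real.sqrt_le_iff.2
    refine ⟨by positivity, ?_⟩
    rw [div_le_iff₀ hcond]
    calc (Nat.gcd a.val q : ℝ) ≤ L ^ T := ha
      _ = (1 / L ^ (C₃ + B + 10)) ^ 2 * L ^ (T + 2 * (C₃ + B + 10)) := by
          have e0 : L ^ (T + 2 * (C₃ + B + 10)) = L ^ T * (L ^ (C₃ + B + 10)) ^ 2 := by
            rw [← pow_mul, ← pow_add]
            congr 1
            ring
          rw [e0]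
          have e1 : L ^ (C₃ + B + 10) ≠ 0 := by positivity
          generalize L ^ (C₃ + B + 10) = X at e1 ⊢
          field_simp
      _ ≤ (1 / L ^ (C₃ + B + 10)) ^ 2 * χ.conductor := by gcongr
  have e2 : (S.card : ℝ) * (N * L ^ 5 * ((1 + 2 * Real.log q) *
      ((1 + Real.log q) * Real.sqrt ((Nat.gcd a.val q : ℝ) / χ.conductor)))) ≤ N / L ^ (B + 1) := by
    calc (S.card : ℝ) * (N * L ^ 5 * ((1 + 2 * Real.log q) *
        ((1 + Real.log q) * Real.sqrt ((Nat.gcd a.val q : ℝ) / χ.conductor))))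
        ≤ L ^ C₃ * (N * L ^ 5 * (L ^ 2 * (L ^ 2 * (1 / L ^ (C₃ + B + 10))))) := by
          have k1 : 1 + 2 * Real.log q ≤ L ^ 2 := by nlinarith
          have k2 : 1 + Real.log q ≤ L ^ 2 := by nlinarith
          gcongr
      _ = N / L ^ (B + 1) := by
          rw [show C₃ + B + 10 = C₃ + (B + 1) + 9 by ring, pow_add, pow_add L C₃ (B + 1)]
          field_simp
  have e3 : N / L ^ B = L * (N / L ^ (B + 1)) := by
    rw [pow_succ]
    field_simp
  rw [e3]
  have e4 : 0 ≤ N / L ^ (B + 1) := by positivity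
  nlinarith

end Pool.Agent.R460.GS
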