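import Pool.Agent.R460.GS.Stm
import Pool.Agent.R460.GS.Base
import Pool.Agent.Y948.GJ.TiMaj

set_option autoImplicit false

/-! Smooth sums over nonprincipal characters: the bound of the mean square. -/

namespace Pool.Agent.R460.GS

open Finset
open Pool.Agent.Y883.GJ
open Pool.Agent.H807R2.Dav (ee)
open Pool.Agent.Y948.GJ (period_sum ee_sub_one)

lemma mod_sum {q : ℕ} [NeZero q] {χ : DirichletCharacter ℂ q} (hχ : χ ≠ 1) (n : ℕ) :
    ∑ i ∈ range n, χ ((i + 1 : ℕ) : ZMod q) = ∑ i ∈ range (n % q), χ ((i + 1 : ℕ) : ZMod q) := by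
  induction n using Nat.strong_induction_on with
  | _ n ih =>
    rcases lt_or_ge n q with h | h
    · rw [Nat.mod_eq_of_lt h]
    · obtain ⟨m, rfl⟩ := Nat.exists_eq_add_of_le' h
      rw [Finset.sum_range_add]
      have h1 := period_sum hχ (m + 1)
      have h2 : ∑ x ∈ range q, χ ((m + x + 1 : ℕ) : ZMod q) =
          ∑ b ∈ range q, χ ((m + 1 + b : ℕ) : ZMod q) := by
        refine sum_congr rfl fun b _ => ?_
        rw [show m + b + 1 = m + 1 + b by ring]
      rw [h2, h1, add_zero, ih m (by have := Nat.pos_of_ne_zero (NeZero.ne q); omega), Nat.add_mod_right]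

open Classical in
lemma ev_apply {q : ℕ} [NeZero q] (S : Finset (DirichletCharacter ℂ q)) (β : ℝ) (n : ℕ)
    (χ : DirichletCharacter ℂ q) : (ev S β n) χ = if χ ∈ S then χ (n : ZMod q) * ee (n * β) else 0 := rfl

open Classical in
/-- the norm of a sum of vectors `ev`, simple sums -/
lemma norm_ev1 {q : ℕ} [NeZero q] (S : Finset (DirichletCharacter ℂ q)) (η : ℝ) {ι : Type*} (s : Finset ι)
    (c : ι → ℂ) (f : ι → ℕ) :
    ‖∑ n ∈ s, (c n) • ev S η (f n)‖ ^ 2 =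
      ∑ χ ∈ S, ‖∑ n ∈ s, c n * (χ (f n : ZMod q) * ee (f n * η))‖ ^ 2 := by
  rw [EuclideanSpace.norm_sq_eq]
  have h1 : ∀ χ : DirichletCharacter ℂ q, (∑ n ∈ s, (c n) • ev S η (f n)) χ =
      if χ ∈ S then ∑ n ∈ s, c n * (χ (f n : ZMod q) * ee (f n * η)) else 0 := by
    intro χ
    have h2 : (∑ n ∈ s, (c n) • ev S η (f n)) χ = ∑ n ∈ s, c n * (ev S η (f n)) χ := by
      simp
    rw [h2]
    by_cases h : χ ∈ S
    · simp only [ev_apply, if_pos h]
    · simp only [ev_apply, if_neg h, mul_zero, sum_const_zero]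
  simp only [h1]
  rw [← sum_filter_add_sum_filter_not univ (fun χ => χ ∈ S)]
  have h4 : ∑ χ ∈ univ.filter (fun χ : DirichletCharacter ℂ q => ¬ χ ∈ S),
      ‖(if χ ∈ S then ∑ n ∈ s, c n * (χ (f n : ZMod q) * ee (f n * η)) else 0)‖ ^ 2 = 0 := by
    refine sum_eq_zero fun χ hχ => ?_
    rw [if_neg (mem_filter.1 hχ).2, norm_zero, zero_pow two_ne_zero]
  rw [h4, add_zero]
  have h5 : univ.filter (fun χ : DirichletCharacter ℂ q => χ ∈ S) = S := by
    ext χ
    simp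
  rw [h5]
  refine sum_congr rfl fun χ hχ => ?_
  rw [if_pos hχ]

/-- full sums without exponential factor -/
lemma ti0 (h1 : L2Stm) {q : ℕ} [NeZero q] (S : Finset (DirichletCharacter ℂ q))
    (hS : (1 : DirichletCharacter ℂ q) ∉ S) (c m : ℕ) :
    ‖∑ b ∈ Icc 1 m, ev S 0 (b * c)‖ ≤ 2 * q := by
  have hq0 : (0 : ℝ) ≤ q := Nat.cast_nonneg q
  have h2 : ‖∑ b ∈ Icc 1 m, ev S 0 (b * c)‖ ^ 2 ≤ (2 * q) ^ 2 := by
    have e1 := norm_ev1 S 0 (Icc 1 m) (fun _ => 1) (fun b => b * c)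
    simp only [one_smul, one_mul] at e1
    rw [e1]
    have e2 : ∀ χ ∈ S, ‖∑ b ∈ Icc 1 m, χ ((b * c : ℕ) : ZMod q) * ee (((b * c : ℕ) : ℝ) * 0)‖ ^ 2 ≤
        ‖∑ b ∈ Icc 1 (m % q), (1 : ℂ) * χ (b : ZMod q)‖ ^ 2 := by
      intro χ hχ
      have hχ1 : χ ≠ 1 := fun h => hS (h ▸ hχ)
      have e3 : ∀ m : ℕ, ∑ b ∈ Icc 1 m, χ (b : ZMod q) = ∑ i ∈ range m, χ ((i + 1 : ℕ) : ZMod q) := by
        intro m
        rw [Finset.range_eq_Ico, Finset.sum_Ico_add' (fun b : ℕ => χ (b : ZMod q)) 0 m 1]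
        exact sum_congr (by ext b; simp only [mem_Icc, mem_Ico]; omega) fun _ _ => rfl
      have e4 : ∑ b ∈ Icc 1 m, χ ((b * c : ℕ) : ZMod q) * ee (((b * c : ℕ) : ℝ) * 0) =
          χ (c : ZMod q) * ∑ b ∈ Icc 1 (m % q), (1 : ℂ) * χ (b : ZMod q) := by
        simp only [one_mul]
        rw [e3, ← mod_sum hχ1, ← e3, mul_sum]
        refine sum_congr rfl fun b _ => ?_
        rw [mul_zero, Nat.cast_mul, map_mul]
        have : ee 0 = 1 := by
          have := Pool.Agent.H807R2.Dav.ee_eq' 0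
          rw [this]
          simp
        rw [this]
        ring
      rw [e4, norm_mul]
      refine pow_le_pow_left₀ (by positivity) ?_ 2
      exact mul_le_of_le_one_left (norm_nonneg _) (DirichletCharacter.norm_le_one _ _)
    refine (sum_le_sum e2).trans ?_
    refine (sum_le_sum_of_subset_of_nonneg (subset_univ S) fun χ _ _ => sq_nonneg _).trans ?_
    refine ((h1 q (m % q) (fun _ => 1)).1).trans ?_
    have e5 : ((m % q : ℕ) : ℝ) ≤ q := by
      exact_mod_cast (Nat.mod_lt _ (NeZero.pos q)).le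
    have e6 : ∑ n ∈ Icc 1 (m % q), ‖(1 : ℂ)‖ ^ 2 = ((m % q : ℕ) : ℝ) := by
      simp
    rw [e6]
    have e7 : (0 : ℝ) ≤ ((m % q : ℕ) : ℝ) := Nat.cast_nonneg _
    nlinarith
  exact (pow_le_pow_iff_left₀ (norm_nonneg _) (by positivity) two_ne_zero).1 h2

theorem tiMaj2 (h1 : L2Stm) : TiMaj2Stm := by
  intro q _ S hS η c y
  have e1 : ∀ b : ℕ, ev S η (b * c) = ee ((b : ℝ) * (c * η)) • ev S 0 (b * c) := by
    intro b
    ext χ
    rw [PiLp.smul_apply, ev_apply, ev_apply]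
    have h0 : ee 0 = 1 := by
      have := Pool.Agent.H807R2.Dav.ee_eq' 0
      rw [this]
      simp
    by_cases h : χ ∈ S
    · rw [if_pos h, if_pos h, smul_eq_mul, mul_zero, h0, mul_one, mul_comm]
      congr 2
      push_cast
      ring
    · rw [if_neg h, if_neg h, smul_zero]
  have e2 := abelI (fun b => ev S 0 (b * c)) (fun b : ℕ => ee ((b : ℝ) * (c * η))) (2 * q) (7 * |c * η|) y
    (fun m _ => ti0 h1 S hS c m) (fun i => (Pool.Agent.H807R2.Dav.norm_ee _).le) (fun i => by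
      have e3 : (((i + 1 : ℕ) : ℝ) * (c * η)) = (i : ℝ) * (c * η) + c * η := by push_cast; ring
      have e4 : ee (((i + 1 : ℕ) : ℝ) * (c * η)) - ee ((i : ℝ) * (c * η)) =
          ee ((i : ℝ) * (c * η)) * (ee (c * η) - 1) := by
        rw [e3, Pool.Agent.H807R2.Dav.ee_add]
        ring
      rw [e4, norm_mul, Pool.Agent.H807R2.Dav.norm_ee, one_mul]
      exact ee_sub_one _)
  rw [sum_congr rfl fun b _ => e1 b]
  refine e2.trans (le_of_eq ?_)
  rw [abs_mul, Nat.abs_cast]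
  ring

end Pool.Agent.R460.GS
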