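import Pool.Agent.R460.GS.GrVec

set_option autoImplicit false

/-! The function `gr` on the major arcs. -/

namespace Pool.Agent.R460.GS

open Finset
open Pool.Agent.Y883.GJ
open Pool.Agent.H807R2.Dav (ee)
open Pool.Agent.Y614.GJ.Core (ev_log)

lemma supp_real {N m : ℕ} (h : WW N < m ∧ m ≤ ZZ N) :
    (N : ℝ) ^ (3 / 20 : ℝ) ≤ 2 * m ∧ (m : ℝ) ≤ (N : ℝ) ^ (3 / 10 : ℝ) := by
  obtain ⟨h1, h2⟩ := h
  constructor
  · have h3 : (N : ℝ) ^ (3 / 20 : ℝ) < (WW N : ℝ) + 1 := Nat.lt_floor_add_one _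
    have h4 : (WW N : ℝ) + 1 ≤ m := by exact_mod_cast h1
    have h5 : (0 : ℝ) ≤ m := Nat.cast_nonneg _
    linarith
  · have h3 : (ZZ N : ℝ) ≤ (N : ℝ) ^ (3 / 10 : ℝ) := Nat.floor_le (by positivity)
    have h4 : (m : ℝ) ≤ ZZ N := by exact_mod_cast h2
    linarith

lemma one_le_bd {N m : ℕ} (hL : 1 ≤ Real.log N) (hm : m ∈ Icc 1 N) {z : ℂ} (hz : ‖z‖ ≤ 1) :
    ‖z‖ ≤ Real.log N * (m.divisors.card : ℝ) := by
  have h1 : (1 : ℝ) ≤ (m.divisors.card : ℝ) := by
    have : 0 < m.divisors.card := card_pos.2 ⟨1, Nat.one_mem_divisors.2 (by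
      rw [mem_Icc] at hm
      omega)⟩
    exact_mod_cast this
  nlinarith

open Classical in
theorem mG (h1 : L2Stm) (hB : BilMaj2Stm) (hT : TiMaj2Stm) : MGStm := by
  intro A C ρ hρ
  obtain ⟨C', N₁, hB'⟩ := hB (A + 2 * (A + 14) + 8) C ρ hρ
  obtain ⟨N₂, hG⟩ := gr_vec h1 A
  obtain ⟨N₃, hN₃⟩ := Filter.eventually_atTop.1 (ev_log (C + A + 5) (s := 3 / 20) (by norm_num) 16)
  refine ⟨C' + A + 18, max (max N₁ N₂) (max N₃ 1), fun N hN q _ hq => ?_⟩
  have hNN₁ : N₁ ≤ N := le_trans (le_trans (le_max_left _ _) (le_max_left _ _)) hN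
  have hNN₂ : N₂ ≤ N := le_trans (le_trans (le_max_right _ _) (le_max_left _ _)) hN
  have hNN₃ : N₃ ≤ N := le_trans (le_trans (le_max_left _ _) (le_max_right _ _)) hN
  have hN1 : 1 ≤ N := le_trans (le_trans (le_max_right _ _) (le_max_right _ _)) hN
  obtain ⟨hL16, hLp⟩ := hN₃ N hNN₃
  have hN0 : (0 : ℝ) < N := by exact_mod_cast hN1
  have hNr1 : (1 : ℝ) ≤ N := by exact_mod_cast hN1
  have hqN : (q : ℝ) ≤ N := by
    calc (q : ℝ) ≤ (N : ℝ) ^ (7 / 10 - ρ) := hq
      _ ≤ (N : ℝ) ^ (1 : ℝ) := Real.rpow_le_rpow_of_exponent_le hNr1 (by linarith)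
      _ = N := Real.rpow_one _
  have hJ := JJ_le (N := N) (U := A + 14) (by linarith)
  have hb1 := fun j => hB' N hNN₁ q hq (a1 (WW N) (ZZ N) (cc N (A + 14)) j)
    (fun m hm => one_le_bd (by linarith) hm (a1_le _ _ _ _ _)) (fun m hm => supp_real (a1_supp hm))
  have hb2 := fun j => hB' N hNN₁ q hq (a2 (WW N) (WW N) (cc N (A + 14)) j)
    (fun m hm => one_le_bd (by linarith) hm (a2_le _ _ _ _ _)) (fun m hm => supp_real (a2_supp hN1 hm))
  choose B1 hB1c hB1 using hb1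
  choose B2 hB2c hB2 using hb2
  refine ⟨insert 1 ((range (JJ N (A + 14))).biUnion (fun j => B1 j ∪ B2 j)), mem_insert_self _ _, ?_, ?_⟩
  · have e1 : (insert 1 ((range (JJ N (A + 14))).biUnion (fun j => B1 j ∪ B2 j))).card ≤
        ∑ j ∈ range (JJ N (A + 14)), ((B1 j).card + (B2 j).card) + 1 := by
      refine (card_insert_le _ _).trans (Nat.add_le_add_right ?_ 1)
      exact card_biUnion_le.trans (sum_le_sum fun j _ => card_union_le _ _)
    have e2 : ((insert 1 ((range (JJ N (A + 14))).biUnion (fun j => B1 j ∪ B2 j))).card : ℝ) ≤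
        ∑ j ∈ range (JJ N (A + 14)), (((B1 j).card : ℝ) + (B2 j).card) + 1 := by exact_mod_cast e1
    refine e2.trans ?_
    obtain ⟨L, hLd⟩ : ∃ L, L = Real.log (N : ℝ) := ⟨_, rfl⟩
    rw [← hLd] at hB1c hB2c hJ hL16 ⊢
    have hL0 : 0 < L := by linarith
    have hL1 : 1 ≤ L := by linarith
    calc ∑ j ∈ range (JJ N (A + 14)), (((B1 j).card : ℝ) + (B2 j).card) + 1
        ≤ ∑ j ∈ range (JJ N (A + 14)), (L ^ C' + L ^ C') + 1 := by
          gcongr with j hj
          · exact hB1c j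
          · exact hB2c j
      _ = (JJ N (A + 14) : ℝ) * (2 * L ^ C') + 1 := by
          rw [sum_const, card_range, nsmul_eq_mul]
          ring
      _ ≤ L ^ (A + 14 + 2) * (2 * L ^ C') + 1 := by gcongr
      _ ≤ L ^ (A + 14 + 2) * (2 * L ^ C') + L ^ (A + 14 + 2) * L ^ C' := by
          have : 1 ≤ L ^ (A + 14 + 2) * L ^ C' :=
            one_le_mul_of_one_le_of_one_le (one_le_pow₀ hL1) (one_le_pow₀ hL1)
          linarith
      _ = 3 * (L ^ (A + 14 + 2) * L ^ C') := by ring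
      _ ≤ L ^ 2 * (L ^ (A + 14 + 2) * L ^ C') := by
          gcongr
          nlinarith
      _ = L ^ (C' + A + 18) := by ring
  · intro η hη y hy S hS
    have hS1 : (1 : DirichletCharacter ℂ q) ∉ S := fun h =>
      disjoint_left.1 hS h (mem_insert_self _ _)
    have hSj : ∀ j ∈ range (JJ N (A + 14)), Disjoint S (B1 j) ∧ Disjoint S (B2 j) := by
      intro j hj
      constructor
      · refine Disjoint.mono_right (fun χ hχ => ?_) hS
        rw [mem_insert, mem_biUnion]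
        exact Or.inr ⟨j, hj, mem_union_left _ hχ⟩
      · refine Disjoint.mono_right (fun χ hχ => ?_) hS
        rw [mem_insert, mem_biUnion]
        exact Or.inr ⟨j, hj, mem_union_right _ hχ⟩
    apply hG N hNN₂ q hqN S η y hy
    · have e1 : ∀ d ∈ Icc 1 (WW N), ‖∑ b ∈ Icc 1 (y / d), ev S η (b * d)‖ ≤
          16 * (q * Real.log N ^ C) := by
        intro d hd
        refine (hT q S hS1 η d (y / d)).trans ?_
        have e2 : (d : ℝ) * ((y / d : ℕ) : ℝ) ≤ N := by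
          have : d * (y / d) ≤ N := (Nat.mul_div_le _ _).trans hy
          exact_mod_cast this
        have e3 : |η| * ((d : ℝ) * ((y / d : ℕ) : ℝ)) ≤ Real.log N ^ C := by
          calc |η| * ((d : ℝ) * ((y / d : ℕ) : ℝ)) ≤ (Real.log N ^ C / N) * N := by
                apply mul_le_mul hη e2 (by positivity)
                have : 0 ≤ Real.log N := by linarith
                positivity
            _ = Real.log N ^ C := by field_simp
        have e4 : 1 ≤ Real.log N ^ C := one_le_pow₀ (by linarith)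
        have e5 : 1 + 7 * |η| * ((d : ℝ) * ((y / d : ℕ) : ℝ)) ≤ 8 * Real.log N ^ C := by linarith
        calc 2 * (q : ℝ) * (1 + 7 * |η| * ((d : ℝ) * ((y / d : ℕ) : ℝ))) ≤
            2 * (q : ℝ) * (8 * Real.log N ^ C) := by gcongr
          _ = _ := by ring
      refine (sum_le_sum e1).trans ?_
      rw [sum_const, Nat.card_Icc, Nat.add_sub_cancel, nsmul_eq_mul]
      have e2 : (WW N : ℝ) ≤ (N : ℝ) ^ (3 / 20 : ℝ) := Nat.floor_le (by positivity)
      obtain ⟨L, hLd⟩ : ∃ L, L = Real.log (N : ℝ) := ⟨_, rfl⟩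
      rw [← hLd] at hL16 hLp ⊢
      have hL0 : 0 < L := by linarith
      rw [le_div_iff₀ (by positivity)]
      calc (WW N : ℝ) * (16 * (q * L ^ C)) * L ^ (A + 4)
          ≤ (N : ℝ) ^ (3 / 20 : ℝ) * (16 * ((N : ℝ) ^ (7 / 10 : ℝ) * L ^ C)) * L ^ (A + 4) := by
            have : (q : ℝ) ≤ (N : ℝ) ^ (7 / 10 : ℝ) :=
              hq.trans (Real.rpow_le_rpow_of_exponent_le hNr1 (by linarith))
            gcongr
        _ = ((N : ℝ) ^ (3 / 20 : ℝ) * (N : ℝ) ^ (7 / 10 : ℝ)) * (16 * (L ^ C * L ^ (A + 4))) := by ring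
        _ ≤ ((N : ℝ) ^ (3 / 20 : ℝ) * (N : ℝ) ^ (7 / 10 : ℝ)) * (N : ℝ) ^ (3 / 20 : ℝ) := by
            have : 16 * (L ^ C * L ^ (A + 4)) ≤ (N : ℝ) ^ (3 / 20 : ℝ) := by
              refine le_trans ?_ hLp
              calc 16 * (L ^ C * L ^ (A + 4)) ≤ L * (L ^ C * L ^ (A + 4)) := by gcongr
                _ = L ^ (C + A + 5) := by ring
            gcongr
        _ = (N : ℝ) ^ (1 : ℝ) := by
            rw [← Real.rpow_add hN0, ← Real.rpow_add hN0]
            norm_num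
        _ = N := Real.rpow_one _
    · intro j hj
      exact hB2 j (b2 (WW N) (cc N (A + 14)) j) (fun m hm => one_le_bd (by linarith) hm (b2_le _ _ _ _))
        η hη y hy S (hSj j hj).2
    · intro j hj
      exact hB1 j (b1 (cc N (A + 14)) j) (fun m hm => one_le_bd (by linarith) hm (b1_le _ _ _))
        η hη y hy S (hSj j hj).1

end Pool.Agent.R460.GS
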