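import Pool.Agent.R460.GS.Low
import Pool.Agent.R460.GS.NG

set_option autoImplicit false

/-! The lower bound in a window between two points of the grid. -/

namespace Pool.Agent.R460.GS

open Finset
open Pool.Agent.H807R2.Dav (ee)
open Pool.Agent.H373R2.T7 (lamz Vz pz lamI lamzI Vz_pos)
open Pool.Agent.Y883.T3 (lsh)
open Pool.Agent.Y883.GJ
open Pool.Agent.W93.PG (wn cnt lam_sub lamz_le lamz_nn win_main)
open Pool.Agent.H560R3.GB (sing)
open Pool.Agent.Y614.GJ.Core (ev_log)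

/-- the error terms at `y` are small -/
def SmallE (N z r n y V : ℕ) : Prop :=
  ‖cv LA (f0 N z r) y N n‖ ≤ N / Real.log N ^ V ∧ ‖cv LA (f0 N z r) N y n‖ ≤ N / Real.log N ^ V ∧
  ‖cv (GG N) (f0 N z r) N y n‖ ≤ N / Real.log N ^ V ∧ ‖cv (HH N z r) (f0 N z r) y N n‖ ≤ N / Real.log N ^ V

lemma win_main' (V E1 : ℕ) (hE1 : V + 6 ≤ E1) : ∃ X0 : ℕ, ∀ X : ℕ, X0 ≤ X → ∀ m : ℕ, m ≤ X → 2 ∣ m → m ≠ 0 →
    ∀ z : ℕ, Real.log X ^ E1 ≤ z → (z : ℝ) ≤ Real.log X ^ (E1 + 1) →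
      (∀ y : ℕ, y < m → |∑ n ∈ Icc 1 y, la n * lamz z (m - n) - sing m * y| ≤ 2 * (X / Real.log X ^ (V + 2)) ∧
      |∑ n ∈ Icc 1 y, lamz z n * lamz z (m - n) - sing m * y| ≤ 2 * (X / Real.log X ^ (V + 2))) ∧
      0 ≤ sing m ∧ sing m ≤ 2 * Real.log X := by
  obtain ⟨X1, h1⟩ := win_main V E1 hE1
  obtain ⟨X2, h2⟩ := win2_main V E1 hE1
  refine ⟨X1 + X2, fun X hX m hm h2m hm0 z hz1 hz2 => ⟨fun y hy => ⟨?_, ?_⟩, ?_⟩⟩
  · have h3 := (h1 X (by omega) m hm h2m hm0 z hz1 hz2 y hy).1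
    have e : ∑ n ∈ Icc 1 y, la n * lamz z (m - n) =
        ∑ n ∈ Icc 1 y, ArithmeticFunction.vonMangoldt n * lamzI z ((m : ℤ) - n) := by
      refine sum_congr rfl fun n hn => ?_
      rw [mem_Icc] at hn
      unfold la lamzI
      have e1 : (m : ℤ) - n = ((m - n : ℕ) : ℤ) := by omega
      rw [e1, if_pos (by omega), Int.toNat_natCast]
    rw [e]
    exact h3
  · exact h2 X (by omega) m hm h2m hm0 z hz1 hz2 y hy
  · exact (h1 X (by omega) m hm h2m hm0 z hz1 hz2 0 (by omega)).2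

lemma aux1 {c D L : ℝ} (hc : 0 ≤ c) (hD : 0 < D) (hL0 : 0 < L) (h : 100 * (1 + c + c ^ 2) ≤ L) :
    c * (D / L) ≤ D / 100 ∧ c ^ 2 * (D / L) ≤ D / 100 ∧ D / L ≤ D / 100 := by
  have h1 : D / L * L = D := div_mul_cancel₀ _ hL0.ne'
  have h2 : 0 < D / L := by positivity
  have h3 : D / L * (100 * (1 + c + c ^ 2)) ≤ D := by
    calc D / L * (100 * (1 + c + c ^ 2)) ≤ D / L * L := mul_le_mul_of_nonneg_left h h2.le
      _ = D := h1
  have h4 : 0 ≤ c * (D / L) := by positivity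
  have h5 : 0 ≤ c ^ 2 * (D / L) := by positivity
  have h6 : D / L * (100 * (1 + c + c ^ 2)) = 100 * (D / L + c * (D / L) + c ^ 2 * (D / L)) := by ring
  rw [h6] at h3
  refine ⟨?_, ?_, ?_⟩ <;> linarith

lemma aux2 {c L : ℝ} (hc : 0 ≤ c) (h : 100 * (1 + c + c ^ 2) ≤ L) : 100 ≤ L := by
  have := sq_nonneg c
  linarith

/-- the lower bound between two points of the grid -/
lemma grid_lower (hWtb : WtbStm) (hWtd : WtdStm) (V E1 : ℕ) (hE1 : V + 8 ≤ E1) : ∃ N₀ : ℕ, ∀ N : ℕ, N₀ ≤ N →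
    ∀ z r : ℕ, Real.log N ^ E1 ≤ z → (z : ℝ) ≤ Real.log N ^ (E1 + 1) → Par (2 * V + 26) N z r →
    ∑ n ∈ Icc 1 N, |lamz z n - lsh z r n| ≤ N / Real.log N ^ (2 * V + 26) →
    ∀ n : ℕ, n ≤ N → 2 ∣ n → n ≠ 0 → ∀ y₁ y₂ : ℕ, y₁ ≤ y₂ → y₂ < n → SmallE N z r n y₁ (V + 2) →
      SmallE N z r n y₂ (V + 2) → 
      59 / 1000 * (sing n * ((y₂ : ℝ) - y₁)) - N / Real.log N ^ V ≤ wn n y₁ y₂ ∧ sing n ≤ 2 * Real.log N := by
  obtain ⟨c, Nw, hWB⟩ := wb_of hWtb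
  obtain ⟨Nd, hd⟩ := hWtd (V + 4)
  obtain ⟨X0, hX0⟩ := win_main' (V + 2) E1 (by omega)
  obtain ⟨Ne, hNe⟩ := Filter.eventually_atTop.1 (ev_log (V + 6) (s := 7 / 10) (by norm_num)
    (100 * (1 + |c| + c ^ 2)))
  refine ⟨Nw + Nd + X0 + Ne + 1, fun N hN z r hz1 hz2 hP hsum n hn h2n hn0 y₁ y₂ h12 h2 hs1 hs2 => ?_⟩
  have hN1 : 1 ≤ N := by omega
  have hN0 : (0 : ℝ) < N := by exact_mod_cast hN1
  obtain ⟨hLe, hLp⟩ := hNe N (by omega)
  have hW := hWB N (by omega)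
  have hc := hW.nn
  rw [abs_of_nonneg hc] at hLe
  have hc2 : 0 ≤ c ^ 2 := sq_nonneg c
  have hL100 : 100 ≤ Real.log N := aux2 hc hLe
  obtain ⟨hwin, hS0, hS2⟩ := hX0 N (by omega) n hn h2n hn0 z hz1 hz2
  have hx2 := x_sq (V := V + 3) hP (by linarith) (by
    rw [show 2 * (V + 3) + 20 = 2 * V + 26 by ring]
    exact hsum)
  have k1 := wn_lower (y₁ := y₁) h2 hn (by linarith)
  have k2 := swap_model (y₁ := y₁) hW hP h2 hn hsum hx2
  have k3 := det_main (la := la) (lz := lamz z) (S := sing n) hW hn h12 h2 (fun y hy => (hwin y hy).1)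
    (fun y hy => (hwin y hy).2)
  have hX : (0 : ℝ) ≤ N / Real.log N ^ (V + 4) := by positivity
  have k4 := dens_lower (X := N / Real.log N ^ (V + 4)) hW hn h12 h2 hX (fun b hb hb' => hd N (by omega) b hb hb')
  have e1 := err_window (z := z) (r := r) (lt_of_le_of_lt h12 h2) hn
  have e2 := err_window (z := z) (r := r) h2 hn
  obtain ⟨s11, s12, s13, s14⟩ := hs1
  obtain ⟨s21, s22, s23, s24⟩ := hs2
  have hsplit : ∑ b ∈ Ioc y₁ y₂, (la b * gr N (n - b) + gr N b * la (n - b) - gr N b * gr N (n - b)) =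
      ∑ b ∈ Ioc y₁ y₂, (la b * hR N z r (n - b) + hR N z r b * la (n - b) - hR N z r b * hR N z r (n - b)) +
      (∑ b ∈ Icc 1 y₂, (la b * fR N z r (n - b) + fR N z r b * la (n - b) - fR N z r b * gr N (n - b) -
        hR N z r b * fR N z r (n - b)) -
      ∑ b ∈ Icc 1 y₁, (la b * fR N z r (n - b) + fR N z r b * la (n - b) - fR N z r b * gr N (n - b) -
        hR N z r b * fR N z r (n - b))) := by
    rw [← sum_window _ h12, ← sum_add_distrib]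
    refine sum_congr rfl fun b _ => ?_
    unfold fR
    ring
  rw [hsplit] at k1
  have hlog2 := log2_le hN1
  obtain ⟨L, hLd⟩ : ∃ L, L = Real.log (N : ℝ) := ⟨_, rfl⟩
  obtain ⟨S, hSd⟩ : ∃ S, S = sing n := ⟨_, rfl⟩
  rw [← hLd] at s11 s12 s13 s14 s21 s22 s23 s24 hLe hLp hL100 k1 k2 k3 k4 hS2 hlog2 hX ⊢
  rw [← hSd] at k3 hS0 hS2 ⊢
  refine ⟨?_, hS2⟩
  have hL0 : 0 < L := by linarith
  have hL1 : 1 ≤ L := by linarith
  obtain ⟨D, hD⟩ : ∃ D : ℝ, D = N / L ^ (V + 1) := ⟨_, rfl⟩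
  have hD0 : 0 < D := by rw [hD]; positivity
  -- sizes of the error terms
  have hmono : ∀ j : ℕ, (N : ℝ) / L ^ (V + 1 + j) = D / L ^ j := by
    intro j
    rw [hD, pow_add, div_div]
  have z1 : (N : ℝ) / L ^ (V + 2) = D / L := by
    have := hmono 1
    rwa [pow_one] at this
  have z3 : (N : ℝ) / L ^ (V + 3) = D / L ^ 2 := hmono 2
  have z4 : (N : ℝ) / L ^ (V + 4) = D / L ^ 3 := hmono 3
  have z5 : (N : ℝ) / L ^ (2 * V + 26) ≤ D / L ^ 3 := by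
    rw [← z4]
    exact div_le_div_of_nonneg_left hN0.le (by positivity) (pow_le_pow_right₀ hL1 (by omega))
  have z0 : (N : ℝ) / L ^ V = L * D := by
    rw [hD, pow_succ]
    field_simp
  have hinv : D / L ≤ D / 100 := div_le_div_of_nonneg_left hD0.le (by norm_num) hL100
  have hinv2 : D / L ^ 2 ≤ D / L := by
    apply div_le_div_of_nonneg_left hD0.le hL0
    calc L = L ^ 1 := (pow_one L).symm
      _ ≤ L ^ 2 := pow_le_pow_right₀ hL1 (by norm_num)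
  have hinv3 : D / L ^ 3 ≤ D / L := by
    apply div_le_div_of_nonneg_left hD0.le hL0
    calc L = L ^ 1 := (pow_one L).symm
      _ ≤ L ^ 3 := pow_le_pow_right₀ hL1 (by norm_num)
  have hDL : 0 ≤ D / L := by positivity
  obtain ⟨hcD1, hcD2, -⟩ := aux1 hc hD0 hL0 hLe
  -- (a) powers of small primes
  have ea : 2 * L ^ 2 * ((ZZ N : ℝ) * ((Nat.log 2 N + 1 : ℕ) : ℝ)) ≤ D := by
    have f1 : (ZZ N : ℝ) ≤ (N : ℝ) ^ (3 / 10 : ℝ) := Nat.floor_le (by positivity)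
    have f2 : ((Nat.log 2 N + 1 : ℕ) : ℝ) ≤ 3 * L := by linarith
    rw [hD, le_div_iff₀ (by positivity)]
    calc 2 * L ^ 2 * ((ZZ N : ℝ) * ((Nat.log 2 N + 1 : ℕ) : ℝ)) * L ^ (V + 1)
        ≤ 2 * L ^ 2 * ((N : ℝ) ^ (3 / 10 : ℝ) * (3 * L)) * L ^ (V + 1) := by gcongr
      _ = (N : ℝ) ^ (3 / 10 : ℝ) * (6 * (L ^ 3 * L ^ (V + 1))) := by ring
      _ ≤ (N : ℝ) ^ (3 / 10 : ℝ) * (N : ℝ) ^ (7 / 10 : ℝ) := by
          have f3 : 6 * (L ^ 3 * L ^ (V + 1)) ≤ L ^ (V + 6) := by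
            calc 6 * (L ^ 3 * L ^ (V + 1)) ≤ L ^ 2 * (L ^ 3 * L ^ (V + 1)) := by
                  have f4 : (6 : ℝ) ≤ L ^ 2 := by
                    calc (6 : ℝ) ≤ L := by linarith only [hL100]
                      _ = L ^ 1 := (pow_one L).symm
                      _ ≤ L ^ 2 := pow_le_pow_right₀ hL1 (by norm_num)
                  gcongr
              _ = L ^ (V + 6) := by ring
          have := f3.trans hLp
          gcongr
      _ = N := by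
          rw [← Real.rpow_add hN0]
          norm_num
  -- (c) the swap of the models
  have ec : 2 * ((c + c ^ 2) * L * (N / L ^ (2 * V + 26))) + 2 * (c ^ 2 * (N / L ^ (V + 3))) ≤ D := by
    have g1 : L * (D / L ^ 3) = D / L ^ 2 := by field_simp
    have g2 : (c + c ^ 2) * L * (N / L ^ (2 * V + 26)) ≤ (c + c ^ 2) * (D / L) := by
      calc (c + c ^ 2) * L * (N / L ^ (2 * V + 26)) ≤ (c + c ^ 2) * L * (D / L ^ 3) := by gcongr
        _ = (c + c ^ 2) * (D / L ^ 2) := by rw [mul_assoc, g1]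
        _ ≤ _ := by gcongr
    have g3 : c ^ 2 * (N / L ^ (V + 3)) ≤ c ^ 2 * (D / L) := by
      rw [z3]
      gcongr
    have g4 : (c + c ^ 2) * (D / L) = c * (D / L) + c ^ 2 * (D / L) := by ring
    rw [g4] at g2
    linarith only [g2, g3, hcD1, hcD2, hD0]
  -- (d) the main term
  have ed : (12 * c + 6 * c ^ 2) * (2 * (N / L ^ (V + 2 + 2))) ≤ D := by
    rw [show V + 2 + 2 = V + 4 by ring, z4]
    have g2 : (12 * c + 6 * c ^ 2) * (2 * (D / L ^ 3)) ≤ (12 * c + 6 * c ^ 2) * (2 * (D / L)) := by gcongr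
    have g4 : (12 * c + 6 * c ^ 2) * (2 * (D / L)) = 24 * (c * (D / L)) + 12 * (c ^ 2 * (D / L)) := by ring
    rw [g4] at g2
    linarith only [g2, hcD1, hcD2, hD0]
  -- (e) the density
  have ee1 : S * ((c ^ 2 + 1) * (2 * (N / L ^ (V + 4)) + 2)) ≤ D := by
    have g1 : 2 * (N / L ^ (V + 4)) + 2 ≤ 4 * (N / L ^ (V + 4)) := by
      have : 1 ≤ (N : ℝ) / L ^ (V + 4) := by
        rw [le_div_iff₀ (by positivity), one_mul]
        calc L ^ (V + 4) ≤ L ^ (V + 6) := pow_le_pow_right₀ hL1 (by omega)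
          _ ≤ (N : ℝ) ^ (7 / 10 : ℝ) := hLp
          _ ≤ (N : ℝ) ^ (1 : ℝ) := Real.rpow_le_rpow_of_exponent_le (by exact_mod_cast hN1) (by norm_num)
          _ = N := Real.rpow_one _
      linarith
    calc S * ((c ^ 2 + 1) * (2 * (N / L ^ (V + 4)) + 2)) ≤ (2 * L) * ((c ^ 2 + 1) * (4 * (N / L ^ (V + 4)))) := by
          gcongr
      _ = 8 * (c ^ 2 + 1) * (D / L ^ 2) := by
          rw [z4]
          field_simp
          ring
      _ ≤ 8 * (c ^ 2 + 1) * (D / L) := by gcongr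
      _ = 8 * (c ^ 2 * (D / L)) + 8 * (D / L) := by ring
      _ ≤ D := by linarith only [hcD2, hinv, hD0]
  obtain ⟨M1, hM1⟩ : ∃ M1, M1 = ∑ b ∈ Ioc y₁ y₂, (la b * hR N z r (n - b) + hR N z r b * la (n - b) -
    hR N z r b * hR N z r (n - b)) := ⟨_, rfl⟩
  obtain ⟨M2, hM2⟩ : ∃ M2, M2 = ∑ b ∈ Ioc y₁ y₂, (la b * (Wt N (n - b) * lamz z (n - b)) +
    (Wt N b * lamz z b) * la (n - b) - (Wt N b * lamz z b) * (Wt N (n - b) * lamz z (n - b))) := ⟨_, rfl⟩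
  obtain ⟨M3, hM3⟩ : ∃ M3, M3 = ∑ b ∈ Ioc y₁ y₂, (Wt N (n - b) + Wt N b - Wt N b * Wt N (n - b)) := ⟨_, rfl⟩
  rw [← hM1] at k1
  rw [← hM1, ← hM2] at k2
  rw [← hM2, ← hM3] at k3
  rw [← hM3] at k4
  have m1 := (abs_le.1 k2).1
  have m2 := (abs_le.1 k3).1
  have m3 := (abs_le.1 e1).2
  have m4 := (abs_le.1 e2).1
  have m5 := mul_le_mul_of_nonneg_left k4 hS0
  have m6 : S * (59 / 1000 * ((y₂ : ℝ) - y₁) - (c ^ 2 + 1) * (2 * (N / L ^ (V + 4)) + 2)) =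
    59 / 1000 * (S * ((y₂ : ℝ) - y₁)) - S * ((c ^ 2 + 1) * (2 * (N / L ^ (V + 4)) + 2)) := by ring
  rw [m6] at m5
  rw [z0]
  have m7 : 12 * D ≤ L * D := mul_le_mul_of_nonneg_right (by linarith only [hL100]) hD0.le
  linarith only [m7, m5, m4, m3, m2, m1, k1, ea, ec, ed, ee1, s11, s12, s13, s14, s21, s22, s23, s24, z1, hinv, hD0]

end Pool.Agent.R460.GS
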