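import Pool.Agent.W93.PG2
import Pool.Agent.H373R2.T7.SysCount

set_option autoImplicit false

/-! Pair correlations of the sieve model in windows. -/

namespace Pool.Agent.R460.GS

open Finset
open Pool.Agent.H373R2.T7
open Pool.Agent.H560R3.GB (sing)
open Pool.Agent.W93.GB
open Pool.Agent.W93.PP (MT MT_sing MT_one MT_le Cnt PS mem_PS)

/-- the classes -/
def QM (m p n : ℕ) : Prop := (p : ℤ) ∣ (n : ℤ) ∨ (p : ℤ) ∣ (m : ℤ) - n

lemma QM_per (m p n : ℕ) : QM m p n ↔ QM m p (n % p) := by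
  unfold QM
  have h1 : (n : ℤ) = ((n % p : ℕ) : ℤ) + (p : ℤ) * ((n / p : ℕ) : ℤ) := by
    have := Nat.mod_add_div n p
    exact_mod_cast this.symm
  constructor
  · rintro (h | h)
    · left
      rw [h1] at h
      exact (Int.dvd_add_left (Dvd.intro _ rfl)).1 h
    · right
      have h2 : (m : ℤ) - ((n % p : ℕ) : ℤ) = ((m : ℤ) - n) + (p : ℤ) * ((n / p : ℕ) : ℤ) := by
        linarith
      rw [h2]
      exact dvd_add h (Dvd.intro _ rfl)
  · rintro (h | h)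
    · left
      rw [h1]
      exact dvd_add h (Dvd.intro _ rfl)
    · right
      have h2 : (m : ℤ) - (n : ℤ) = ((m : ℤ) - ((n % p : ℕ) : ℤ)) - (p : ℤ) * ((n / p : ℕ) : ℤ) := by
        linarith
      rw [h2]
      exact dvd_sub h (Dvd.intro _ rfl)

open Classical in
lemma QM_filter {m p : ℕ} (hp : p.Prime) : (range p).filter (fun r => QM m p r) = {0, m % p} := by
  ext r
  rw [mem_filter, mem_range, mem_insert, mem_singleton]
  have hp0 := hp.pos
  constructor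
  · rintro ⟨h1, h2 | h2⟩
    · left
      have : p ∣ r := by exact_mod_cast h2
      exact Nat.eq_zero_of_dvd_of_lt this h1
    · right
      have h3 : (r : ℤ) ≡ m [ZMOD p] := (Int.modEq_iff_dvd).2 h2
      have h4 : r ≡ m [MOD p] := (Int.natCast_modEq_iff).1 h3
      unfold Nat.ModEq at h4
      rw [Nat.mod_eq_of_lt h1] at h4
      exact h4
  · rintro (h | h)
    · subst h
      refine ⟨hp0, Or.inl (by simp)⟩
    · subst h
      refine ⟨Nat.mod_lt _ hp0, Or.inr ?_⟩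
      have h3 : ((m % p : ℕ) : ℤ) ≡ m [ZMOD p] := (Int.natCast_modEq_iff).2 (Nat.mod_modEq m p)
      exact (Int.modEq_iff_dvd).1 h3

lemma nu_QM {m p : ℕ} (hp : p.Prime) : nuB (QM m) p = if p ∣ m then 1 else 2 := by
  classical
  unfold nuB
  have h1 := QM_filter (m := m) hp
  have h2 : ((range p).filter (fun r => QM m p r)).card = ({0, m % p} : Finset ℕ).card := by
    rw [← h1]
  have h3 : ((range p).filter (fun r => QM m p r)).card = if p ∣ m then 1 else 2 := by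
    rw [h2]
    split_ifs with h
    · rw [Nat.mod_eq_zero_of_dvd h]
      simp
    · have : m % p ≠ 0 := fun h0 => h (Nat.dvd_of_mod_eq_zero h0)
      rw [card_pair (Ne.symm this)]
  convert h3

lemma QM_perB (m : ℕ) : PerB (QM m) 2 := by
  refine ⟨fun p n => QM_per m p n, fun p hp => ?_⟩
  rw [nu_QM hp]
  split_ifs <;> norm_num

lemma QM_prod (m z : ℕ) : ∏ p ∈ pz z, (1 - (nuB (QM m) p : ℝ) / p) =
    Vz z * ∏ p ∈ PS z 1 m, (1 - 1 / ((p : ℝ) - 1)) := by
  have h1 : ∀ p ∈ pz z, (1 - (nuB (QM m) p : ℝ) / p) =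
      (1 - 1 / (p : ℝ)) * (if ¬ p ∣ m then (1 - 1 / ((p : ℝ) - 1)) else 1) := by
    intro p hp
    have hpp := (mem_pz.1 hp).2
    have hp2 : (2 : ℝ) ≤ p := by exact_mod_cast hpp.two_le
    rw [nu_QM hpp]
    by_cases h : p ∣ m
    · rw [if_pos h, if_neg (not_not.2 h), Nat.cast_one, mul_one]
    · rw [if_neg h, if_pos h]
      have h3 : (p : ℝ) - 1 ≠ 0 := by linarith
      have h4 : (p : ℝ) ≠ 0 := by linarith
      push_cast
      field_simp
      ring
  rw [prod_congr rfl h1, prod_mul_distrib, ← prod_filter]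
  unfold Vz
  congr 1
  have h2 : (pz z).filter (fun p => ¬ p ∣ m) = PS z 1 m := by
    ext p
    rw [mem_filter, mem_PS, mem_pz]
    constructor
    · rintro ⟨a, b⟩
      exact ⟨a, fun h => a.2.one_lt.ne' (Nat.dvd_one.1 h), b⟩
    · rintro ⟨a, -, b⟩
      exact ⟨a, b⟩
  rw [h2]

open Classical in
lemma lam2_sum (z m y : ℕ) (hy : y < m) :
    ∑ n ∈ Icc 1 y, lamz z n * lamz z (m - n) =
    (Vz z)⁻¹ ^ 2 * (((Icc 1 y).filter (fun n : ℕ => ∀ p ∈ pz z, ¬ QM m p n)).card : ℝ) := by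
  rw [card_eq_sum_ones, Nat.cast_sum, sum_filter, mul_sum]
  refine sum_congr rfl fun n hn => ?_
  rw [mem_Icc] at hn
  have h1 : ∀ p : ℕ, QM m p n ↔ p ∣ n ∨ p ∣ m - n := by
    intro p
    unfold QM
    have e : (m : ℤ) - n = ((m - n : ℕ) : ℤ) := by omega
    rw [e, Int.natCast_dvd_natCast, Int.natCast_dvd_natCast]
  unfold lamz
  by_cases h2 : ∀ p ∈ pz z, ¬ p ∣ n
  · by_cases h3 : ∀ p ∈ pz z, ¬ p ∣ m - n
    · rw [if_pos h2, if_pos h3, if_pos (fun p hp => by rw [h1]; exact not_or.2 ⟨h2 p hp, h3 p hp⟩)]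
      push_cast
      ring
    · have h4 : ¬ ∀ p ∈ pz z, ¬ QM m p n := fun h => h3 fun p hp hd => h p hp ((h1 p).2 (Or.inr hd))
      rw [if_neg h3, if_neg h4, mul_zero]
      simp
  · have h4 : ¬ ∀ p ∈ pz z, ¬ QM m p n := fun h => h2 fun p hp hd => h p hp ((h1 p).2 (Or.inl hd))
    rw [if_neg h2, if_neg h4, zero_mul]
    simp

/-- one window -/
lemma win2_main (V E1 : ℕ) (hE1 : V + 6 ≤ E1) : ∃ X0 : ℕ, ∀ X : ℕ, X0 ≤ X → ∀ m : ℕ, m ≤ X → 2 ∣ m → m ≠ 0 →
    ∀ z : ℕ, Real.log X ^ E1 ≤ z → (z : ℝ) ≤ Real.log X ^ (E1 + 1) → ∀ y : ℕ, y < m →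
      |∑ n ∈ Icc 1 y, lamz z n * lamz z (m - n) - sing m * y| ≤ 2 * (X / Real.log X ^ (V + 2)) := by
  classical
  obtain ⟨N0, h0⟩ := sys_count 2 (E1 + 2) (V + 6) (by norm_num)
  obtain ⟨n2, h2⟩ := ev_L' (2 ^ (E1 + 5) + 2 ^ (V + 6) + 100)
  obtain ⟨n3, h3⟩ := Vz_inv_small (E1 + 1)
  obtain ⟨n4, h4⟩ := ev_log' (V + 8) 1
  refine ⟨N0 ^ 2 + n2 + n3 + n4 + 4, fun X hX m hmX h2m hm0 z hz1 hz2 y hym => ?_⟩
  have hL := h2 X (by omega)
  have hV := h3 X (by omega) z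
  have a4 := h4 X (by omega)
  have hX4 : 4 ≤ X := by omega
  obtain ⟨L, hLd⟩ : ∃ L, L = Real.log (X : ℝ) := ⟨_, rfl⟩
  rw [← hLd] at hL hV a4 hz1 hz2 ⊢
  rw [one_mul] at a4
  have hp1 : (0 : ℝ) < 2 ^ (E1 + 5) := by positivity
  have hp2 : (0 : ℝ) < 2 ^ (V + 6) := by positivity
  have hL100 : 100 ≤ L := by linarith
  have hL1 : 1 ≤ L := by linarith
  have hL0 : 0 < L := by linarith
  have hXr : (4 : ℝ) ≤ X := by exact_mod_cast hX4
  have hX0 : (0 : ℝ) < X := by linarith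
  have hss : √(X : ℝ) * √(X : ℝ) = X := Real.mul_self_sqrt hX0.le
  have hs0 : 0 < √(X : ℝ) := Real.sqrt_pos.2 hX0
  have hs1 : 1 ≤ √(X : ℝ) := (one_le_pow₀ hL1).trans a4
  have hz0 : (1 : ℝ) ≤ z := (one_le_pow₀ hL1).trans hz1
  have hzn : 1 ≤ z := by exact_mod_cast hz0
  have hV' := hV hzn hz2
  have hcnt : Cnt 1 m = 1 := by
    unfold Cnt
    rw [range_one, filter_singleton, if_pos (by simp), card_singleton]
  have hlogh : (Nat.log 2 m : ℝ) ≤ 2 * L := by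
    have h5 : Nat.log 2 m ≤ Nat.log 2 X := Nat.log_mono_right hmX
    have h6 : (Nat.log 2 m : ℝ) ≤ Nat.log 2 X := by exact_mod_cast h5
    have h7 := natlog_le X (by omega)
    rw [← hLd] at h7
    exact h6.trans h7
  have hzL : 8 * L ^ (V + 4) ≤ z := by
    refine le_trans ?_ hz1
    calc 8 * L ^ (V + 4) ≤ L * L ^ (V + 4) := mul_le_mul_of_nonneg_right (by linarith) (by positivity)
      _ = L ^ (V + 5) := by ring
      _ ≤ L ^ E1 := pow_le_pow_right₀ hL1 (by omega)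
  have hz8L : 8 * L ≤ z := by
    refine le_trans ?_ hzL
    have : L ≤ L ^ (V + 4) := le_self_pow₀ hL1 (by omega)
    linarith
  have hz2n : 2 ≤ z := by
    have : (2 : ℝ) ≤ z := by linarith
    exact_mod_cast this
  obtain ⟨m1, m2, m3⟩ := MT_sing z 1 m L hL1 le_rfl hzn h2m hm0 (by rw [hcnt]; exact Nat.one_pos) hV' hlogh hz8L
  rw [hcnt, Nat.cast_one, div_one] at m1 m2 m3
  obtain ⟨S, hS⟩ : ∃ S, S = sing m := ⟨_, rfl⟩
  obtain ⟨M, hM⟩ : ∃ M, M = MT z 1 m := ⟨_, rfl⟩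
  rw [← hS, ← hM] at m1
  rw [← hS] at m2 m3
  rw [← hS]
  have m1' : |M - S| ≤ 1 / L ^ (V + 2) := by
    refine m1.trans ?_
    rw [div_le_div_iff₀ (by linarith) (by positivity)]
    calc 8 * L ^ 2 * L ^ (V + 2) = 8 * L ^ (V + 4) := by ring
      _ ≤ 1 * z := by linarith
  obtain ⟨ε, hε⟩ : ∃ ε : ℝ, ε = X / L ^ (V + 2) := ⟨_, rfl⟩
  have hε0 : 0 < ε := by rw [hε]; positivity
  rw [← hε]
  have hyX : (y : ℝ) ≤ X := by exact_mod_cast (by omega : y ≤ X)
  have hy00 : (0 : ℝ) ≤ y := Nat.cast_nonneg _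
  have hVp := Vz_pos z
  have hVi : 0 < (Vz z)⁻¹ := inv_pos.2 hVp
  rw [lam2_sum z m y hym]
  obtain ⟨c, hc⟩ : ∃ c : ℝ, c = (((Icc 1 y).filter (fun n : ℕ => ∀ p ∈ pz z, ¬ QM m p n)).card : ℝ) := ⟨_, rfl⟩
  rw [← hc]
  have hc0 : 0 ≤ c := by rw [hc]; exact Nat.cast_nonneg _
  rcases le_or_gt (√(X : ℝ)) y with hysq | hysq
  · have hy0 : (0 : ℝ) < y := lt_of_lt_of_le hs0 hysq
    have hlogy : L / 2 ≤ Real.log y := by
      have h6 : Real.log (√(X : ℝ)) = L / 2 := by rw [Real.log_sqrt hX0.le, ← hLd]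
      rw [← h6]
      exact Real.log_le_log hs0 hysq
    have hyN : N0 ≤ y := by
      have h6 : ((N0 : ℝ)) ≤ √(X : ℝ) := by
        apply Real.le_sqrt_of_sq_le
        exact_mod_cast (by omega : N0 ^ 2 ≤ X)
      exact_mod_cast h6.trans hysq
    have hLy : L ^ (E1 + 1) ≤ Real.log y ^ (E1 + 2) := by
      have h6 : (L / 2) ^ (E1 + 2) ≤ Real.log y ^ (E1 + 2) := pow_le_pow_left₀ (by linarith) hlogy _
      refine le_trans ?_ h6
      rw [div_pow, le_div_iff₀ (by positivity), show E1 + 2 = (E1 + 1) + 1 by ring, pow_succ L (E1 + 1)]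
      apply mul_le_mul_of_nonneg_left _ (by positivity)
      have : (2 : ℝ) ^ (E1 + 1 + 1) ≤ 2 ^ (E1 + 5) := pow_le_pow_right₀ (by norm_num) (by omega)
      linarith
    have g2 := h0 y hyN z hzn (hz2.trans hLy) (QM m) (QM_perB m)
    have hcc : (((Icc 1 y).filter (fun n : ℕ => ∀ p ∈ pz z, ¬ QM m p n)).card : ℝ) = c := hc.symm
    rw [QM_prod] at g2
    have g2' : |c - y * (Vz z * ∏ p ∈ PS z 1 m, (1 - 1 / ((p : ℝ) - 1)))| ≤ y / Real.log y ^ (V + 6) := by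
      rw [← hcc]
      convert g2
    have hly0 : 0 < Real.log y := by linarith
    have g3 : (y : ℝ) / Real.log y ^ (V + 6) * L ^ 2 ≤ ε := by
      rw [hε, div_mul_eq_mul_div, div_le_div_iff₀ (by positivity) (by positivity)]
      calc (y : ℝ) * L ^ 2 * L ^ (V + 2) ≤ X * L ^ 2 * L ^ (V + 2) := by gcongr
        _ = X * L ^ (V + 4) := by ring
        _ ≤ X * (L / 2) ^ (V + 6) := by
            apply mul_le_mul_of_nonneg_left _ hX0.le
            rw [div_pow, le_div_iff₀ (by positivity), show V + 6 = (V + 4) + 2 by ring, pow_add L (V + 4) 2]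
            apply mul_le_mul_of_nonneg_left _ (by positivity)
            rw [show V + 4 + 2 = V + 6 by ring]
            nlinarith
        _ ≤ X * Real.log y ^ (V + 6) := by
            apply mul_le_mul_of_nonneg_left _ hX0.le
            exact pow_le_pow_left₀ (by linarith) hlogy _
    have g4 : |M - S| * y ≤ ε := by
      calc |M - S| * y ≤ 1 / L ^ (V + 2) * X := mul_le_mul m1' hyX hy0.le (by positivity)
        _ = ε := by rw [hε]; ring
    have hMe : M = (Vz z)⁻¹ * ∏ p ∈ PS z 1 m, (1 - 1 / ((p : ℝ) - 1)) := by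
      rw [hM]
      unfold MT
      rw [Nat.totient_one, Nat.cast_one, div_one]
    have e2 : (Vz z)⁻¹ ^ 2 * c - S * y =
        (Vz z)⁻¹ ^ 2 * (c - y * (Vz z * ∏ p ∈ PS z 1 m, (1 - 1 / ((p : ℝ) - 1)))) + (M - S) * y := by
      rw [hMe]
      field_simp
      ring
    rw [e2]
    refine (abs_add_le _ _).trans ?_
    have f2 : |(M - S) * y| ≤ ε := by rw [abs_mul, abs_of_nonneg hy0.le]; exact g4
    have f1 : |(Vz z)⁻¹ ^ 2 * (c - y * (Vz z * ∏ p ∈ PS z 1 m, (1 - 1 / ((p : ℝ) - 1))))| ≤ ε := by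
      rw [abs_mul, abs_of_nonneg (sq_nonneg _)]
      calc (Vz z)⁻¹ ^ 2 * |c - y * (Vz z * ∏ p ∈ PS z 1 m, (1 - 1 / ((p : ℝ) - 1)))|
          ≤ L ^ 2 * (y / Real.log y ^ (V + 6)) := by gcongr
        _ ≤ ε := by linarith
    linarith
  · -- a short window
    have hcy : c ≤ y := by
      rw [hc]
      have : ((Icc 1 y).filter (fun n : ℕ => ∀ p ∈ pz z, ¬ QM m p n)).card ≤ y := by
        refine (card_filter_le _ _).trans ?_
        rw [Nat.card_Icc, Nat.add_sub_cancel]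
      exact_mod_cast this
    have g1 : |(Vz z)⁻¹ ^ 2 * c| ≤ y * (L * L) := by
      rw [abs_of_nonneg (by positivity)]
      calc (Vz z)⁻¹ ^ 2 * c ≤ L ^ 2 * y := by gcongr
        _ = _ := by ring
    have g2 : |S * y| ≤ y * (L * L) := by
      rw [abs_of_nonneg (mul_nonneg m2 hy00)]
      have : 2 * L ≤ L * L := by nlinarith
      nlinarith
    have g3 : (y : ℝ) * (L * L) ≤ ε := by
      rw [hε, le_div_iff₀ (by positivity)]
      calc (y : ℝ) * (L * L) * L ^ (V + 2) = y * L ^ (V + 4) := by ring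
        _ ≤ √X * L ^ (V + 8) := by
            apply mul_le_mul hysq.le (pow_le_pow_right₀ hL1 (by omega)) (by positivity) hs0.le
        _ ≤ √X * √X := mul_le_mul_of_nonneg_left a4 hs0.le
        _ = X := hss
    have g4 := abs_sub ((Vz z)⁻¹ ^ 2 * c) (S * y)
    linarith

end Pool.Agent.R460.GS
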