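import Pool.Agent.R460.GS.ErrAll
import Pool.Agent.R460.GS.Win2
import Pool.Agent.W93.PG5

set_option autoImplicit false

/-! The lower bound in a window, in terms of the error terms. -/

namespace Pool.Agent.R460.GS

open Finset
open Pool.Agent.H807R2.Dav (ee)
open Pool.Agent.H373R2.T7 (lamz Vz pz lamI lamzI Vz_pos)
open Pool.Agent.Y883.T3 (lsh)
open Pool.Agent.Y883.GJ
open Pool.Agent.W93.PG (wn cnt lam_sub lamz_le lamz_nn)
open Pool.Agent.H560R3.GB (sing)

/-- the von Mangoldt function -/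
noncomputable def la (n : ℕ) : ℝ := ArithmeticFunction.vonMangoldt n

/-- the weighted model -/
noncomputable def hR (N z r n : ℕ) : ℝ := Wt N n * lsh z r n

/-- the difference -/
noncomputable def fR (N z r n : ℕ) : ℝ := gr N n - hR N z r n

lemma la_nn (n : ℕ) : 0 ≤ la n := ArithmeticFunction.vonMangoldt_nonneg

open Classical in
/-- powers of the small primes -/
noncomputable def bd (N b : ℕ) : ℝ := if la b ≠ 0 ∧ gr N b = 0 then 1 else 0

lemma bd_cases (N b : ℕ) : bd N b = 0 ∨ (bd N b = 1 ∧ gr N b = 0) := by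
  unfold bd
  by_cases h : la b ≠ 0 ∧ gr N b = 0
  · right
    rw [if_pos h]
    exact ⟨rfl, h.2⟩
  · left
    rw [if_neg h]

lemma bd_nn (N b : ℕ) : 0 ≤ bd N b := by
  rcases bd_cases N b with h | h
  · rw [h]
  · rw [h.1]; norm_num

lemma la_le_gr {N b : ℕ} (hb : b ∈ Icc 1 N) (h : bd N b = 0) : la b ≤ gr N b := by
  unfold bd at h
  by_cases h1 : la b = 0
  · rw [h1]; exact gr_nonneg N b
  · by_cases h2 : gr N b = 0
    · rw [if_pos ⟨h1, h2⟩] at h
      norm_num at h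
    · have : gr N b = Real.log N := by
        unfold gr at h2 ⊢
        by_cases h3 : ∀ p ∈ b.primeFactors, ZZ N < p
        · rw [if_pos h3]
        · rw [if_neg h3] at h2
          exact absurd rfl h2
      rw [this]
      exact vm_le hb

lemma pt_lower {N b c : ℕ} (hb : b ∈ Icc 1 N) (hc : c ∈ Icc 1 N) :
    la b * gr N c + gr N b * la c - gr N b * gr N c - Real.log N ^ 2 * (bd N b + bd N c) ≤ la b * la c := by
  have h1 := la_nn b
  have h2 := la_nn c
  have h3 := gr_nonneg N b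
  have h4 := gr_nonneg N c
  have h5 := gr_le N b
  have h6 := gr_le N c
  have h7 : la b ≤ Real.log N := vm_le hb
  have h8 : la c ≤ Real.log N := vm_le hc
  have h9 : 0 ≤ Real.log N := h1.trans h7
  have h10 : la b * gr N c ≤ Real.log N ^ 2 := by
    rw [sq]
    exact mul_le_mul h7 h6 h4 h9
  have h11 : gr N b * la c ≤ Real.log N ^ 2 := by
    rw [sq]
    exact mul_le_mul h5 h8 h2 h9
  have h12 : 0 ≤ la b * la c := mul_nonneg h1 h2
  have h13 : 0 ≤ Real.log N ^ 2 * bd N c := mul_nonneg (sq_nonneg _) (bd_nn _ _)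
  have h14 : 0 ≤ Real.log N ^ 2 * bd N b := mul_nonneg (sq_nonneg _) (bd_nn _ _)
  rcases bd_cases N b with k1 | ⟨k1, k1'⟩
  · rcases bd_cases N c with k2 | ⟨k2, k2'⟩
    · have e1 := la_le_gr hb k1
      have e2 := la_le_gr hc k2
      rw [k1, k2]
      nlinarith [mul_nonneg (sub_nonneg.2 e1) (sub_nonneg.2 e2)]
    · rw [k2, k2', mul_zero, mul_zero]
      nlinarith
  · rw [k1, k1', zero_mul, zero_mul]
    nlinarith

lemma bd_sum {N : ℕ} (hL : 0 < Real.log N) :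
    ∑ b ∈ Icc 1 N, bd N b ≤ (ZZ N : ℝ) * ((Nat.log 2 N + 1 : ℕ) : ℝ) := by
  classical
  have e1 : ∑ b ∈ Icc 1 N, bd N b = (((Icc 1 N).filter (fun b => la b ≠ 0 ∧ gr N b = 0)).card : ℝ) := by
    rw [card_eq_sum_ones, Nat.cast_sum, sum_filter]
    refine sum_congr rfl fun b _ => ?_
    unfold bd
    by_cases h : la b ≠ 0 ∧ gr N b = 0
    · rw [if_pos h, if_pos h, Nat.cast_one]
    · rw [if_neg h, if_neg h]
  rw [e1]
  have h1 : (Icc 1 N).filter (fun b => la b ≠ 0 ∧ gr N b = 0) ⊆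
      (Icc 1 (ZZ N) ×ˢ range (Nat.log 2 N + 1)).image (fun x => x.1 ^ x.2) := by
    intro b hb
    rw [mem_filter, mem_Icc] at hb
    obtain ⟨hb1, hb2, hb3⟩ := hb
    obtain ⟨p, k, hp, hk, rfl⟩ := (isPrimePow_nat_iff _).1 (ArithmeticFunction.vonMangoldt_ne_zero_iff.1 hb2)
    have h2 : ¬ ∀ p' ∈ (p ^ k).primeFactors, ZZ N < p' := by
      intro h3
      unfold gr at hb3
      rw [if_pos h3] at hb3
      linarith
    rw [Nat.primeFactors_prime_pow hk.ne' hp] at h2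
    have h3 : p ≤ ZZ N := by
      by_contra h4
      apply h2
      intro p' hp'
      rw [mem_singleton] at hp'
      omega
    rw [mem_image]
    refine ⟨(p, k), ?_, rfl⟩
    rw [mem_product, mem_Icc, mem_range, Nat.lt_succ_iff]
    refine ⟨⟨hp.one_le, h3⟩, ?_⟩
    apply Nat.le_log_of_pow_le (by norm_num)
    exact (Nat.pow_le_pow_left hp.two_le k).trans hb1.2
  have h2 := (card_le_card h1).trans card_image_le
  rw [card_product, Nat.card_Icc, Nat.add_sub_cancel, card_range] at h2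
  exact_mod_cast h2

lemma bd_window {N n y₁ y₂ : ℕ} (h2 : y₂ < n) (hn : n ≤ N) :
    ∑ b ∈ Ioc y₁ y₂, (bd N b + bd N (n - b)) ≤ 2 * ∑ b ∈ Icc 1 N, bd N b := by
  rw [sum_add_distrib]
  have k1 : ∑ b ∈ Ioc y₁ y₂, bd N b ≤ ∑ b ∈ Icc 1 N, bd N b := by
    refine sum_le_sum_of_subset_of_nonneg (fun b hb => ?_) fun _ _ _ => bd_nn _ _
    rw [mem_Ioc] at hb
    rw [mem_Icc]
    omega
  have k2 : ∑ b ∈ Ioc y₁ y₂, bd N (n - b) ≤ ∑ b ∈ Icc 1 N, bd N b := by
    calc ∑ b ∈ Ioc y₁ y₂, bd N (n - b) ≤ ∑ b ∈ Icc 1 y₂, bd N (n - b) := by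
          refine sum_le_sum_of_subset_of_nonneg (fun b hb => ?_) fun _ _ _ => bd_nn _ _
          rw [mem_Ioc] at hb
          rw [mem_Icc]
          omega
      _ = ∑ b ∈ Ioc (n - y₂ - 1) (n - 1), bd N b := reflect_sum (bd N) h2
      _ ≤ ∑ b ∈ Icc 1 N, bd N b := by
          refine sum_le_sum_of_subset_of_nonneg (fun b hb => ?_) fun _ _ _ => bd_nn _ _
          rw [mem_Ioc] at hb
          rw [mem_Icc]
          omega
  linarith

/-- the vector sieve -/
lemma wn_lower {N n y₁ y₂ : ℕ} (h2 : y₂ < n) (hn : n ≤ N) (hL : 0 < Real.log N) :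
    ∑ b ∈ Ioc y₁ y₂, (la b * gr N (n - b) + gr N b * la (n - b) - gr N b * gr N (n - b)) -
      2 * Real.log N ^ 2 * ((ZZ N : ℝ) * ((Nat.log 2 N + 1 : ℕ) : ℝ)) ≤ wn n y₁ y₂ := by
  have h1 : ∑ b ∈ Ioc y₁ y₂, (la b * gr N (n - b) + gr N b * la (n - b) - gr N b * gr N (n - b) -
      Real.log N ^ 2 * (bd N b + bd N (n - b))) ≤ wn n y₁ y₂ := by
    unfold wn
    refine sum_le_sum fun b hb => ?_
    rw [mem_Ioc] at hb
    rw [lam_sub n b (by omega)]
    exact pt_lower (mem_Icc.2 ⟨by omega, by omega⟩) (mem_Icc.2 ⟨by omega, by omega⟩)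
  rw [sum_sub_distrib, ← mul_sum] at h1
  have h3 := bd_window (y₁ := y₁) h2 hn
  have h4 := bd_sum hL
  have h5 : Real.log N ^ 2 * ∑ b ∈ Ioc y₁ y₂, (bd N b + bd N (n - b)) ≤
      Real.log N ^ 2 * (2 * ((ZZ N : ℝ) * ((Nat.log 2 N + 1 : ℕ) : ℝ))) :=
    mul_le_mul_of_nonneg_left (by linarith) (sq_nonneg _)
  linarith

lemma cv_left {F G : ℕ → ℂ} {N n y : ℕ} (hy : y < n) (hn : n ≤ N) :
    cv F G y N n = ∑ b ∈ Icc 1 y, F b * G (n - b) := by
  unfold cv
  refine sum_congr rfl fun b hb => ?_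
  rw [mem_Icc] at hb
  rw [sum_eq_single (n - b)]
  · rw [if_pos (by omega)]
  · intro c _ hc
    rw [if_neg (by omega)]
  · intro h
    exact absurd (mem_Icc.2 ⟨by omega, by omega⟩) h

lemma cv_right {F G : ℕ → ℂ} {N n y : ℕ} (hy : y < n) (hn : n ≤ N) :
    cv F G N y n = ∑ b ∈ Icc 1 y, F (n - b) * G b := by
  unfold cv
  rw [sum_comm]
  refine sum_congr rfl fun b hb => ?_
  rw [mem_Icc] at hb
  rw [sum_eq_single (n - b)]
  · rw [if_pos (by omega)]
  · intro c _ hc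
    rw [if_neg (by omega)]
  · intro h
    exact absurd (mem_Icc.2 ⟨by omega, by omega⟩) h

lemma f0_eq (N z r n : ℕ) : f0 N z r n = ((fR N z r n : ℝ) : ℂ) := by
  unfold f0 fR hR GG HH
  push_cast
  ring

lemma real_sum (s : Finset ℕ) (u v : ℕ → ℝ) (f g : ℕ → ℂ) (hf : ∀ b, f b = ((u b : ℝ) : ℂ))
    (hg : ∀ b, g b = ((v b : ℝ) : ℂ)) : |∑ b ∈ s, u b * v b| = ‖∑ b ∈ s, f b * g b‖ := by
  have e : ∑ b ∈ s, f b * g b = ((∑ b ∈ s, u b * v b : ℝ) : ℂ) := by
    push_cast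
    refine sum_congr rfl fun b _ => ?_
    rw [hf, hg]
  rw [e, Complex.norm_real, Real.norm_eq_abs]

/-- the error terms up to `y` -/
lemma err_window {N n y z r : ℕ} (hy : y < n) (hn : n ≤ N) :
    |∑ b ∈ Icc 1 y, (la b * fR N z r (n - b) + fR N z r b * la (n - b) - fR N z r b * gr N (n - b) -
      hR N z r b * fR N z r (n - b))| ≤
    ‖cv LA (f0 N z r) y N n‖ + ‖cv LA (f0 N z r) N y n‖ + ‖cv (GG N) (f0 N z r) N y n‖ +
      ‖cv (HH N z r) (f0 N z r) y N n‖ := by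
  rw [cv_left hy hn, cv_right hy hn, cv_right hy hn, cv_left hy hn]
  rw [← real_sum (Icc 1 y) la (fun b => fR N z r (n - b)) LA (fun b => f0 N z r (n - b)) (fun _ => rfl)
    (fun b => f0_eq _ _ _ _)]
  rw [← real_sum (Icc 1 y) (fun b => la (n - b)) (fR N z r) (fun b => LA (n - b)) (f0 N z r) (fun _ => rfl)
    (fun b => f0_eq _ _ _ _)]
  rw [← real_sum (Icc 1 y) (fun b => gr N (n - b)) (fR N z r) (fun b => GG N (n - b)) (f0 N z r) (fun _ => rfl)
    (fun b => f0_eq _ _ _ _)]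
  rw [← real_sum (Icc 1 y) (hR N z r) (fun b => fR N z r (n - b)) (HH N z r) (fun b => f0 N z r (n - b))
    (fun _ => rfl) (fun b => f0_eq _ _ _ _)]
  have e : ∑ b ∈ Icc 1 y, (la b * fR N z r (n - b) + fR N z r b * la (n - b) - fR N z r b * gr N (n - b) -
      hR N z r b * fR N z r (n - b)) =
      ∑ b ∈ Icc 1 y, la b * fR N z r (n - b) + ∑ b ∈ Icc 1 y, la (n - b) * fR N z r b -
      ∑ b ∈ Icc 1 y, gr N (n - b) * fR N z r b - ∑ b ∈ Icc 1 y, hR N z r b * fR N z r (n - b) := by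
    rw [← sum_add_distrib, ← sum_sub_distrib, ← sum_sub_distrib]
    refine sum_congr rfl fun b _ => ?_
    ring
  rw [e]
  refine (abs_sub _ _).trans (add_le_add ?_ le_rfl)
  refine (abs_sub _ _).trans (add_le_add ?_ le_rfl)
  exact abs_add_le _ _

/-- the mean square of the difference of the models -/
lemma x_sq {N z r U V : ℕ} (hP : Par U N z r) (hL : 8 ≤ Real.log N)
    (h1 : ∑ n ∈ Icc 1 N, |lamz z n - lsh z r n| ≤ N / Real.log N ^ (2 * V + 20)) :
    ∑ n ∈ Icc 1 N, (lsh z r n - lamz z n) ^ 2 ≤ N / Real.log N ^ V := by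
  obtain ⟨x, hx⟩ : ∃ x : ℕ → ℝ, x = fun n => |lamz z n - lsh z r n| := ⟨_, rfl⟩
  have hx0 : ∀ n, 0 ≤ x n := fun n => by rw [hx]; exact abs_nonneg _
  have hxb : ∀ n ∈ Icc 1 N, x n ≤ 4 * Real.log N * (n.divisors.card : ℝ) := by
    intro n hn
    have k1 := lsh_abs hP hn
    have k2 := one_le_div hn
    have k3 := lamz_le z n
    have k4 := lamz_nn z n
    have k5 := hP.hV
    rw [hx]
    have k6 := abs_sub (lamz z n) (lsh z r n)
    rw [abs_of_nonneg k4] at k6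
    have k7 : Real.log N * 1 ≤ Real.log N * (n.divisors.card : ℝ) :=
      mul_le_mul_of_nonneg_left k2 (by linarith)
    simp only
    linarith
  have h2 : ∑ n ∈ Icc 1 N, x n ^ 3 ≤ 64 * Real.log N ^ 3 * (N * (1 + Real.log N) ^ 8) := by
    have t3 := Pool.Agent.TH935.LD.tau_pow_sum 3 N
    norm_num only at t3
    calc ∑ n ∈ Icc 1 N, x n ^ 3 ≤ ∑ n ∈ Icc 1 N, 64 * Real.log N ^ 3 * (n.divisors.card : ℝ) ^ 3 := by
          refine sum_le_sum fun n hn => ?_
          calc x n ^ 3 ≤ (4 * Real.log N * (n.divisors.card : ℝ)) ^ 3 := pow_le_pow_left₀ (hx0 n) (hxb n hn) 3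
            _ = _ := by ring
      _ = 64 * Real.log N ^ 3 * ∑ n ∈ Icc 1 N, (n.divisors.card : ℝ) ^ 3 := by rw [mul_sum]
      _ ≤ _ := by
          have : 0 ≤ 64 * Real.log N ^ 3 := by positivity
          exact mul_le_mul_of_nonneg_left t3 this
  have e1 : ∑ n ∈ Icc 1 N, (lsh z r n - lamz z n) ^ 2 = ∑ n ∈ Icc 1 N, x n ^ 2 := by
    refine sum_congr rfl fun n _ => ?_
    rw [hx]
    simp only
    rw [sq_abs]
    ring
  rw [e1]
  have h3 : (∑ n ∈ Icc 1 N, x n ^ 2) ^ 2 ≤ (∑ n ∈ Icc 1 N, x n) * ∑ n ∈ Icc 1 N, x n ^ 3 := by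
    refine sum_sq_le_sum_mul_sum_of_sq_eq_mul (Icc 1 N) (fun n _ => hx0 n) (fun n _ => pow_nonneg (hx0 n) 3)
      (fun n _ => ?_)
    ring
  have h1' : ∑ n ∈ Icc 1 N, x n ≤ N / Real.log N ^ (2 * V + 20) := by rw [hx]; exact h1
  obtain ⟨L, hLd⟩ : ∃ L, L = Real.log (N : ℝ) := ⟨_, rfl⟩
  rw [← hLd] at hL h1' h2 ⊢
  have hL0 : 0 < L := by linarith
  have hL1 : 1 ≤ L := by linarith
  have h4 : (∑ n ∈ Icc 1 N, x n ^ 2) ^ 2 ≤ (N / L ^ V) ^ 2 := by
    calc (∑ n ∈ Icc 1 N, x n ^ 2) ^ 2 ≤ (∑ n ∈ Icc 1 N, x n) * ∑ n ∈ Icc 1 N, x n ^ 3 := h3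
      _ ≤ (N / L ^ (2 * V + 20)) * (64 * L ^ 3 * (N * (1 + L) ^ 8)) :=
          mul_le_mul h1' h2 (sum_nonneg fun n _ => pow_nonneg (hx0 n) 3) (by positivity)
      _ ≤ (N / L ^ (2 * V + 20)) * (64 * L ^ 3 * (N * (2 * L) ^ 8)) := by
          have : 1 + L ≤ 2 * L := by linarith
          gcongr
      _ = (N / L ^ V) ^ 2 * (16384 / L ^ 9) := by
          have e : L ^ (2 * V + 20) = (L ^ V) ^ 2 * L ^ 20 := by
            rw [← pow_mul, ← pow_add]
            congr 1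
            ring
          have e0 : L ^ V ≠ 0 := by positivity
          rw [e]
          generalize L ^ V = X at e0 ⊢
          field_simp
          ring
      _ ≤ (N / L ^ V) ^ 2 * 1 := by
          have : 16384 / L ^ 9 ≤ 1 := by
            rw [div_le_one (by positivity)]
            calc (16384 : ℝ) ≤ 8 ^ 9 := by norm_num
              _ ≤ L ^ 9 := pow_le_pow_left₀ (by norm_num) hL 9
          gcongr
      _ = _ := mul_one _
  exact (pow_le_pow_iff_left₀ (sum_nonneg fun n _ => sq_nonneg _) (by positivity) two_ne_zero).1 h4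

/-- from the truncated model to the exact model -/
lemma swap_model {N n y₁ y₂ z r U : ℕ} {c X₁ X₂ : ℝ} (hW : WB (Wt N) c N) (hP : Par U N z r) (h2 : y₂ < n)
    (hn : n ≤ N) (h1 : ∑ n ∈ Icc 1 N, |lamz z n - lsh z r n| ≤ X₁)
    (hX₂ : ∑ n ∈ Icc 1 N, (lsh z r n - lamz z n) ^ 2 ≤ X₂) :
    |∑ b ∈ Ioc y₁ y₂, (la b * hR N z r (n - b) + hR N z r b * la (n - b) - hR N z r b * hR N z r (n - b)) -
      ∑ b ∈ Ioc y₁ y₂, (la b * (Wt N (n - b) * lamz z (n - b)) + (Wt N b * lamz z b) * la (n - b) -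
        (Wt N b * lamz z b) * (Wt N (n - b) * lamz z (n - b)))| ≤
    2 * ((c + c ^ 2) * Real.log N * X₁) + 2 * (c ^ 2 * X₂) := by
  have hc := hW.nn
  obtain ⟨x, hx⟩ : ∃ x : ℕ → ℝ, x = fun n => lsh z r n - lamz z n := ⟨_, rfl⟩
  have hL0 : 0 ≤ Real.log N := Real.log_natCast_nonneg N
  have hpt : ∀ b ∈ Ioc y₁ y₂, |(la b * hR N z r (n - b) + hR N z r b * la (n - b) - hR N z r b * hR N z r (n - b)) -
      (la b * (Wt N (n - b) * lamz z (n - b)) + (Wt N b * lamz z b) * la (n - b) -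
        (Wt N b * lamz z b) * (Wt N (n - b) * lamz z (n - b)))| ≤
      ((c + c ^ 2) * Real.log N * |x b| + c ^ 2 * x b ^ 2) +
      ((c + c ^ 2) * Real.log N * |x (n - b)| + c ^ 2 * x (n - b) ^ 2) := by
    intro b hb
    rw [mem_Ioc] at hb
    have hbN : b ∈ Icc 1 N := mem_Icc.2 ⟨by omega, by omega⟩
    have hcN : n - b ∈ Icc 1 N := mem_Icc.2 ⟨by omega, by omega⟩
    have a1 := hW.h0 b
    have a2 := hW.h0 (n - b)
    have a3 := hW.h1 b (mem_Icc.1 hbN).2
    have a4 := hW.h1 (n - b) (mem_Icc.1 hcN).2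
    have a5 := la_nn b
    have a6 := la_nn (n - b)
    have a7 : la b ≤ Real.log N := vm_le hbN
    have a8 : la (n - b) ≤ Real.log N := vm_le hcN
    have a9 := lamz_nn z b
    have a10 := lamz_nn z (n - b)
    have a11 : lamz z b ≤ Real.log N := (lamz_le z b).trans hP.hV
    have a12 : lamz z (n - b) ≤ Real.log N := (lamz_le z (n - b)).trans hP.hV
    have e1 : (la b * hR N z r (n - b) + hR N z r b * la (n - b) - hR N z r b * hR N z r (n - b)) -
      (la b * (Wt N (n - b) * lamz z (n - b)) + (Wt N b * lamz z b) * la (n - b) -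
        (Wt N b * lamz z b) * (Wt N (n - b) * lamz z (n - b))) =
      la b * Wt N (n - b) * x (n - b) + la (n - b) * Wt N b * x b -
      Wt N b * Wt N (n - b) * (x b * lamz z (n - b) + lamz z b * x (n - b) + x b * x (n - b)) := by
      rw [hx]
      unfold hR
      ring
    rw [e1]
    have b1 : |la b * Wt N (n - b) * x (n - b)| ≤ c * Real.log N * |x (n - b)| := by
      rw [abs_mul, abs_of_nonneg (mul_nonneg a5 a2)]
      apply mul_le_mul_of_nonneg_right _ (abs_nonneg _)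
      rw [mul_comm c]
      exact mul_le_mul a7 a4 a2 hL0
    have b2 : |la (n - b) * Wt N b * x b| ≤ c * Real.log N * |x b| := by
      rw [abs_mul, abs_of_nonneg (mul_nonneg a6 a1)]
      apply mul_le_mul_of_nonneg_right _ (abs_nonneg _)
      rw [mul_comm c]
      exact mul_le_mul a8 a3 a1 hL0
    have b4 : |x b * lamz z (n - b) + lamz z b * x (n - b) + x b * x (n - b)| ≤
        Real.log N * |x b| + Real.log N * |x (n - b)| + (x b ^ 2 + x (n - b) ^ 2) := by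
      refine (abs_add_le _ _).trans (add_le_add ((abs_add_le _ _).trans (add_le_add ?_ ?_)) ?_)
      · rw [abs_mul, abs_of_nonneg a10, mul_comm]
        exact mul_le_mul_of_nonneg_right a12 (abs_nonneg _)
      · rw [abs_mul, abs_of_nonneg a9]
        exact mul_le_mul_of_nonneg_right a11 (abs_nonneg _)
      · rw [abs_mul]
        have := sq_abs (x b)
        have := sq_abs (x (n - b))
        nlinarith [sq_nonneg (|x b| - |x (n - b)|), abs_nonneg (x b), abs_nonneg (x (n - b))]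
    have b3 : |Wt N b * Wt N (n - b) * (x b * lamz z (n - b) + lamz z b * x (n - b) + x b * x (n - b))| ≤
        c ^ 2 * (Real.log N * |x b| + Real.log N * |x (n - b)| + (x b ^ 2 + x (n - b) ^ 2)) := by
      rw [abs_mul, abs_of_nonneg (mul_nonneg a1 a2)]
      refine mul_le_mul ?_ b4 (abs_nonneg _) (sq_nonneg c)
      rw [sq]
      exact mul_le_mul a3 a4 a2 hc
    have k1 := abs_sub (la b * Wt N (n - b) * x (n - b) + la (n - b) * Wt N b * x b)
      (Wt N b * Wt N (n - b) * (x b * lamz z (n - b) + lamz z b * x (n - b) + x b * x (n - b)))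
    have k2 := abs_add_le (la b * Wt N (n - b) * x (n - b)) (la (n - b) * Wt N b * x b)
    calc _ ≤ c * Real.log N * |x (n - b)| + c * Real.log N * |x b| +
          c ^ 2 * (Real.log N * |x b| + Real.log N * |x (n - b)| + (x b ^ 2 + x (n - b) ^ 2)) := by linarith
      _ = _ := by ring
  rw [← sum_sub_distrib]
  refine (abs_sum_le_sum_abs _ _).trans ((sum_le_sum hpt).trans ?_)
  obtain ⟨F, hF⟩ : ∃ F : ℕ → ℝ, F = fun b => (c + c ^ 2) * Real.log N * |x b| + c ^ 2 * x b ^ 2 := ⟨_, rfl⟩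
  have hF0 : ∀ b, 0 ≤ F b := fun b => by rw [hF]; positivity
  have hFs : ∑ b ∈ Icc 1 N, F b ≤ (c + c ^ 2) * Real.log N * X₁ + c ^ 2 * X₂ := by
    rw [hF, sum_add_distrib, ← mul_sum, ← mul_sum]
    have h3 : ∑ b ∈ Icc 1 N, |x b| ≤ X₁ := by
      refine le_trans (le_of_eq (sum_congr rfl fun b _ => ?_)) h1
      rw [hx, abs_sub_comm]
    have h4 : ∑ b ∈ Icc 1 N, x b ^ 2 ≤ X₂ := by rw [hx]; exact hX₂
    have h5 : 0 ≤ (c + c ^ 2) * Real.log N := by positivity
    exact add_le_add (mul_le_mul_of_nonneg_left h3 h5) (mul_le_mul_of_nonneg_left h4 (sq_nonneg c))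
  have e3 : ∑ b ∈ Ioc y₁ y₂, (((c + c ^ 2) * Real.log N * |x b| + c ^ 2 * x b ^ 2) +
      ((c + c ^ 2) * Real.log N * |x (n - b)| + c ^ 2 * x (n - b) ^ 2)) =
      ∑ b ∈ Ioc y₁ y₂, F b + ∑ b ∈ Ioc y₁ y₂, F (n - b) := by
    rw [← sum_add_distrib, hF]
  rw [e3]
  have k1 : ∑ b ∈ Ioc y₁ y₂, F b ≤ ∑ b ∈ Icc 1 N, F b := by
    refine sum_le_sum_of_subset_of_nonneg (fun b hb => ?_) fun _ _ _ => hF0 _
    rw [mem_Ioc] at hb
    rw [mem_Icc]
    omega
  have k2 : ∑ b ∈ Ioc y₁ y₂, F (n - b) ≤ ∑ b ∈ Icc 1 N, F b := by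
    calc ∑ b ∈ Ioc y₁ y₂, F (n - b) ≤ ∑ b ∈ Icc 1 y₂, F (n - b) := by
          refine sum_le_sum_of_subset_of_nonneg (fun b hb => ?_) fun _ _ _ => hF0 _
          rw [mem_Ioc] at hb
          rw [mem_Icc]
          omega
      _ = ∑ b ∈ Ioc (n - y₂ - 1) (n - 1), F b := reflect_sum F h2
      _ ≤ ∑ b ∈ Icc 1 N, F b := by
          refine sum_le_sum_of_subset_of_nonneg (fun b hb => ?_) fun _ _ _ => hF0 _
          rw [mem_Ioc] at hb
          rw [mem_Icc]
          omega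
  linarith

end Pool.Agent.R460.GS
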