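import Pool.Agent.R460.GS.Base

set_option autoImplicit false

/-! The main term: deterministic part. -/

namespace Pool.Agent.R460.GS

open Finset

lemma sum_window {M : Type*} [AddCommGroup M] (f : ℕ → M) {y₁ y₂ : ℕ} (h : y₁ ≤ y₂) :
    ∑ i ∈ Ioc y₁ y₂, f i = ∑ i ∈ Icc 1 y₂, f i - ∑ i ∈ Icc 1 y₁, f i := by
  have e : ∀ y : ℕ, Icc 1 y = Ioc 0 y := by
    intro y
    ext b
    simp only [mem_Icc, mem_Ioc]
    omega
  rw [e, e, ← sum_Ioc_consecutive f (Nat.zero_le y₁) h]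
  abel

/-- real version of the partial summation -/
lemma abelR (x w : ℕ → ℝ) (ε D E : ℝ) (n : ℕ) (hC : ∀ m ≤ n, |∑ i ∈ Icc 1 m, x i| ≤ ε)
    (hw : ∀ i ∈ Icc 1 n, |w i| ≤ D) (hd : ∑ i ∈ range n, |w (i + 1) - w i| ≤ E) (hD : 0 ≤ D) :
    |∑ i ∈ Icc 1 n, w i * x i| ≤ ε * (D + E) := by
  have h := abelIBV (V := ℂ) (fun i => (x i : ℂ)) (fun i => (w i : ℂ)) ε D E n
    (fun m hm => by
      have e : ∑ i ∈ Icc 1 m, (x i : ℂ) = ((∑ i ∈ Icc 1 m, x i : ℝ) : ℂ) := by push_cast; rfl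
      rw [e, Complex.norm_real, Real.norm_eq_abs]
      exact hC m hm)
    (fun i hi => by
      rw [Complex.norm_real, Real.norm_eq_abs]
      exact hw i hi)
    (by
      refine le_trans (le_of_eq (sum_congr rfl fun i _ => ?_)) hd
      rw [← Complex.ofReal_sub, Complex.norm_real, Real.norm_eq_abs]) hD
  have e : ∑ i ∈ Icc 1 n, (w i : ℂ) • (x i : ℂ) = ((∑ i ∈ Icc 1 n, w i * x i : ℝ) : ℂ) := by
    push_cast
    rfl
  rw [e, Complex.norm_real, Real.norm_eq_abs] at h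
  exact h

/-- windows -/
lemma abelW (x w : ℕ → ℝ) (ε D E : ℝ) (y₁ y₂ : ℕ) (h12 : y₁ ≤ y₂) (hC : ∀ m ≤ y₂, |∑ i ∈ Icc 1 m, x i| ≤ ε)
    (hw : ∀ i ∈ Icc 1 y₂, |w i| ≤ D) (hd : ∑ i ∈ range y₂, |w (i + 1) - w i| ≤ E) (hD : 0 ≤ D) :
    |∑ i ∈ Ioc y₁ y₂, w i * x i| ≤ 2 * (ε * (D + E)) := by
  rw [sum_window _ h12]
  have k1 := abelR x w ε D E y₂ hC hw hd hD
  have k2 := abelR x w ε D E y₁ (fun m hm => hC m (hm.trans h12))
    (fun i hi => hw i (Icc_subset_Icc le_rfl h12 hi))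
    ((sum_le_sum_of_subset_of_nonneg (range_subset_range.2 h12) fun _ _ _ => abs_nonneg _).trans hd) hD
  have k3 := abs_sub (∑ i ∈ Icc 1 y₂, w i * x i) (∑ i ∈ Icc 1 y₁, w i * x i)
  linarith

/-- bounded variation -/
structure WB (W : ℕ → ℝ) (c : ℝ) (N : ℕ) : Prop where
  h0 : ∀ n, 0 ≤ W n
  h1 : ∀ n ≤ N, W n ≤ c
  h2 : ∑ n ∈ range N, |W (n + 1) - W n| ≤ c

lemma WB.nn {W : ℕ → ℝ} {c : ℝ} {N : ℕ} (h : WB W c N) : 0 ≤ c := (h.h0 0).trans (h.h1 0 (Nat.zero_le _))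

lemma WB.tv {W : ℕ → ℝ} {c : ℝ} {N : ℕ} (h : WB W c N) {y : ℕ} (hy : y ≤ N) :
    ∑ n ∈ range y, |W (n + 1) - W n| ≤ c :=
  (sum_le_sum_of_subset_of_nonneg (range_subset_range.2 hy) fun _ _ _ => abs_nonneg _).trans h.h2

lemma WB.refl {W : ℕ → ℝ} {c : ℝ} {N : ℕ} (h : WB W c N) {n y : ℕ} (hn : n ≤ N) (hy : y < n) :
    ∑ i ∈ range y, |W (n - (i + 1)) - W (n - i)| ≤ c := by
  have e1 : ∀ i ∈ range n, |W (n - (i + 1)) - W (n - i)| = |W (n - 1 - i + 1) - W (n - 1 - i)| := by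
    intro i hi
    rw [mem_range] at hi
    rw [abs_sub_comm, show n - 1 - i + 1 = n - i by omega, show n - (i + 1) = n - 1 - i by omega]
  calc ∑ i ∈ range y, |W (n - (i + 1)) - W (n - i)| ≤ ∑ i ∈ range n, |W (n - (i + 1)) - W (n - i)| :=
        sum_le_sum_of_subset_of_nonneg (range_subset_range.2 hy.le) fun _ _ _ => abs_nonneg _
    _ = ∑ i ∈ range n, |W (n - 1 - i + 1) - W (n - 1 - i)| := sum_congr rfl e1
    _ = ∑ i ∈ range n, |W (i + 1) - W i| := sum_range_reflect (fun i => |W (i + 1) - W i|) n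
    _ ≤ c := h.tv hn

lemma WB.prod {W : ℕ → ℝ} {c : ℝ} {N : ℕ} (h : WB W c N) {n y : ℕ} (hn : n ≤ N) (hy : y < n) :
    ∑ i ∈ range y, |W (i + 1) * W (n - (i + 1)) - W i * W (n - i)| ≤ 2 * c ^ 2 := by
  have hc := h.nn
  have e1 : ∀ i ∈ range y, |W (i + 1) * W (n - (i + 1)) - W i * W (n - i)| ≤
      c * |W (n - (i + 1)) - W (n - i)| + c * |W (i + 1) - W i| := by
    intro i hi
    rw [mem_range] at hi
    have e2 : W (i + 1) * W (n - (i + 1)) - W i * W (n - i) =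
        W (i + 1) * (W (n - (i + 1)) - W (n - i)) + W (n - i) * (W (i + 1) - W i) := by ring
    rw [e2]
    refine (abs_add_le _ _).trans ?_
    rw [abs_mul, abs_mul, abs_of_nonneg (h.h0 _), abs_of_nonneg (h.h0 _)]
    exact add_le_add (mul_le_mul_of_nonneg_right (h.h1 _ (by omega)) (abs_nonneg _))
      (mul_le_mul_of_nonneg_right (h.h1 _ (by omega)) (abs_nonneg _))
  refine (sum_le_sum e1).trans ?_
  rw [sum_add_distrib, ← mul_sum, ← mul_sum]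
  have k1 := h.refl hn hy
  have k2 := h.tv (y := y) (by omega)
  nlinarith

/-- reflection of a sum -/
lemma reflect_sum {n m : ℕ} (F : ℕ → ℝ) (hm : m < n) :
    ∑ b ∈ Icc 1 m, F (n - b) = ∑ b ∈ Ioc (n - m - 1) (n - 1), F b := by
  refine sum_nbij' (fun b => n - b) (fun b => n - b) ?_ ?_ ?_ ?_ ?_
  · intro b hb
    rw [mem_Icc] at hb
    rw [mem_Ioc]
    omega
  · intro b hb
    rw [mem_Ioc] at hb
    rw [mem_Icc]
    omega
  · intro b hb
    rw [mem_Icc] at hb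
    omega
  · intro b hb
    rw [mem_Ioc] at hb
    omega
  · intro b _
    rfl

/-- the main term with weights -/
lemma det_main {N n y₁ y₂ : ℕ} {W la lz : ℕ → ℝ} {c S ε : ℝ} (hW : WB W c N) (hn : n ≤ N) (h12 : y₁ ≤ y₂)
    (h2 : y₂ < n)
    (hm1 : ∀ y < n, |∑ b ∈ Icc 1 y, la b * lz (n - b) - S * y| ≤ ε)
    (hm2 : ∀ y < n, |∑ b ∈ Icc 1 y, lz b * lz (n - b) - S * y| ≤ ε) :
    |∑ b ∈ Ioc y₁ y₂, (la b * (W (n - b) * lz (n - b)) + (W b * lz b) * la (n - b) -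
        (W b * lz b) * (W (n - b) * lz (n - b))) -
      S * ∑ b ∈ Ioc y₁ y₂, (W (n - b) + W b - W b * W (n - b))| ≤ (12 * c + 6 * c ^ 2) * ε := by
  have hc := hW.nn
  have hε : 0 ≤ ε := (abs_nonneg _).trans (hm1 0 (by omega))
  have cst : ∀ m : ℕ, ∑ _i ∈ Icc 1 m, S = S * m := by
    intro m
    rw [sum_const, Nat.card_Icc, nsmul_eq_mul, Nat.add_sub_cancel, mul_comm]
  have p1 : ∀ m ≤ y₂, |∑ i ∈ Icc 1 m, (la i * lz (n - i) - S)| ≤ ε := by
    intro m hm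
    rw [sum_sub_distrib, cst]
    exact hm1 m (by omega)
  have p3 : ∀ m ≤ y₂, |∑ i ∈ Icc 1 m, (lz i * lz (n - i) - S)| ≤ ε := by
    intro m hm
    rw [sum_sub_distrib, cst]
    exact hm2 m (by omega)
  have p2 : ∀ m ≤ y₂, |∑ i ∈ Icc 1 m, (lz i * la (n - i) - S)| ≤ 2 * ε := by
    intro m hm
    rw [sum_sub_distrib, cst]
    have e1 : ∑ i ∈ Icc 1 m, lz i * la (n - i) = ∑ b ∈ Ioc (n - m - 1) (n - 1), la b * lz (n - b) := by
      rw [← reflect_sum (fun b => la b * lz (n - b)) (by omega)]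
      refine sum_congr rfl fun b hb => ?_
      rw [mem_Icc] at hb
      rw [show n - (n - b) = b by omega, mul_comm]
    rw [e1, sum_window _ (by omega)]
    have k1 := hm1 (n - 1) (by omega)
    have k2 := hm1 (n - m - 1) (by omega)
    have e2 : S * (m : ℝ) = S * ((n - 1 : ℕ) : ℝ) - S * ((n - m - 1 : ℕ) : ℝ) := by
      have : (m : ℝ) = ((n - 1 : ℕ) : ℝ) - ((n - m - 1 : ℕ) : ℝ) := by
        have e3 : n - 1 = m + (n - m - 1) := by omega
        rw [e3]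
        push_cast
        ring
      rw [this]
      ring
    rw [e2]
    rw [abs_le] at k1 k2 ⊢
    constructor
    · linarith [k1.1, k1.2, k2.1, k2.2]
    · linarith [k1.1, k1.2, k2.1, k2.2]
  have q1 := abelW (fun i => la i * lz (n - i) - S) (fun i => W (n - i)) ε c c y₁ y₂ h12 p1
    (fun i hi => by rw [abs_of_nonneg (hW.h0 _)]; exact hW.h1 _ (by omega)) (hW.refl hn h2) hc
  have q2 := abelW (fun i => lz i * la (n - i) - S) (fun i => W i) (2 * ε) c c y₁ y₂ h12 p2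
    (fun i hi => by
      rw [mem_Icc] at hi
      rw [abs_of_nonneg (hW.h0 _)]
      exact hW.h1 _ (by omega)) (hW.tv (by omega)) hc
  have q3 := abelW (fun i => lz i * lz (n - i) - S) (fun i => W i * W (n - i)) ε (c ^ 2) (2 * c ^ 2) y₁ y₂ h12 p3
    (fun i hi => by
      rw [mem_Icc] at hi
      rw [abs_mul, abs_of_nonneg (hW.h0 _), abs_of_nonneg (hW.h0 _), sq]
      exact mul_le_mul (hW.h1 _ (by omega)) (hW.h1 _ (by omega)) (hW.h0 _) hc) (hW.prod hn h2) (sq_nonneg c)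
  have e : ∑ b ∈ Ioc y₁ y₂, (la b * (W (n - b) * lz (n - b)) + (W b * lz b) * la (n - b) -
        (W b * lz b) * (W (n - b) * lz (n - b))) -
      S * ∑ b ∈ Ioc y₁ y₂, (W (n - b) + W b - W b * W (n - b)) =
      ∑ i ∈ Ioc y₁ y₂, W (n - i) * (la i * lz (n - i) - S) + ∑ i ∈ Ioc y₁ y₂, W i * (lz i * la (n - i) - S) -
      ∑ i ∈ Ioc y₁ y₂, W i * W (n - i) * (lz i * lz (n - i) - S) := by
    rw [mul_sum, ← sum_sub_distrib, ← sum_add_distrib, ← sum_sub_distrib]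
    refine sum_congr rfl fun b _ => ?_
    ring
  rw [e]
  have k1 := abs_sub (∑ i ∈ Ioc y₁ y₂, W (n - i) * (la i * lz (n - i) - S) +
    ∑ i ∈ Ioc y₁ y₂, W i * (lz i * la (n - i) - S)) (∑ i ∈ Ioc y₁ y₂, W i * W (n - i) * (lz i * lz (n - i) - S))
  have k2 := abs_add_le (∑ i ∈ Ioc y₁ y₂, W (n - i) * (la i * lz (n - i) - S))
    (∑ i ∈ Ioc y₁ y₂, W i * (lz i * la (n - i) - S))
  nlinarith

/-- the density of the main term -/
lemma dens_lower {N n y₁ y₂ : ℕ} {W : ℕ → ℝ} {c X : ℝ} (hW : WB W c N) (hn : n ≤ N) (h12 : y₁ ≤ y₂)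
    (h2 : y₂ < n) (hX : 0 ≤ X) (hd : ∀ b : ℕ, b ≤ N → X ≤ b → 1 ≤ W b ∧ W b ≤ 197 / 100) :
    59 / 1000 * ((y₂ : ℝ) - y₁) - (c ^ 2 + 1) * (2 * X + 2) ≤
      ∑ b ∈ Ioc y₁ y₂, (W (n - b) + W b - W b * W (n - b)) := by
  classical
  have hc := hW.nn
  have h1 : ∀ b ∈ Ioc y₁ y₂, 59 / 1000 - (if (b : ℝ) < X then (c ^ 2 + 1) else 0) -
      (if ((n - b : ℕ) : ℝ) < X then (c ^ 2 + 1) else 0) ≤ W (n - b) + W b - W b * W (n - b) := by
    intro b hb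
    rw [mem_Ioc] at hb
    have k1 := hW.h0 b
    have k2 := hW.h0 (n - b)
    have k3 := hW.h1 b (by omega)
    have k4 := hW.h1 (n - b) (by omega)
    have k5 : W b * W (n - b) ≤ c ^ 2 := by
      rw [sq]
      exact mul_le_mul k3 k4 k2 hc
    by_cases a1 : (b : ℝ) < X
    · rw [if_pos a1]
      have : (0 : ℝ) ≤ (if ((n - b : ℕ) : ℝ) < X then (c ^ 2 + 1) else 0) := by
        split_ifs
        · positivity
        · exact le_rfl
      linarith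
    · by_cases a2 : ((n - b : ℕ) : ℝ) < X
      · rw [if_neg a1, if_pos a2]
        linarith
      · rw [if_neg a1, if_neg a2]
        obtain ⟨d1, d2⟩ := hd b (by omega) (not_lt.1 a1)
        obtain ⟨d3, d4⟩ := hd (n - b) (by omega) (not_lt.1 a2)
        have d5 : (W b - 1) * (W (n - b) - 1) ≤ (97 / 100) * (97 / 100) :=
          mul_le_mul (by linarith) (by linarith) (by linarith) (by norm_num)
        nlinarith
  refine le_trans ?_ (sum_le_sum h1)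
  rw [sum_sub_distrib, sum_sub_distrib, sum_const, Nat.card_Ioc, nsmul_eq_mul, ← sum_filter, ← sum_filter,
    sum_const, sum_const, nsmul_eq_mul, nsmul_eq_mul]
  have c1 : (((Ioc y₁ y₂).filter (fun b : ℕ => (b : ℝ) < X)).card : ℝ) ≤ X + 1 := by
    have e1 : (Ioc y₁ y₂).filter (fun b : ℕ => (b : ℝ) < X) ⊆ Icc 1 ⌊X⌋₊ := by
      intro b hb
      rw [mem_filter, mem_Ioc] at hb
      rw [mem_Icc]
      exact ⟨by omega, Nat.le_floor hb.2.le⟩
    have e2 := card_le_card e1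
    rw [Nat.card_Icc, Nat.add_sub_cancel] at e2
    have e3 : ((⌊X⌋₊ : ℕ) : ℝ) ≤ X := Nat.floor_le hX
    have e4 : (((Ioc y₁ y₂).filter (fun b : ℕ => (b : ℝ) < X)).card : ℝ) ≤ ((⌊X⌋₊ : ℕ) : ℝ) := by exact_mod_cast e2
    linarith
  have c2 : (((Ioc y₁ y₂).filter (fun b : ℕ => ((n - b : ℕ) : ℝ) < X)).card : ℝ) ≤ X + 1 := by
    have e0 : ((Ioc y₁ y₂).filter (fun b : ℕ => ((n - b : ℕ) : ℝ) < X)).card ≤ (Icc 1 ⌊X⌋₊).card := by
      refine card_le_card_of_injOn (fun b => n - b) ?_ ?_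
      · intro b hb
        rw [mem_coe, mem_filter, mem_Ioc] at hb
        rw [mem_coe, mem_Icc]
        have h5 : 1 ≤ n - b := by omega
        exact ⟨h5, Nat.le_floor hb.2.le⟩
      · intro a ha b hb hab
        rw [mem_coe, mem_filter, mem_Ioc] at ha hb
        simp only at hab
        omega
    rw [Nat.card_Icc, Nat.add_sub_cancel] at e0
    have e3 : ((⌊X⌋₊ : ℕ) : ℝ) ≤ X := Nat.floor_le hX
    have e4 : (((Ioc y₁ y₂).filter (fun b : ℕ => ((n - b : ℕ) : ℝ) < X)).card : ℝ) ≤ ((⌊X⌋₊ : ℕ) : ℝ) := by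
      exact_mod_cast e0
    linarith
  have c3 : ((y₂ - y₁ : ℕ) : ℝ) = (y₂ : ℝ) - y₁ := Nat.cast_sub h12
  rw [c3]
  have hc1 : 0 ≤ c ^ 2 + 1 := by positivity
  nlinarith [mul_le_mul_of_nonneg_right c1 hc1, mul_le_mul_of_nonneg_right c2 hc1]

end Pool.Agent.R460.GS
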