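import Pool.Agent.R460.GS.Conv
import Pool.Agent.W93.PG7

/-!
Project GS: consequences for special windows.
-/

set_option autoImplicit false

namespace Pool.Agent.R460.GS

open Finset
open Pool.Agent.H560R3.GB (sing)
open Pool.Agent.W93.PG (cnt PR PR_pos PR_succ PR_mono next_prime reps)
open Pool.Agent.H373R2.T7 (ev_L')

/-- the primes between `√m` and `m / 2` -/
theorem half_low : ∃ m₀ : ℕ, ∀ m : ℕ, m₀ ≤ m → WinL 1 m →
    1 / 21 * (sing m / 2 * (m / Real.log m ^ 2)) ≤ (cnt m (Nat.sqrt m) (m / 2 - 1) : ℝ) := by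
  obtain ⟨n2, h2⟩ := ev_L' 20
  refine ⟨n2 + 10000, fun m hm hwin => ?_⟩
  have a2 := h2 m (by omega)
  obtain ⟨L, hL⟩ : ∃ L, L = Real.log (m : ℝ) := ⟨_, rfl⟩
  obtain ⟨s, hs⟩ : ∃ s, s = Nat.sqrt m := ⟨_, rfl⟩
  have hs1 : s * s ≤ m := by rw [hs]; exact Nat.sqrt_le m
  have hs2 : m < (s + 1) * (s + 1) := by rw [hs]; exact Nat.lt_succ_sqrt m
  rw [← hs]
  have hs100 : 100 ≤ s := by
    by_contra hcon
    have : (s + 1) * (s + 1) ≤ 100 * 100 := Nat.mul_le_mul (by omega) (by omega)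
    omega
  have hs3 : 100 * s ≤ m := (Nat.mul_le_mul_right s hs100).trans hs1
  have h3 := hwin s (m / 2 - 1) (by omega) (by omega) (by
    rw [pow_one, ← hL]
    rw [← hL] at a2
    have e1 : (m : ℝ) / L ≤ m / 20 := div_le_div_of_nonneg_left (Nat.cast_nonneg _) (by norm_num) a2
    have e2 : (m : ℝ) ≤ 2 * ((m / 2 - 1 : ℕ) : ℝ) + 3 := by
      have : m ≤ 2 * (m / 2 - 1) + 3 := by omega
      exact_mod_cast this
    have e3 : 100 * (s : ℝ) ≤ m := by exact_mod_cast hs3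
    have e4 : (10000 : ℝ) ≤ m := by exact_mod_cast (by omega : 10000 ≤ m)
    linarith)
  refine le_trans ?_ h3
  rw [← hL] at a2 ⊢
  have hsg := one_le_sing m
  have e2 : (m : ℝ) ≤ 2 * ((m / 2 - 1 : ℕ) : ℝ) + 3 := by
    have : m ≤ 2 * (m / 2 - 1) + 3 := by omega
    exact_mod_cast this
  have e3 : 100 * (s : ℝ) ≤ m := by exact_mod_cast hs3
  have e4 : (10000 : ℝ) ≤ m := by exact_mod_cast (by omega : 10000 ≤ m)
  have hL0 : 0 < L := by linarith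
  have e5 : 0 < sing m / L ^ 2 := by positivity
  have e6 : 1 / 21 * ((m : ℝ) / 2) ≤ 1 / 20 * (((m / 2 - 1 : ℕ) : ℝ) - s) := by linarith
  calc 1 / 21 * (sing m / 2 * (m / L ^ 2)) = sing m / L ^ 2 * (1 / 21 * ((m : ℝ) / 2)) := by ring
    _ ≤ sing m / L ^ 2 * (1 / 20 * (((m / 2 - 1 : ℕ) : ℝ) - s)) := mul_le_mul_of_nonneg_left e6 e5.le
    _ = _ := by ring

/-- the primorial intervals -/
theorem reps_low : ∃ m₀ : ℕ, ∀ m : ℕ, m₀ ≤ m → WinL 2 m → ∀ n : ℕ, 1 ≤ n → PR n + 1 ≤ m →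
    m ≤ PR (n + 1) + 1 → 1 / 21 * (sing m * PR n / Real.log m ^ 2) ≤ (reps n m : ℝ) := by
  obtain ⟨n0, h0⟩ := next_prime
  obtain ⟨n2, h2⟩ := ev_L' 20
  refine ⟨PR (n0 + 50) + n2 + 4, fun m hm hwin n hn1' hnm hmn => ?_⟩
  have hn : n0 + 50 ≤ n := by
    by_contra hcon
    have : PR (n + 1) ≤ PR (n0 + 50) := PR_mono (by omega)
    omega
  obtain ⟨n', hn'⟩ : ∃ n', n = n' + 1 := ⟨n - 1, by omega⟩
  obtain ⟨q, hq⟩ : ∃ q, q = PR n' := ⟨_, rfl⟩
  obtain ⟨Q, hQ⟩ : ∃ Q, Q = PR n := ⟨_, rfl⟩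
  obtain ⟨p, hp⟩ : ∃ p, p = Nat.nth Nat.Prime n' := ⟨_, rfl⟩
  have hQq : Q = q * p := by rw [hQ, hn', PR_succ, ← hq, ← hp]
  have hp1 : n + 1 ≤ p := by
    have := Nat.add_two_le_nth_prime n'
    rw [hp]
    omega
  have hnext := h0 n (by omega)
  have hPR1 : PR (n + 1) = Q * Nat.nth Nat.Prime n := by rw [PR_succ, ← hQ]
  rw [← hQ] at hnext hnm ⊢
  rw [hPR1] at hmn
  have hq0 : 0 < q := by rw [hq]; exact PR_pos _
  have hqr : (1 : ℝ) ≤ q := by exact_mod_cast hq0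
  have hpr : (42 : ℝ) ≤ p := by exact_mod_cast (by omega : 42 ≤ p)
  have hQr : (Q : ℝ) = q * p := by rw [hQq]; push_cast; ring
  have hq2 : 42 * (q : ℝ) ≤ Q := by rw [hQr]; nlinarith
  have hQ5 : (42 : ℝ) ≤ Q := by linarith
  have hQ0 : (0 : ℝ) < Q := by linarith
  have a2 := h2 m (by omega)
  obtain ⟨M, hM⟩ : ∃ M, M = Real.log (m : ℝ) := ⟨_, rfl⟩
  rw [← hM] at a2 ⊢
  have hM0 : 0 < M := by linarith
  have hQm : (Q : ℝ) ≤ m := by exact_mod_cast (by omega : Q ≤ m)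
  have hlogQ : Real.log Q ≤ M := by rw [hM]; exact Real.log_le_log hQ0 hQm
  have hnx : (Nat.nth Nat.Prime n : ℝ) ≤ 5 * M := by linarith
  have hmQ : (m : ℝ) ≤ 6 * M * Q := by
    have h5 : (m : ℝ) ≤ Q * Nat.nth Nat.Prime n + 1 := by exact_mod_cast hmn
    have h6 : (Q : ℝ) * Nat.nth Nat.Prime n ≤ Q * (5 * M) := mul_le_mul_of_nonneg_left hnx hQ0.le
    have h7 : 1 ≤ M * Q := by nlinarith
    linarith
  have hS1 := one_le_sing m
  have hmM : (m : ℝ) / M ^ 2 ≤ Q / 2 := by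
    rw [div_le_iff₀ (by positivity)]
    have : 6 * M * Q ≤ Q / 2 * M ^ 2 := by
      have : 0 ≤ M * Q * (M - 12) := by
        apply mul_nonneg (by positivity)
        linarith
      nlinarith
    linarith
  have hd1 : n - 1 = n' := by omega
  have h2q : 2 * q < Q := by
    have : 2 * (q : ℝ) < Q := by linarith
    exact_mod_cast this
  have hw1 := hwin q (Q - q) (by omega) (by omega) (by
    rw [← hM, Nat.cast_sub (by omega)]
    linarith)
  rw [← hM] at hw1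
  rw [Nat.cast_sub (by omega)] at hw1
  have hr1 : cnt m q (Q - q) ≤ reps n m := by
    unfold cnt reps
    apply card_le_card
    intro x hx
    rw [mem_filter, mem_Ioc] at hx
    rw [mem_filter, mem_Icc, hd1, ← hq, ← hQ, hPR1]
    refine ⟨⟨by omega, by omega⟩, hx.2.1, hx.2.2, by omega, by omega⟩
  have hr1' : (cnt m q (Q - q) : ℝ) ≤ reps n m := by exact_mod_cast hr1
  have e5 : 0 < sing m / M ^ 2 := by positivity
  have e6 : 1 / 21 * (Q : ℝ) ≤ 1 / 20 * ((Q : ℝ) - q - q) := by linarith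
  refine le_trans ?_ hr1'
  refine le_trans ?_ hw1
  calc 1 / 21 * (sing m * Q / M ^ 2) = sing m / M ^ 2 * (1 / 21 * (Q : ℝ)) := by ring
    _ ≤ sing m / M ^ 2 * (1 / 20 * ((Q : ℝ) - q - q)) := mul_le_mul_of_nonneg_left e6 e5.le
    _ = _ := by ring

end Pool.Agent.R460.GS
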