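import Pool.Agent.R460.GS.Main
import Pool.Agent.R460.GS.ErrAll
import Pool.Agent.R460.GS.Core2
import Pool.Agent.R460.GS.Shm
import Pool.Agent.R460.GS.MG
import Pool.Agent.R460.GS.NG
import Pool.Agent.R460.GS.Ti2
import Pool.Agent.R460.GS.Bil2
import Pool.Agent.R453.GS.Wt
import Pool.Agent.R453.GS.Apg
import Pool.Agent.R461.GS.Shl5
import Pool.Agent.R462.GS.MH
import Pool.Agent.Y883.GJ.Asm

/-!
Project GS, the assembly: for every modulus up to `N ^ (7/10 - ρ)` and every residue class whose common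
divisor with the modulus is at most a power of `log N`, all but few of the even numbers of the class have
in every window at least one twentieth of the predicted number of representations.
-/

set_option autoImplicit false

namespace Pool.Agent.R460.GS

open Pool.Agent.Y883.GJ

theorem errStm_all : ErrStm :=
  err_all
    (core2 Pool.Agent.Y708.GJ.lift Pool.Agent.Y872.GJ.pars Pool.Agent.Y297.GJ.orth Pool.Agent.Y812.GJ.nonU)
    (shm Pool.Agent.Y297.GJ.orth Pool.Agent.Y662.GJ.jac)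
    (Pool.Agent.R461.GS.shl Pool.Agent.Y235.GJ.vau Pool.Agent.Y662.GJ.jac Pool.Agent.Y812.GJ.l2)
    (mG Pool.Agent.Y812.GJ.l2 (bilMaj2 Pool.Agent.Y812.GJ.l2 (Pool.Agent.Y662.GJ.count Pool.Agent.Y812.GJ.l2))
      (tiMaj2 Pool.Agent.Y812.GJ.l2))
    (nG Pool.Agent.Y812.GJ.l2 Pool.Agent.Y909.GJ.bilMin Pool.Agent.Y412.GJ.tiMin)
    (Pool.Agent.R462.GS.mH (tiMaj2 Pool.Agent.Y812.GJ.l2) Pool.Agent.Y812.GJ.lsh_le Pool.Agent.R453.GS.wtb_all)
    (Pool.Agent.R462.GS.nH Pool.Agent.Y412.GJ.tiMin Pool.Agent.Y812.GJ.lsh_le Pool.Agent.R453.GS.wtb_all)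
    Pool.Agent.R453.GS.wtb_all Pool.Agent.R453.GS.apg_all Pool.Agent.Y883.GJ.model_all

/-- the theorem of project GS -/
theorem gs_all (ρ : ℝ) (hρ : 0 < ρ) (A T : ℕ) :
    ∃ N₀ : ℕ, ∀ N : ℕ, N₀ ≤ N → ∀ q : ℕ, 1 ≤ q → (q : ℝ) ≤ (N : ℝ) ^ (7 / 10 - ρ) → ∀ a : ℕ,
      (Nat.gcd a q : ℝ) ≤ Real.log N ^ T →
        ((Pool.Agent.Y883.T4.badc (WinL A) N q a).card : ℝ) ≤ (N : ℝ) / (q * Real.log N ^ A) :=
  gs_main errStm_all Pool.Agent.R453.GS.wtb_all Pool.Agent.R453.GS.wtd_all ρ hρ A T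

end Pool.Agent.R460.GS
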