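import Mathlib

set_option autoImplicit false

/-! Decomposition of the indicator function of the integers without small prime factors. -/

namespace Pool.Agent.R460.GS

open Finset

/-- largest prime factor -/
def pmx (n : ℕ) : ℕ := n.primeFactors.sup id

/-- square-free with prime factors at most `W` -/
def Sm (W d : ℕ) : Prop := Squarefree d ∧ ∀ p ∈ d.primeFactors, p ≤ W

/-- the Moebius function with real values -/
def mu (d : ℕ) : ℝ := ((ArithmeticFunction.moebius d : ℤ) : ℝ)

lemma pf_div {n p r : ℕ} (hn : n ≠ 0) (hp : p ∣ n) (hpp : p.Prime) (hr : r.Prime) (hrn : r ∣ n)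
    (hne : r ≠ p) : r ∈ (n / p).primeFactors := by
  obtain ⟨k, rfl⟩ := hp
  have hp0 : 0 < p := hpp.pos
  rw [Nat.mul_div_cancel_left k hp0]
  have hk : k ≠ 0 := by
    rintro rfl
    exact hn (mul_zero _)
  rw [Nat.mem_primeFactors]
  refine ⟨hr, ?_, hk⟩
  rcases (Nat.Prime.dvd_mul hr).1 hrn with h | h
  · exact absurd ((Nat.prime_dvd_prime_iff_eq hr hpp).1 h) hne
  · exact h

open Classical in
/-- the first step: the least prime factor -/
lemma buch {W Z n : ℕ} (hWZ : W ≤ Z) (hn : 1 ≤ n) :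
    (if ∀ p ∈ n.primeFactors, Z < p then (1 : ℝ) else 0) =
      (if ∀ p ∈ n.primeFactors, W < p then (1 : ℝ) else 0) -
      ∑ p ∈ n.divisors.filter (fun p => p.Prime ∧ W < p ∧ p ≤ Z),
        (if ∀ p' ∈ (n / p).primeFactors, p ≤ p' then (1 : ℝ) else 0) := by
  have hn0 : n ≠ 0 := by omega
  by_cases h1 : ∀ p ∈ n.primeFactors, Z < p
  · rw [if_pos h1, if_pos (fun p hp => lt_of_le_of_lt hWZ (h1 p hp)), sum_eq_zero, sub_zero]
    intro p hp
    rw [mem_filter, Nat.mem_divisors] at hp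
    exact absurd (h1 p (Nat.mem_primeFactors.2 ⟨hp.2.1, hp.1.1, hp.1.2⟩)) (by omega)
  · rw [if_neg h1]
    by_cases h2 : ∀ p ∈ n.primeFactors, W < p
    · rw [if_pos h2]
      push Not at h1
      obtain ⟨p₀, hp₀, hp₀Z⟩ := h1
      have hp₀' := Nat.mem_primeFactors.1 hp₀
      have hn1 : n ≠ 1 := by
        rintro rfl
        simp at hp₀
      have hm := Nat.minFac_prime hn1
      have hmd := Nat.minFac_dvd n
      have hmZ : n.minFac ≤ Z := (Nat.minFac_le_of_dvd hp₀'.1.two_le hp₀'.2.1).trans hp₀Z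
      have hmm : n.minFac ∈ n.primeFactors := Nat.mem_primeFactors.2 ⟨hm, hmd, hn0⟩
      rw [sum_eq_single n.minFac]
      · rw [if_pos, sub_self]
        intro p' hp'
        exact Nat.minFac_le_of_dvd (Nat.prime_of_mem_primeFactors hp').two_le
          ((Nat.dvd_of_mem_primeFactors hp').trans (Nat.div_dvd_of_dvd hmd))
      · intro p hp hpm
        rw [mem_filter, Nat.mem_divisors] at hp
        rw [if_neg]
        intro hall
        have h3 := hall _ (pf_div hn0 hp.1.1 hp.2.1 hm hmd (Ne.symm hpm))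
        have h4 := Nat.minFac_le_of_dvd hp.2.1.two_le hp.1.1
        omega
      · intro h
        exfalso
        apply h
        rw [mem_filter, Nat.mem_divisors]
        exact ⟨⟨hmd, hn0⟩, hm, h2 _ hmm, hmZ⟩
    · rw [if_neg h2]
      push Not at h2
      obtain ⟨p₁, hp₁, hp₁W⟩ := h2
      have hp₁' := Nat.mem_primeFactors.1 hp₁
      rw [sum_eq_zero, sub_zero]
      intro p hp
      rw [mem_filter, Nat.mem_divisors] at hp
      rw [if_neg]
      intro hall
      have h3 := hall _ (pf_div hn0 hp.1.1 hp.2.1 hp₁'.1 hp₁'.2.1 (by omega))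
      omega

lemma pmx_mem {e : ℕ} (he : 2 ≤ e) : pmx e ∈ e.primeFactors := by
  have h1 : e.primeFactors.Nonempty := Nat.nonempty_primeFactors.2 he
  obtain ⟨x, hx, hx'⟩ := exists_mem_eq_sup e.primeFactors h1 id
  unfold pmx
  rw [hx']
  exact hx

lemma le_pmx {e p : ℕ} (hp : p ∈ e.primeFactors) : p ≤ pmx e := le_sup (f := id) hp

lemma Sm_one (W : ℕ) : Sm W 1 := ⟨squarefree_one, by simp⟩

lemma mu_mul_prime {P f : ℕ} (hP : P.Prime) (hf : ¬ P ∣ f) : mu (P * f) = - mu f := by
  unfold mu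
  have h : Nat.Coprime P f := (Nat.Prime.coprime_iff_not_dvd hP).2 hf
  rw [ArithmeticFunction.isMultiplicative_moebius.map_mul_of_coprime h,
    ArithmeticFunction.moebius_apply_prime hP]
  push_cast
  ring

open Classical in
/-- the second step: small and large divisors -/
lemma smooth_id {W D n : ℕ} (hD : 1 ≤ D) (hn : 1 ≤ n) :
    (if ∀ p ∈ n.primeFactors, W < p then (1 : ℝ) else 0) =
      ∑ d ∈ n.divisors.filter (fun d => Sm W d ∧ d ≤ D), mu d +
      ∑ e ∈ n.divisors.filter (fun e => Sm W e ∧ D < e ∧ e / pmx e ≤ D),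
        mu e * (if ∀ p' ∈ (n / e).primeFactors, p' ≤ W → p' ≤ pmx e then (1 : ℝ) else 0) := by
  have hn0 : n ≠ 0 := by omega
  by_cases h1 : ∀ p ∈ n.primeFactors, W < p
  · rw [if_pos h1]
    have hd : ∀ d, d ∣ n → Sm W d → d = 1 := by
      intro d hdn hS
      by_contra h
      have h2 := Nat.minFac_prime h
      have h3 := (Nat.minFac_dvd d).trans hdn
      have h4 := h1 _ (Nat.mem_primeFactors.2 ⟨h2, h3, hn0⟩)
      have hd0 : d ≠ 0 := by
        rintro rfl
        exact hn0 (Nat.eq_zero_of_zero_dvd hdn)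
      have h5 := hS.2 _ (Nat.mem_primeFactors.2 ⟨h2, Nat.minFac_dvd d, hd0⟩)
      omega
    have e1 : n.divisors.filter (fun d => Sm W d ∧ d ≤ D) = {1} := by
      ext d
      rw [mem_filter, Nat.mem_divisors, mem_singleton]
      constructor
      · rintro ⟨⟨h2, -⟩, h3, -⟩
        exact hd d h2 h3
      · rintro rfl
        exact ⟨⟨one_dvd _, hn0⟩, Sm_one W, hD⟩
    have e2 : n.divisors.filter (fun e => Sm W e ∧ D < e ∧ e / pmx e ≤ D) = ∅ := by
      refine filter_eq_empty_iff.2 fun e he => ?_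
      rintro ⟨h3, h4, -⟩
      have := hd e (Nat.dvd_of_mem_divisors he) h3
      omega
    rw [e1, e2, sum_singleton, sum_empty, add_zero]
    unfold mu
    simp
  · rw [if_neg h1]
    -- the largest prime factor up to `W`
    obtain ⟨R, hR⟩ : ∃ R, R = n.primeFactors.filter (fun p => p ≤ W) := ⟨_, rfl⟩
    have hRn : R.Nonempty := by
      push Not at h1
      obtain ⟨p, hp, hp'⟩ := h1
      exact ⟨p, by rw [hR, mem_filter]; exact ⟨hp, hp'⟩⟩
    obtain ⟨P, hP, hPmax⟩ := exists_max_image R id hRn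
    simp only [id] at hPmax
    rw [hR, mem_filter] at hP
    obtain ⟨hP1, hPW⟩ := hP
    have hPmax' : ∀ p, p.Prime → p ∣ n → p ≤ W → p ≤ P := by
      intro p k1 k2 k3
      exact hPmax p (by rw [hR, mem_filter, Nat.mem_primeFactors]; exact ⟨⟨k1, k2, hn0⟩, k3⟩)
    have hPp := Nat.prime_of_mem_primeFactors hP1
    have hPn := Nat.dvd_of_mem_primeFactors hP1
    obtain ⟨DD, hDD⟩ : ∃ DD, DD = n.divisors.filter (fun d => Sm W d) := ⟨_, rfl⟩
    have memDD : ∀ d, d ∈ DD ↔ d ∣ n ∧ Sm W d := by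
      intro d
      rw [hDD, mem_filter, Nat.mem_divisors]
      constructor
      · rintro ⟨⟨k1, -⟩, k2⟩; exact ⟨k1, k2⟩
      · rintro ⟨k1, k2⟩; exact ⟨⟨k1, hn0⟩, k2⟩
    -- the large divisors
    have e2 : ∑ e ∈ n.divisors.filter (fun e => Sm W e ∧ D < e ∧ e / pmx e ≤ D),
        mu e * (if ∀ p' ∈ (n / e).primeFactors, p' ≤ W → p' ≤ pmx e then (1 : ℝ) else 0) =
        ∑ e ∈ DD.filter (fun e => (P ∣ e ∧ e / P ≤ D) ∧ ¬ e ≤ D), mu e := by
      have e3 : ∀ e ∈ n.divisors.filter (fun e => Sm W e ∧ D < e ∧ e / pmx e ≤ D),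
          mu e * (if ∀ p' ∈ (n / e).primeFactors, p' ≤ W → p' ≤ pmx e then (1 : ℝ) else 0) =
          if P ∣ e then mu e else 0 := by
        intro e he
        rw [mem_filter, Nat.mem_divisors] at he
        obtain ⟨⟨he1, -⟩, he2, he3, he4⟩ := he
        have he0 : e ≠ 0 := by omega
        have hme := pmx_mem (e := e) (by omega)
        have hme' := Nat.mem_primeFactors.1 hme
        have hmP : pmx e ≤ P := hPmax' _ hme'.1 (hme'.2.1.trans he1) (he2.2 _ hme)
        by_cases hPe : P ∣ e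
        · rw [if_pos hPe, if_pos, mul_one]
          intro p' hp' hp'W
          have hPP : P ≤ pmx e := le_pmx (Nat.mem_primeFactors.2 ⟨hPp, hPe, he0⟩)
          refine le_trans ?_ hPP
          exact hPmax' p' (Nat.prime_of_mem_primeFactors hp')
            ((Nat.dvd_of_mem_primeFactors hp').trans (Nat.div_dvd_of_dvd he1)) hp'W
        · rw [if_neg hPe, if_neg, mul_zero]
          intro hall
          have h5 : P ∈ (n / e).primeFactors := by
            obtain ⟨k, hk⟩ := he1
            have hk0 : k ≠ 0 := by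
              rintro rfl
              exact hn0 (by rw [hk, mul_zero])
            have h6 : n / e = k := by
              rw [hk, Nat.mul_div_cancel_left k (by omega)]
            rw [h6, Nat.mem_primeFactors]
            refine ⟨hPp, ?_, hk0⟩
            rw [hk] at hPn
            rcases (Nat.Prime.dvd_mul hPp).1 hPn with h | h
            · exact absurd h hPe
            · exact h
          have h6 := hall P h5 hPW
          have h7 : pmx e = P := le_antisymm hmP h6
          rw [h7] at hme'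
          exact hPe hme'.2.1
      rw [sum_congr rfl e3, ← sum_filter]
      refine sum_congr ?_ fun _ _ => rfl
      ext e
      rw [mem_filter, mem_filter, mem_filter, memDD, Nat.mem_divisors]
      constructor
      · rintro ⟨⟨⟨k1, -⟩, k2, k3, k4⟩, k5⟩
        have he0 : e ≠ 0 := by omega
        have hme := pmx_mem (e := e) (by omega)
        have hme' := Nat.mem_primeFactors.1 hme
        have hmP : pmx e ≤ P := hPmax' _ hme'.1 (hme'.2.1.trans k1) (k2.2 _ hme)
        have hPP : P ≤ pmx e := le_pmx (Nat.mem_primeFactors.2 ⟨hPp, k5, he0⟩)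
        have : pmx e = P := le_antisymm hmP hPP
        rw [this] at k4
        exact ⟨⟨k1, k2⟩, ⟨k5, k4⟩, by omega⟩
      · rintro ⟨⟨k1, k2⟩, ⟨k5, k4⟩, k3⟩
        have he0 : e ≠ 0 := by omega
        have hme := pmx_mem (e := e) (by omega)
        have hme' := Nat.mem_primeFactors.1 hme
        have hmP : pmx e ≤ P := hPmax' _ hme'.1 (hme'.2.1.trans k1) (k2.2 _ hme)
        have hPP : P ≤ pmx e := le_pmx (Nat.mem_primeFactors.2 ⟨hPp, k5, he0⟩)
        have : pmx e = P := le_antisymm hmP hPP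
        rw [← this] at k4
        exact ⟨⟨⟨k1, hn0⟩, k2, by omega, k4⟩, k5⟩
    have e4 : n.divisors.filter (fun d => Sm W d ∧ d ≤ D) = DD.filter (fun d => d ≤ D) := by
      rw [hDD, filter_filter]
    have e5 : ∑ d ∈ DD.filter (fun d => d ≤ D), mu d =
        ∑ d ∈ DD.filter (fun e => (P ∣ e ∧ e / P ≤ D) ∧ e ≤ D), mu d +
        ∑ d ∈ DD.filter (fun e => ¬ P ∣ e ∧ e ≤ D), mu d := by
      rw [← sum_filter_add_sum_filter_not (DD.filter (fun d => d ≤ D)) (fun e => P ∣ e)]
      rw [filter_filter, filter_filter]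
      congr 1
      · refine sum_congr ?_ fun _ _ => rfl
        apply filter_congr
        intro e _
        constructor
        · rintro ⟨k1, k2⟩
          exact ⟨⟨k2, (Nat.div_le_self _ _).trans k1⟩, k1⟩
        · rintro ⟨⟨k1, -⟩, k2⟩
          exact ⟨k2, k1⟩
      · refine sum_congr ?_ fun _ _ => rfl
        apply filter_congr
        intro e _
        constructor
        · rintro ⟨k1, k2⟩
          exact ⟨k2, k1⟩
        · rintro ⟨k1, k2⟩
          exact ⟨k2, k1⟩
    have e6 : ∑ d ∈ DD.filter (fun e => P ∣ e ∧ e / P ≤ D), mu d =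
        ∑ d ∈ DD.filter (fun e => (P ∣ e ∧ e / P ≤ D) ∧ e ≤ D), mu d +
        ∑ e ∈ DD.filter (fun e => (P ∣ e ∧ e / P ≤ D) ∧ ¬ e ≤ D), mu e := by
      rw [← sum_filter_add_sum_filter_not (DD.filter (fun e => P ∣ e ∧ e / P ≤ D)) (fun e => e ≤ D),
        filter_filter, filter_filter]
    have e7 : ∑ d ∈ DD.filter (fun e => P ∣ e ∧ e / P ≤ D), mu d =
        ∑ d ∈ DD.filter (fun e => ¬ P ∣ e ∧ e ≤ D), - mu d := by
      refine sum_nbij' (fun e => e / P) (fun f => P * f) ?_ ?_ ?_ ?_ ?_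
      · intro e he
        rw [mem_filter, memDD] at he
        obtain ⟨⟨k1, k2⟩, k3, k4⟩ := he
        rw [mem_filter, memDD]
        obtain ⟨f, rfl⟩ := k3
        rw [Nat.mul_div_cancel_left f hPp.pos] at k4 ⊢
        have hcop : Nat.Coprime P f := Nat.coprime_of_squarefree_mul k2.1
        have hfn : f ∣ n := (Dvd.intro_left P rfl).trans k1
        have hf0 : f ≠ 0 := by
          rintro rfl
          exact hn0 (Nat.eq_zero_of_zero_dvd hfn)
        refine ⟨⟨hfn, ⟨k2.1.squarefree_of_dvd (Dvd.intro_left P rfl), ?_⟩⟩, ?_, k4⟩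
        · intro p hp
          apply k2.2 p
          have hp' := Nat.mem_primeFactors.1 hp
          rw [Nat.mem_primeFactors]
          exact ⟨hp'.1, hp'.2.1.trans (Dvd.intro_left P rfl), mul_ne_zero hPp.ne_zero hf0⟩
        · exact (Nat.Prime.coprime_iff_not_dvd hPp).1 hcop
      · intro f hf
        rw [mem_filter, memDD] at hf
        obtain ⟨⟨k1, k2⟩, k3, k4⟩ := hf
        rw [mem_filter, memDD, Nat.mul_div_cancel_left f hPp.pos]
        have hcop : Nat.Coprime P f := (Nat.Prime.coprime_iff_not_dvd hPp).2 k3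
        have hf0 : f ≠ 0 := by
          rintro rfl
          exact hn0 (Nat.eq_zero_of_zero_dvd k1)
        refine ⟨⟨Nat.Coprime.mul_dvd_of_dvd_of_dvd hcop hPn k1, ⟨?_, ?_⟩⟩, Dvd.intro _ rfl, k4⟩
        · exact (Nat.squarefree_mul hcop).2 ⟨hPp.prime.squarefree, k2.1⟩
        · intro p hp
          have hp' := Nat.mem_primeFactors.1 hp
          rcases (Nat.Prime.dvd_mul hp'.1).1 hp'.2.1 with h | h
          · rw [(Nat.prime_dvd_prime_iff_eq hp'.1 hPp).1 h]
            exact hPW
          · exact k2.2 p (Nat.mem_primeFactors.2 ⟨hp'.1, h, hf0⟩)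
      · intro e he
        rw [mem_filter, memDD] at he
        exact Nat.mul_div_cancel' he.2.1
      · intro f _
        exact Nat.mul_div_cancel_left f hPp.pos
      · intro e he
        rw [mem_filter, memDD] at he
        obtain ⟨⟨k1, k2⟩, k3, k4⟩ := he
        obtain ⟨f, rfl⟩ := k3
        rw [Nat.mul_div_cancel_left f hPp.pos]
        have hcop : Nat.Coprime P f := Nat.coprime_of_squarefree_mul k2.1
        rw [mu_mul_prime hPp ((Nat.Prime.coprime_iff_not_dvd hPp).1 hcop)]
    rw [e2, e4, e5]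
    rw [sum_neg_distrib] at e7
    linarith

/-- two distinct prime factors in the same class -/
def Tw (c : ℕ → ℕ) (n : ℕ) : Prop := ∃ p p', p.Prime ∧ p'.Prime ∧ p < p' ∧ p * p' ∣ n ∧ c p = c p'

lemma Tw_intro {c : ℕ → ℕ} {n p p' : ℕ} (h1 : p.Prime) (h2 : p'.Prime) (h3 : p < p') (h4 : p ∣ n) (h5 : p' ∣ n)
    (h6 : c p = c p') : Tw c n :=
  ⟨p, p', h1, h2, h3, Nat.Coprime.mul_dvd_of_dvd_of_dvd
    ((Nat.coprime_primes h1 h2).2 h3.ne) h4 h5, h6⟩

open Classical in
/-- the decomposition up to a small error -/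
lemma decomposition {W Z D n : ℕ} (hWZ : W ≤ Z) (hD : 1 ≤ D) (hn : 1 ≤ n) (c : ℕ → ℕ)
    (hc : ∀ a b, 1 ≤ a → a ≤ b → c a ≤ c b) :
    |(if ∀ p ∈ n.primeFactors, Z < p then (1 : ℝ) else 0) -
      (∑ d ∈ n.divisors.filter (fun d => Sm W d ∧ d ≤ D), mu d +
      ∑ e ∈ n.divisors.filter (fun e => Sm W e ∧ D < e ∧ e / pmx e ≤ D),
        mu e * (if ∀ p' ∈ (n / e).primeFactors, p' ≤ W → c p' ≤ c (pmx e) then (1 : ℝ) else 0) -
      ∑ p ∈ n.divisors.filter (fun p => p.Prime ∧ W < p ∧ p ≤ Z),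
        (if ∀ p' ∈ (n / p).primeFactors, c p ≤ c p' then (1 : ℝ) else 0))| ≤
      if Tw c n then 2 * (n.divisors.card : ℝ) else 0 := by
  have hn0 : n ≠ 0 := by omega
  rw [buch hWZ hn, smooth_id (W := W) hD hn]
  have t1 : ∀ p ∈ n.divisors.filter (fun p => p.Prime ∧ W < p ∧ p ≤ Z),
      |(if ∀ p' ∈ (n / p).primeFactors, p ≤ p' then (1 : ℝ) else 0) -
        (if ∀ p' ∈ (n / p).primeFactors, c p ≤ c p' then (1 : ℝ) else 0)| ≤ if Tw c n then 1 else 0 := by
    intro p hp
    rw [mem_filter, Nat.mem_divisors] at hp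
    by_cases h1 : ∀ p' ∈ (n / p).primeFactors, p ≤ p'
    · have h2 : ∀ p' ∈ (n / p).primeFactors, c p ≤ c p' := fun p' hp' =>
        hc _ _ hp.2.1.one_le (h1 p' hp')
      rw [if_pos h1, if_pos h2, sub_self, abs_zero]
      split_ifs <;> norm_num
    · rw [if_neg h1]
      by_cases h2 : ∀ p' ∈ (n / p).primeFactors, c p ≤ c p'
      · push Not at h1
        obtain ⟨p', hp', h3⟩ := h1
        have h4 := Nat.mem_primeFactors.1 hp'
        have hT : Tw c n := Tw_intro h4.1 hp.2.1 h3 (h4.2.1.trans (Nat.div_dvd_of_dvd hp.1.1)) hp.1.1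
          (le_antisymm (hc _ _ h4.1.one_le h3.le) (h2 p' hp'))
        rw [if_pos h2, if_pos hT]
        norm_num
      · rw [if_neg h2, sub_self, abs_zero]
        split_ifs <;> norm_num
  have t2 : ∀ e ∈ n.divisors.filter (fun e => Sm W e ∧ D < e ∧ e / pmx e ≤ D),
      |mu e * (if ∀ p' ∈ (n / e).primeFactors, p' ≤ W → p' ≤ pmx e then (1 : ℝ) else 0) -
        mu e * (if ∀ p' ∈ (n / e).primeFactors, p' ≤ W → c p' ≤ c (pmx e) then (1 : ℝ) else 0)| ≤
      if Tw c n then 1 else 0 := by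
    intro e he
    rw [mem_filter, Nat.mem_divisors] at he
    have hmu : |mu e| ≤ 1 := by
      unfold mu
      exact_mod_cast ArithmeticFunction.abs_moebius_le_one
    have he0 : 2 ≤ e := by omega
    have hme := pmx_mem he0
    have hme' := Nat.mem_primeFactors.1 hme
    rw [← mul_sub, abs_mul]
    by_cases h1 : ∀ p' ∈ (n / e).primeFactors, p' ≤ W → p' ≤ pmx e
    · have h2 : ∀ p' ∈ (n / e).primeFactors, p' ≤ W → c p' ≤ c (pmx e) := fun p' hp' hW =>
        hc _ _ (Nat.prime_of_mem_primeFactors hp').one_le (h1 p' hp' hW)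
      rw [if_pos h1, if_pos h2, sub_self, abs_zero, mul_zero]
      split_ifs <;> norm_num
    · rw [if_neg h1]
      by_cases h2 : ∀ p' ∈ (n / e).primeFactors, p' ≤ W → c p' ≤ c (pmx e)
      · push Not at h1
        obtain ⟨p', hp', hW, h3⟩ := h1
        have h4 := Nat.mem_primeFactors.1 hp'
        have hT : Tw c n := Tw_intro hme'.1 h4.1 h3 (hme'.2.1.trans he.1.1)
          (h4.2.1.trans (Nat.div_dvd_of_dvd he.1.1))
          (le_antisymm (hc _ _ hme'.1.one_le h3.le) (h2 p' hp' hW))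
        rw [if_pos h2, if_pos hT]
        have : |(0 : ℝ) - 1| = 1 := by norm_num
        rw [this, mul_one]
        exact hmu
      · rw [if_neg h2, sub_self, abs_zero, mul_zero]
        split_ifs <;> norm_num
  have e1 : ∀ (s : Finset ℕ) (f g : ℕ → ℝ), s ⊆ n.divisors →
      (∀ i ∈ s, |f i - g i| ≤ if Tw c n then 1 else 0) →
      |∑ i ∈ s, f i - ∑ i ∈ s, g i| ≤ if Tw c n then (n.divisors.card : ℝ) else 0 := by
    intro s f g hs h
    rw [← sum_sub_distrib]
    refine (abs_sum_le_sum_abs _ _).trans ((sum_le_sum h).trans ?_)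
    rw [sum_const, nsmul_eq_mul]
    by_cases hT : Tw c n
    · rw [if_pos hT, if_pos hT, mul_one]
      exact_mod_cast card_le_card hs
    · rw [if_neg hT, if_neg hT, mul_zero]
  have k1 := e1 _ _ _ (filter_subset _ _) t1
  have k2 := e1 _ _ _ (filter_subset _ _) t2
  have k3 : (if Tw c n then 2 * (n.divisors.card : ℝ) else 0) =
      (if Tw c n then (n.divisors.card : ℝ) else 0) + (if Tw c n then (n.divisors.card : ℝ) else 0) := by
    split_ifs
    · ring
    · ring
  rw [k3]
  refine le_trans (le_of_eq ?_) ((abs_sub _ _).trans (add_le_add k2 k1))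
  congr 1
  ring

end Pool.Agent.R460.GS
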