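import Pool.Agent.R460.GS.Dec
import Pool.Agent.Y183.GJ.Bil1

set_option autoImplicit false

/-! The mean square of the error of the decomposition. -/

namespace Pool.Agent.R460.GS

open Finset
open Pool.Agent.Y183.GJ (ci)

lemma ci_mono {δ : ℝ} (hδ : 0 < δ) (a b : ℕ) (ha : 1 ≤ a) (hab : a ≤ b) : ci δ a ≤ ci δ b := by
  unfold ci
  refine Nat.floor_le_floor (div_le_div_of_nonneg_right ?_ hδ.le)
  exact Real.log_le_log (by exact_mod_cast ha) (by exact_mod_cast hab)

lemma ci_close {δ : ℝ} (hδ : 0 < δ) {a b : ℕ} (ha : 1 ≤ a) (hab : ci δ a = ci δ b) :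
    Real.log b - Real.log a ≤ δ := by
  unfold ci at hab
  have h1 : ((⌊Real.log a / δ⌋₊ : ℕ) : ℝ) ≤ Real.log a / δ :=
    Nat.floor_le (div_nonneg (Real.log_natCast_nonneg a) hδ.le)
  have h2 : Real.log b / δ < (⌊Real.log b / δ⌋₊ : ℝ) + 1 := Nat.lt_floor_add_one _
  rw [← hab] at h2
  have h3 : Real.log b / δ < Real.log a / δ + 1 := by linarith
  have h4 : Real.log b / δ * δ < (Real.log a / δ + 1) * δ := mul_lt_mul_of_pos_right h3 hδ
  rw [add_mul, div_mul_cancel₀ _ hδ.ne', div_mul_cancel₀ _ hδ.ne', one_mul] at h4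
  linarith

/-- the sum of the reciprocals in a short interval -/
lemma recip_short {a b : ℕ} (ha : 1 ≤ a) (hab : a ≤ b) :
    ∑ m ∈ Ioc a b, 1 / (m : ℝ) ≤ Real.log b - Real.log a := by
  induction b, hab using Nat.le_induction with
  | base => simp
  | succ b hab ih =>
    rw [← Finset.insert_Ioc_right_eq_Ioc_add_one (by omega), sum_insert (by simp)]
    have hb0 : (0 : ℝ) < b := by exact_mod_cast (by omega : 0 < b)
    have h1 : 1 / ((b + 1 : ℕ) : ℝ) ≤ Real.log ((b + 1 : ℕ) : ℝ) - Real.log b := by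
      have h2 := Real.log_le_sub_one_of_pos (x := (b : ℝ) / ((b + 1 : ℕ) : ℝ)) (by positivity)
      rw [Real.log_div hb0.ne' (by positivity)] at h2
      have h3 : (b : ℝ) / ((b + 1 : ℕ) : ℝ) - 1 = - (1 / ((b + 1 : ℕ) : ℝ)) := by
        push_cast
        field_simp
        ring
      rw [h3] at h2
      linarith
    linarith

lemma cell_sum {δ : ℝ} (hδ : 0 < δ) {a N : ℕ} (ha : 1 ≤ a) :
    ∑ m ∈ (Ioc a N).filter (fun m => ci δ a = ci δ m), 1 / (m : ℝ) ≤ δ := by
  rcases ((Ioc a N).filter (fun m => ci δ a = ci δ m)).eq_empty_or_nonempty with h | h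
  · rw [h, sum_empty]
    exact hδ.le
  · obtain ⟨M, hM, hMax⟩ := exists_max_image _ id h
    simp only [id] at hMax
    rw [mem_filter, mem_Ioc] at hM
    calc ∑ m ∈ (Ioc a N).filter (fun m => ci δ a = ci δ m), 1 / (m : ℝ) ≤ ∑ m ∈ Ioc a M, 1 / (m : ℝ) := by
          refine sum_le_sum_of_subset_of_nonneg (fun m hm => ?_) fun _ _ _ => by positivity
          have h2 := hMax m hm
          rw [mem_filter, mem_Ioc] at hm
          rw [mem_Ioc]
          exact ⟨hm.1.1, h2⟩
      _ ≤ Real.log M - Real.log a := recip_short ha hM.1.1.le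
      _ ≤ δ := ci_close hδ ha hM.2

lemma mult_sum {d N : ℕ} (hd : 1 ≤ d) :
    ∑ n ∈ (Icc 1 N).filter (fun n => d ∣ n), (n.divisors.card : ℝ) ^ 2 ≤
      (d.divisors.card : ℝ) ^ 2 * (N / d * (1 + Real.log N) ^ 4) := by
  have e1 : ∑ n ∈ (Icc 1 N).filter (fun n => d ∣ n), (n.divisors.card : ℝ) ^ 2 =
      ∑ m ∈ Icc 1 (N / d), ((d * m).divisors.card : ℝ) ^ 2 := by
    symm
    refine sum_nbij' (fun m => d * m) (fun n => n / d) ?_ ?_ ?_ ?_ ?_
    · intro m hm
      rw [mem_Icc] at hm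
      rw [mem_filter, mem_Icc]
      refine ⟨⟨Nat.mul_pos hd hm.1, ?_⟩, Dvd.intro _ rfl⟩
      calc d * m ≤ d * (N / d) := Nat.mul_le_mul_left _ hm.2
        _ ≤ N := Nat.mul_div_le _ _
    · intro n hn
      rw [mem_filter, mem_Icc] at hn
      rw [mem_Icc]
      exact ⟨Nat.div_pos (Nat.le_of_dvd (by omega) hn.2) hd, Nat.div_le_div_right hn.1.2⟩
    · intro m _
      exact Nat.mul_div_cancel_left m hd
    · intro n hn
      rw [mem_filter] at hn
      exact Nat.mul_div_cancel' hn.2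
    · intro m _
      rfl
  rw [e1]
  have hd0 : (0 : ℝ) < d := by exact_mod_cast hd
  calc ∑ m ∈ Icc 1 (N / d), ((d * m).divisors.card : ℝ) ^ 2
      ≤ ∑ m ∈ Icc 1 (N / d), (d.divisors.card : ℝ) ^ 2 * (m.divisors.card : ℝ) ^ 2 := by
        refine sum_le_sum fun m _ => ?_
        rw [← mul_pow]
        refine pow_le_pow_left₀ (Nat.cast_nonneg _) ?_ 2
        exact_mod_cast Pool.Agent.TH935.DSB.tau_mul d m
    _ = (d.divisors.card : ℝ) ^ 2 * ∑ m ∈ Icc 1 (N / d), (m.divisors.card : ℝ) ^ 2 := by rw [mul_sum]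
    _ ≤ (d.divisors.card : ℝ) ^ 2 * (((N / d : ℕ) : ℝ) * (1 + Real.log ((N / d : ℕ) : ℝ)) ^ (2 ^ 2)) := by
        gcongr
        exact Pool.Agent.TH935.LD.tau_pow_sum 2 (N / d)
    _ ≤ _ := by
        have h1 : ((N / d : ℕ) : ℝ) ≤ (N : ℝ) / d := Nat.cast_div_le
        have h2 : Real.log ((N / d : ℕ) : ℝ) ≤ Real.log N := by
          rcases Nat.eq_zero_or_pos (N / d) with h0 | h0
          · rw [h0, Nat.cast_zero, Real.log_zero]
            exact Real.log_natCast_nonneg N
          · exact Real.log_le_log (by exact_mod_cast h0) (by exact_mod_cast Nat.div_le_self _ _)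
        have h3 := Real.log_natCast_nonneg (N / d)
        norm_num only
        gcongr

open Classical in
/-- the mean square of the error -/
lemma tw_sum {δ : ℝ} (hδ : 0 < δ) (N : ℕ) :
    ∑ n ∈ Icc 1 N, (if Tw (ci δ) n then 2 * (n.divisors.card : ℝ) else 0) ^ 2 ≤
      64 * δ * N * (1 + Real.log N) ^ 5 := by
  have hL := Real.log_natCast_nonneg N
  have h1 : ∀ n ∈ Icc 1 N, (if Tw (ci δ) n then 2 * (n.divisors.card : ℝ) else 0) ^ 2 ≤
      4 * ∑ p ∈ (Icc 1 N).filter Nat.Prime, ∑ p' ∈ (Ioc p N).filter (fun m => ci δ p = ci δ m),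
        if p'.Prime ∧ p * p' ∣ n then (n.divisors.card : ℝ) ^ 2 else 0 := by
    intro n hn
    rw [mem_Icc] at hn
    by_cases hT : Tw (ci δ) n
    · rw [if_pos hT]
      obtain ⟨p, p', hp, hp', hlt, hdv, hcc⟩ := hT
      have hn0 : 0 < n := by omega
      have hp'n : p' ≤ n := Nat.le_of_dvd hn0 ((Dvd.intro_left p rfl).trans hdv)
      have e1 : (n.divisors.card : ℝ) ^ 2 ≤
          ∑ p' ∈ (Ioc p N).filter (fun m => ci δ p = ci δ m),
            if p'.Prime ∧ p * p' ∣ n then (n.divisors.card : ℝ) ^ 2 else 0 := by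
        have e2 := single_le_sum (f := fun p' => if p'.Prime ∧ p * p' ∣ n then (n.divisors.card : ℝ) ^ 2 else 0)
          (s := (Ioc p N).filter (fun m => ci δ p = ci δ m)) (fun i _ => by split_ifs <;> positivity)
          (a := p') (by
            rw [mem_filter, mem_Ioc]
            exact ⟨⟨hlt, hp'n.trans hn.2⟩, hcc⟩)
        rw [if_pos ⟨hp', hdv⟩] at e2
        exact e2
      have e3 := single_le_sum (f := fun p => ∑ p' ∈ (Ioc p N).filter (fun m => ci δ p = ci δ m),
          if p'.Prime ∧ p * p' ∣ n then (n.divisors.card : ℝ) ^ 2 else 0)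
          (s := (Icc 1 N).filter Nat.Prime)
          (fun i _ => sum_nonneg fun j _ => by split_ifs <;> positivity) (a := p) (by
            rw [mem_filter, mem_Icc]
            exact ⟨⟨hp.one_le, by omega⟩, hp⟩)
      rw [mul_pow]
      linarith
    · rw [if_neg hT, zero_pow two_ne_zero]
      refine mul_nonneg (by norm_num) (sum_nonneg fun i _ => sum_nonneg fun j _ => ?_)
      split_ifs <;> positivity
  refine (sum_le_sum h1).trans ?_
  rw [← mul_sum, sum_comm]
  have h2 : ∀ p ∈ (Icc 1 N).filter Nat.Prime,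
      ∑ n ∈ Icc 1 N, ∑ p' ∈ (Ioc p N).filter (fun m => ci δ p = ci δ m),
        (if p'.Prime ∧ p * p' ∣ n then (n.divisors.card : ℝ) ^ 2 else 0) ≤
      16 * N * (1 + Real.log N) ^ 4 * δ * (1 / (p : ℝ)) := by
    intro p hp
    rw [mem_filter, mem_Icc] at hp
    rw [sum_comm]
    have hp0 : (0 : ℝ) < p := by exact_mod_cast hp.1.1
    have h3 : ∀ p' ∈ (Ioc p N).filter (fun m => ci δ p = ci δ m),
        ∑ n ∈ Icc 1 N, (if p'.Prime ∧ p * p' ∣ n then (n.divisors.card : ℝ) ^ 2 else 0) ≤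
        16 * N * (1 + Real.log N) ^ 4 * (1 / (p : ℝ)) * (1 / (p' : ℝ)) := by
      intro p' hp'
      rw [mem_filter, mem_Ioc] at hp'
      have hp'0 : (0 : ℝ) < p' := by exact_mod_cast (by omega : 0 < p')
      by_cases hpp : p'.Prime
      · have e1 : ∑ n ∈ Icc 1 N, (if p'.Prime ∧ p * p' ∣ n then (n.divisors.card : ℝ) ^ 2 else 0) =
            ∑ n ∈ (Icc 1 N).filter (fun n => p * p' ∣ n), (n.divisors.card : ℝ) ^ 2 := by
          rw [sum_filter]
          refine sum_congr rfl fun n _ => ?_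
          by_cases h : p * p' ∣ n
          · rw [if_pos ⟨hpp, h⟩, if_pos h]
          · rw [if_neg (fun h' => h h'.2), if_neg h]
        rw [e1]
        refine (mult_sum (Nat.mul_pos hp.2.pos hpp.pos)).trans ?_
        have e2 : ((p * p').divisors.card : ℝ) ≤ 4 := by
          have h4 := Pool.Agent.TH935.DSB.tau_mul p p'
          have h5 : p.divisors.card = 2 := by
            rw [hp.2.divisors, card_pair hp.2.one_lt.ne]
          have h6 : p'.divisors.card = 2 := by
            rw [hpp.divisors, card_pair hpp.one_lt.ne]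
          rw [h5, h6] at h4
          exact_mod_cast h4
        calc ((p * p').divisors.card : ℝ) ^ 2 * (N / ((p * p' : ℕ) : ℝ) * (1 + Real.log N) ^ 4)
            ≤ 4 ^ 2 * (N / ((p * p' : ℕ) : ℝ) * (1 + Real.log N) ^ 4) := by gcongr
          _ = _ := by
              push_cast
              field_simp
              ring
      · have e1 : ∑ n ∈ Icc 1 N, (if p'.Prime ∧ p * p' ∣ n then (n.divisors.card : ℝ) ^ 2 else 0) = 0 :=
          sum_eq_zero fun n _ => if_neg fun h => hpp h.1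
        rw [e1]
        positivity
    refine (sum_le_sum h3).trans ?_
    rw [← mul_sum]
    calc 16 * N * (1 + Real.log N) ^ 4 * (1 / (p : ℝ)) *
        ∑ i ∈ (Ioc p N).filter (fun m => ci δ p = ci δ m), 1 / (i : ℝ)
        ≤ 16 * N * (1 + Real.log N) ^ 4 * (1 / (p : ℝ)) * δ := by
          gcongr
          exact cell_sum hδ hp.1.1
      _ = _ := by ring
  have h4 : ∑ p ∈ (Icc 1 N).filter Nat.Prime, 1 / (p : ℝ) ≤ 1 + Real.log N := by
    refine (sum_le_sum_of_subset_of_nonneg (filter_subset _ _) fun _ _ _ => by positivity).trans ?_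
    rcases Nat.eq_zero_or_pos N with h0 | h0
    · subst h0
      simp
    · have e1 : Icc 1 N = insert 1 (Ioc 1 N) := by
        ext b
        simp only [mem_Icc, mem_insert, mem_Ioc]
        omega
      rw [e1, sum_insert (by simp)]
      have e2 := recip_short (a := 1) (b := N) le_rfl h0
      rw [Nat.cast_one, Real.log_one] at e2
      rw [Nat.cast_one]
      linarith
  calc 4 * ∑ p ∈ (Icc 1 N).filter Nat.Prime, ∑ n ∈ Icc 1 N,
        ∑ p' ∈ (Ioc p N).filter (fun m => ci δ p = ci δ m),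
          (if p'.Prime ∧ p * p' ∣ n then (n.divisors.card : ℝ) ^ 2 else 0)
      ≤ 4 * ∑ p ∈ (Icc 1 N).filter Nat.Prime, 16 * N * (1 + Real.log N) ^ 4 * δ * (1 / (p : ℝ)) := by
        gcongr with p hp
        exact h2 p hp
    _ = 4 * (16 * N * (1 + Real.log N) ^ 4 * δ * ∑ p ∈ (Icc 1 N).filter Nat.Prime, 1 / (p : ℝ)) := by
        rw [← mul_sum]
    _ ≤ 4 * (16 * N * (1 + Real.log N) ^ 4 * δ * (1 + Real.log N)) := by gcongr
    _ = _ := by ring

end Pool.Agent.R460.GS
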