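import Pool.Agent.R460.GS.Dec

set_option autoImplicit false

/-! The decomposition for sums of vectors. -/

namespace Pool.Agent.R460.GS

open Finset

variable {V : Type*} [NormedAddCommGroup V] [NormedSpace ℂ V]

omit [NormedSpace ℂ V] in
lemma dirV (X : ℕ) (F : ℕ → ℕ → V) :
    ∑ n ∈ Icc 1 X, ∑ d ∈ n.divisors, F d (n / d) = ∑ d ∈ Icc 1 X, ∑ m ∈ Icc 1 (X / d), F d m := by
  rw [sum_sigma', sum_sigma']
  refine sum_nbij' (fun x => ⟨x.2, x.1 / x.2⟩) (fun x => ⟨x.1 * x.2, x.1⟩) ?_ ?_ ?_ ?_ ?_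
  · rintro ⟨n, d⟩ h
    simp only [mem_sigma, mem_Icc, Nat.mem_divisors] at h ⊢
    obtain ⟨⟨h1, h2⟩, h3, h4⟩ := h
    have h5 := Nat.le_of_dvd h1 h3
    have h6 := Nat.pos_of_dvd_of_pos h3 h1
    exact ⟨⟨h6, h5.trans h2⟩, Nat.div_pos h5 h6, Nat.div_le_div_right h2⟩
  · rintro ⟨d, m⟩ h
    simp only [mem_sigma, mem_Icc, Nat.mem_divisors] at h ⊢
    obtain ⟨⟨h1, h2⟩, h3, h4⟩ := h
    refine ⟨⟨Nat.mul_pos h1 h3, ?_⟩, Dvd.intro _ rfl, (Nat.mul_pos h1 h3).ne'⟩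
    calc d * m ≤ d * (X / d) := Nat.mul_le_mul_left _ h4
      _ ≤ X := Nat.mul_div_le _ _
  · rintro ⟨n, d⟩ h
    simp only [mem_sigma, mem_Icc, Nat.mem_divisors] at h
    simp only [Nat.mul_div_cancel' h.2.1]
  · rintro ⟨d, m⟩ h
    simp only [mem_sigma, mem_Icc] at h
    simp only [Nat.mul_div_cancel_left m h.1.1]
  · rintro ⟨n, d⟩ _
    rfl

open Classical in
/-- first coefficients: small primes -/
noncomputable def a1 (W Z : ℕ) (c : ℕ → ℕ) (j m : ℕ) : ℂ :=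
  if (m.Prime ∧ W < m ∧ m ≤ Z) ∧ c m = j then 1 else 0

open Classical in
noncomputable def b1 (c : ℕ → ℕ) (j k : ℕ) : ℂ := if ∀ p' ∈ k.primeFactors, j ≤ c p' then 1 else 0

open Classical in
/-- first coefficients: divisors of medium size -/
noncomputable def a2 (W D : ℕ) (c : ℕ → ℕ) (j m : ℕ) : ℂ :=
  if (Sm W m ∧ D < m ∧ m / pmx m ≤ D) ∧ c (pmx m) = j then ((mu m : ℝ) : ℂ) else 0

open Classical in
noncomputable def b2 (W : ℕ) (c : ℕ → ℕ) (j k : ℕ) : ℂ :=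
  if ∀ p' ∈ k.primeFactors, p' ≤ W → c p' ≤ j then 1 else 0

open Classical in
/-- the indicator function of the integers without prime factors up to `Z` -/
noncomputable def ro (Z n : ℕ) : ℝ := if ∀ p ∈ n.primeFactors, Z < p then (1 : ℝ) else 0

open Classical in
/-- the error of the decomposition -/
noncomputable def er (W Z D : ℕ) (c : ℕ → ℕ) (n : ℕ) : ℝ :=
  ro Z n - (∑ d ∈ n.divisors.filter (fun d => Sm W d ∧ d ≤ D), mu d +
      ∑ e ∈ n.divisors.filter (fun e => Sm W e ∧ D < e ∧ e / pmx e ≤ D),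
        mu e * (if ∀ p' ∈ (n / e).primeFactors, p' ≤ W → c p' ≤ c (pmx e) then (1 : ℝ) else 0) -
      ∑ p ∈ n.divisors.filter (fun p => p.Prime ∧ W < p ∧ p ≤ Z),
        (if ∀ p' ∈ (n / p).primeFactors, c p ≤ c p' then (1 : ℝ) else 0))

open Classical in
lemma er_le {W Z D n : ℕ} (hWZ : W ≤ Z) (hD : 1 ≤ D) (hn : 1 ≤ n) (c : ℕ → ℕ)
    (hc : ∀ a b, 1 ≤ a → a ≤ b → c a ≤ c b) :
    |er W Z D c n| ≤ if Tw c n then 2 * (n.divisors.card : ℝ) else 0 := by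
  unfold er ro
  exact decomposition hWZ hD hn c hc

open Classical in
lemma split_cell {J : ℕ} (s : Finset ℕ) (P : ℕ → Prop) (g : ℕ → ℕ) (f : ℕ → ℂ) (h : ℕ → ℕ → ℂ)
    (hJ : ∀ m ∈ s, P m → g m < J) :
    ∑ m ∈ s.filter P, f m * h (g m) m = ∑ j ∈ range J, ∑ m ∈ s, (if P m ∧ g m = j then f m else 0) * h j m := by
  rw [sum_comm, sum_filter]
  refine sum_congr rfl fun m hm => ?_
  by_cases hP : P m
  · rw [if_pos hP, sum_eq_single (g m)]
    · rw [if_pos ⟨hP, rfl⟩]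
    · intro j _ hj
      rw [if_neg (fun h' => hj h'.2.symm), zero_mul]
    · intro h'
      exact absurd (mem_range.2 (hJ m hm hP)) h'
  · rw [if_neg hP]
    symm
    refine sum_eq_zero fun j _ => ?_
    rw [if_neg (fun h' => hP h'.1), zero_mul]

open Classical in
/-- the decomposition of the indicator function -/
lemma dec_fun {W Z D J n : ℕ} (c : ℕ → ℕ) (h1 : ∀ m ∈ n.divisors, (m.Prime ∧ W < m ∧ m ≤ Z) → c m < J)
    (h2 : ∀ m ∈ n.divisors, (Sm W m ∧ D < m ∧ m / pmx m ≤ D) → c (pmx m) < J) :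
    ((ro Z n : ℝ) : ℂ) = ∑ d ∈ n.divisors, (if Sm W d ∧ d ≤ D then ((mu d : ℝ) : ℂ) else 0) +
      ∑ j ∈ range J, ∑ m ∈ n.divisors, a2 W D c j m * b2 W c j (n / m) -
      ∑ j ∈ range J, ∑ m ∈ n.divisors, a1 W Z c j m * b1 c j (n / m) + ((er W Z D c n : ℝ) : ℂ) := by
  have e1 := split_cell (J := J) n.divisors (fun m => m.Prime ∧ W < m ∧ m ≤ Z) c (fun _ => 1)
    (fun j m => b1 c j (n / m)) h1
  have e2 := split_cell (J := J) n.divisors (fun m => Sm W m ∧ D < m ∧ m / pmx m ≤ D) (fun m => c (pmx m))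
    (fun m => ((mu m : ℝ) : ℂ)) (fun j m => b2 W c j (n / m)) h2
  have e3 : ∑ j ∈ range J, ∑ m ∈ n.divisors, a1 W Z c j m * b1 c j (n / m) =
      ∑ m ∈ n.divisors.filter (fun m => m.Prime ∧ W < m ∧ m ≤ Z), (1 : ℂ) * b1 c (c m) (n / m) := by
    unfold a1
    convert e1.symm
  have e4 : ∑ j ∈ range J, ∑ m ∈ n.divisors, a2 W D c j m * b2 W c j (n / m) =
      ∑ m ∈ n.divisors.filter (fun m => Sm W m ∧ D < m ∧ m / pmx m ≤ D),
        ((mu m : ℝ) : ℂ) * b2 W c (c (pmx m)) (n / m) := by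
    unfold a2
    convert e2.symm
  rw [e3, e4, ← sum_filter]
  unfold er b1 b2
  push_cast
  simp only [one_mul]
  have k1 : ∀ m : ℕ, (((if ∀ p' ∈ (n / m).primeFactors, c m ≤ c p' then (1 : ℝ) else 0) : ℝ) : ℂ) =
      if ∀ p' ∈ (n / m).primeFactors, c m ≤ c p' then (1 : ℂ) else 0 := by
    intro m
    split_ifs <;> simp
  have k2 : ∀ m : ℕ, (((if ∀ p' ∈ (n / m).primeFactors, p' ≤ W → c p' ≤ c (pmx m) then (1 : ℝ) else 0) : ℝ) : ℂ) =
      if ∀ p' ∈ (n / m).primeFactors, p' ≤ W → c p' ≤ c (pmx m) then (1 : ℂ) else 0 := by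
    intro m
    split_ifs <;> simp
  simp only [k1, k2]
  ring

open Classical in
/-- the decomposition for vectors -/
lemma j1 {W Z D J y : ℕ} (E : ℕ → V) (c : ℕ → ℕ)
    (h1 : ∀ m : ℕ, (m.Prime ∧ W < m ∧ m ≤ Z) → c m < J)
    (h2 : ∀ m : ℕ, (Sm W m ∧ D < m ∧ m / pmx m ≤ D) → c (pmx m) < J) :
    ‖∑ n ∈ Icc 1 y, ((ro Z n : ℝ) : ℂ) • E n‖ ≤
      ∑ d ∈ Icc 1 D, ‖∑ b ∈ Icc 1 (y / d), E (b * d)‖ +
      ∑ j ∈ range J, ‖∑ m ∈ Icc 1 y, ∑ k ∈ Icc 1 (y / m), (a2 W D c j m * b2 W c j k) • E (m * k)‖ +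
      ∑ j ∈ range J, ‖∑ m ∈ Icc 1 y, ∑ k ∈ Icc 1 (y / m), (a1 W Z c j m * b1 c j k) • E (m * k)‖ +
      ‖∑ n ∈ Icc 1 y, ((er W Z D c n : ℝ) : ℂ) • E n‖ := by
  have e1 : ∀ n ∈ Icc 1 y, ((ro Z n : ℝ) : ℂ) • E n =
      ∑ d ∈ n.divisors, (if Sm W d ∧ d ≤ D then ((mu d : ℝ) : ℂ) else 0) • E (d * (n / d)) +
      ∑ j ∈ range J, ∑ m ∈ n.divisors, (a2 W D c j m * b2 W c j (n / m)) • E (m * (n / m)) -
      ∑ j ∈ range J, ∑ m ∈ n.divisors, (a1 W Z c j m * b1 c j (n / m)) • E (m * (n / m)) +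
      ((er W Z D c n : ℝ) : ℂ) • E n := by
    intro n _
    have k1 : ∀ f : ℕ → ℂ, ∑ d ∈ n.divisors, f d • E (d * (n / d)) = (∑ d ∈ n.divisors, f d) • E n := by
      intro f
      rw [sum_smul]
      refine sum_congr rfl fun d hd => ?_
      rw [Nat.mul_div_cancel' (Nat.dvd_of_mem_divisors hd)]
    have k2 : ∀ f : ℕ → ℕ → ℂ, ∑ j ∈ range J, ∑ d ∈ n.divisors, f j d • E (d * (n / d)) =
        (∑ j ∈ range J, ∑ d ∈ n.divisors, f j d) • E n := by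
      intro f
      rw [sum_smul]
      exact sum_congr rfl fun j _ => k1 (f j)
    rw [k1, k2, k2, ← add_smul, ← sub_smul, ← add_smul]
    congr 1
    exact dec_fun c (fun m _ => h1 m) (fun m _ => h2 m)
  rw [sum_congr rfl e1, sum_add_distrib, sum_sub_distrib, sum_add_distrib]
  have e2 : ∑ n ∈ Icc 1 y, ∑ d ∈ n.divisors,
      (if Sm W d ∧ d ≤ D then ((mu d : ℝ) : ℂ) else 0) • E (d * (n / d)) =
      ∑ d ∈ Icc 1 y, (if Sm W d ∧ d ≤ D then ((mu d : ℝ) : ℂ) else 0) • ∑ b ∈ Icc 1 (y / d), E (b * d) := by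
    rw [dirV y (fun d k => (if Sm W d ∧ d ≤ D then ((mu d : ℝ) : ℂ) else 0) • E (d * k))]
    refine sum_congr rfl fun d _ => ?_
    rw [smul_sum]
    refine sum_congr rfl fun k _ => ?_
    rw [mul_comm]
  have e3 : ∀ a b : ℕ → ℕ → ℂ, ∑ n ∈ Icc 1 y, ∑ j ∈ range J, ∑ m ∈ n.divisors,
      (a j m * b j (n / m)) • E (m * (n / m)) =
      ∑ j ∈ range J, ∑ m ∈ Icc 1 y, ∑ k ∈ Icc 1 (y / m), (a j m * b j k) • E (m * k) := by
    intro a b
    rw [sum_comm]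
    exact sum_congr rfl fun j _ => dirV y (fun m k => (a j m * b j k) • E (m * k))
  rw [e2, e3, e3]
  have e4 : ‖∑ d ∈ Icc 1 y, (if Sm W d ∧ d ≤ D then ((mu d : ℝ) : ℂ) else 0) • ∑ b ∈ Icc 1 (y / d), E (b * d)‖ ≤
      ∑ d ∈ Icc 1 D, ‖∑ b ∈ Icc 1 (y / d), E (b * d)‖ := by
    calc ‖∑ d ∈ Icc 1 y, (if Sm W d ∧ d ≤ D then ((mu d : ℝ) : ℂ) else 0) • ∑ b ∈ Icc 1 (y / d), E (b * d)‖
        ≤ ∑ d ∈ Icc 1 y, ‖(if Sm W d ∧ d ≤ D then ((mu d : ℝ) : ℂ) else 0) • ∑ b ∈ Icc 1 (y / d), E (b * d)‖ :=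
          norm_sum_le _ _
      _ ≤ ∑ d ∈ Icc 1 y, (if d ≤ D then ‖∑ b ∈ Icc 1 (y / d), E (b * d)‖ else 0) := by
          refine sum_le_sum fun d _ => ?_
          rw [norm_smul]
          by_cases h : Sm W d ∧ d ≤ D
          · rw [if_pos h, if_pos h.2]
            have : ‖((mu d : ℝ) : ℂ)‖ ≤ 1 := by
              rw [Complex.norm_real, Real.norm_eq_abs]
              unfold mu
              exact_mod_cast ArithmeticFunction.abs_moebius_le_one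
            exact mul_le_of_le_one_left (norm_nonneg _) this
          · rw [if_neg h, norm_zero, zero_mul]
            split_ifs
            · exact norm_nonneg _
            · exact le_rfl
      _ = ∑ d ∈ (Icc 1 y).filter (fun d => d ≤ D), ‖∑ b ∈ Icc 1 (y / d), E (b * d)‖ := by
          rw [sum_filter]
      _ ≤ _ := by
          refine sum_le_sum_of_subset_of_nonneg (fun d hd => ?_) fun _ _ _ => norm_nonneg _
          rw [mem_filter, mem_Icc] at hd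
          rw [mem_Icc]
          exact ⟨hd.1.1, hd.2⟩
  refine (norm_add_le _ _).trans (add_le_add ?_ le_rfl)
  refine (norm_sub_le _ _).trans (add_le_add ?_ (norm_sum_le _ _))
  exact (norm_add_le _ _).trans (add_le_add e4 (norm_sum_le _ _))

end Pool.Agent.R460.GS
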