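import Pool.Agent.R460.GS.Stm
import Pool.Agent.R460.GS.J1
import Pool.Agent.R460.GS.Err
import Pool.Agent.R460.GS.Ti2
import Pool.Agent.Y614.GJ.Core

set_option autoImplicit false

/-! The function `gr`: reduction to bilinear sums. -/

namespace Pool.Agent.R460.GS

open Finset
open Pool.Agent.Y883.GJ
open Pool.Agent.H807R2.Dav (ee)
open Pool.Agent.Y183.GJ (ci)
open Pool.Agent.Y614.GJ.Core (ev_log)

/-- number of the classes -/
noncomputable def JJ (N U : ℕ) : ℕ := ⌊Real.log N * Real.log N ^ U⌋₊ + 1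

/-- the classes of the primes -/
noncomputable def cc (N U : ℕ) : ℕ → ℕ := ci (Real.log N ^ U)⁻¹

lemma JJ_le {N U : ℕ} (hL : 2 ≤ Real.log N) : (JJ N U : ℝ) ≤ Real.log N ^ (U + 2) := by
  have hL0 : 0 < Real.log N := by linarith
  have h1 : ((⌊Real.log N * Real.log N ^ U⌋₊ : ℕ) : ℝ) ≤ Real.log N * Real.log N ^ U :=
    Nat.floor_le (by positivity)
  have h2 : 1 ≤ Real.log N * Real.log N ^ U :=
    one_le_mul_of_one_le_of_one_le (by linarith) (one_le_pow₀ (by linarith))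
  unfold JJ
  push_cast
  calc ((⌊Real.log N * Real.log N ^ U⌋₊ : ℕ) : ℝ) + 1 ≤ 2 * (Real.log N * Real.log N ^ U) := by linarith
    _ ≤ Real.log N * (Real.log N * Real.log N ^ U) := mul_le_mul_of_nonneg_right hL (by positivity)
    _ = _ := by ring

lemma cc_lt {N U m : ℕ} (hm : 1 ≤ m) (hmN : m ≤ N) (hL : 0 < Real.log N) : cc N U m < JJ N U := by
  unfold cc JJ
  rw [Nat.lt_succ_iff]
  unfold ci
  refine Nat.floor_le_floor ?_
  rw [div_inv_eq_mul]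
  refine mul_le_mul_of_nonneg_right ?_ (by positivity)
  exact Real.log_le_log (by exact_mod_cast hm) (by exact_mod_cast hmN)

lemma WW_le {N : ℕ} (hN : 1 ≤ N) : WW N ≤ ZZ N := by
  unfold WW ZZ
  refine Nat.floor_le_floor ?_
  exact Real.rpow_le_rpow_of_exponent_le (by exact_mod_cast hN) (by norm_num)

lemma ZZ_le {N : ℕ} (hN : 1 ≤ N) : ZZ N ≤ N := by
  unfold ZZ
  have h1 : (N : ℝ) ^ (3 / 10 : ℝ) ≤ N := by
    calc (N : ℝ) ^ (3 / 10 : ℝ) ≤ (N : ℝ) ^ (1 : ℝ) :=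
          Real.rpow_le_rpow_of_exponent_le (by exact_mod_cast hN) (by norm_num)
      _ = N := Real.rpow_one _
  calc ⌊(N : ℝ) ^ (3 / 10 : ℝ)⌋₊ ≤ ⌊(N : ℝ)⌋₊ := Nat.floor_le_floor h1
    _ = N := Nat.floor_natCast N

lemma one_le_WW {N : ℕ} (hN : 1 ≤ N) : 1 ≤ WW N := by
  unfold WW
  rw [Nat.one_le_floor_iff]
  exact Real.one_le_rpow (by exact_mod_cast hN) (by norm_num)

/-- support of the first coefficients -/
lemma a1_supp {N j m : ℕ} {c : ℕ → ℕ} (h : a1 (WW N) (ZZ N) c j m ≠ 0) : WW N < m ∧ m ≤ ZZ N := by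
  unfold a1 at h
  by_contra h'
  apply h
  rw [if_neg]
  rintro ⟨⟨-, h2, h3⟩, -⟩
  exact h' ⟨h2, h3⟩

lemma sm_le {W D m : ℕ} (hD : 1 ≤ D) (h1 : Sm W m) (h2 : D < m) (h3 : m / pmx m ≤ D) :
    pmx m ≤ W ∧ m ≤ D * W ∧ 2 ≤ pmx m := by
  have hm := pmx_mem (e := m) (by omega)
  have hm' := Nat.mem_primeFactors.1 hm
  have h4 := h1.2 _ hm
  refine ⟨h4, ?_, hm'.1.two_le⟩
  calc m = m / pmx m * pmx m := (Nat.div_mul_cancel hm'.2.1).symm
    _ ≤ D * W := Nat.mul_le_mul h3 h4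

lemma WW_sq_le {N : ℕ} : WW N * WW N ≤ ZZ N := by
  unfold ZZ
  apply Nat.le_floor
  have h1 : (WW N : ℝ) ≤ (N : ℝ) ^ (3 / 20 : ℝ) := Nat.floor_le (by positivity)
  rcases Nat.eq_zero_or_pos N with h0 | h0
  · subst h0
    have h2 : WW 0 = 0 := by
      unfold WW
      rw [Nat.cast_zero, Real.zero_rpow (by norm_num)]
      simp
    rw [h2]
    simp
  · push_cast
    calc (WW N : ℝ) * WW N ≤ (N : ℝ) ^ (3 / 20 : ℝ) * (N : ℝ) ^ (3 / 20 : ℝ) :=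
          mul_le_mul h1 h1 (Nat.cast_nonneg _) (by positivity)
      _ = (N : ℝ) ^ (3 / 10 : ℝ) := by
          rw [← Real.rpow_add (by exact_mod_cast h0)]
          norm_num

lemma a2_supp {N j m : ℕ} (hN : 1 ≤ N) {c : ℕ → ℕ} (h : a2 (WW N) (WW N) c j m ≠ 0) :
    WW N < m ∧ m ≤ ZZ N := by
  unfold a2 at h
  by_contra h'
  apply h
  rw [if_neg]
  rintro ⟨⟨h1, h2, h3⟩, -⟩
  exact h' ⟨h2, ((sm_le (one_le_WW hN) h1 h2 h3).2.1).trans WW_sq_le⟩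

lemma a1_le (W Z : ℕ) (c : ℕ → ℕ) (j m : ℕ) : ‖a1 W Z c j m‖ ≤ 1 := by
  unfold a1
  split_ifs <;> simp

lemma a2_le (W D : ℕ) (c : ℕ → ℕ) (j m : ℕ) : ‖a2 W D c j m‖ ≤ 1 := by
  unfold a2
  split_ifs
  · rw [Complex.norm_real, Real.norm_eq_abs]
    unfold mu
    exact_mod_cast ArithmeticFunction.abs_moebius_le_one
  · simp

lemma b1_le (c : ℕ → ℕ) (j m : ℕ) : ‖b1 c j m‖ ≤ 1 := by
  unfold b1
  split_ifs <;> simp

lemma b2_le (W : ℕ) (c : ℕ → ℕ) (j m : ℕ) : ‖b2 W c j m‖ ≤ 1 := by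
  unfold b2
  split_ifs <;> simp

/-- reduction to bilinear sums -/
lemma gr_vec (h1 : L2Stm) (A : ℕ) : ∃ N₀ : ℕ, ∀ N : ℕ, N₀ ≤ N → ∀ (q : ℕ) [NeZero q], (q : ℝ) ≤ N →
    ∀ (S : Finset (DirichletCharacter ℂ q)) (β : ℝ) (y : ℕ), y ≤ N →
    (∑ d ∈ Icc 1 (WW N), ‖∑ b ∈ Icc 1 (y / d), ev S β (b * d)‖ ≤ N / Real.log N ^ (A + 4)) →
    (∀ j ∈ range (JJ N (A + 14)), ‖∑ m ∈ Icc 1 y, ∑ k ∈ Icc 1 (y / m),
      (a2 (WW N) (WW N) (cc N (A + 14)) j m * b2 (WW N) (cc N (A + 14)) j k) • ev S β (m * k)‖ ^ 2 ≤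
        (N : ℝ) ^ 2 / Real.log N ^ (A + 2 * (A + 14) + 8)) →
    (∀ j ∈ range (JJ N (A + 14)), ‖∑ m ∈ Icc 1 y, ∑ k ∈ Icc 1 (y / m),
      (a1 (WW N) (ZZ N) (cc N (A + 14)) j m * b1 (cc N (A + 14)) j k) • ev S β (m * k)‖ ^ 2 ≤
        (N : ℝ) ^ 2 / Real.log N ^ (A + 2 * (A + 14) + 8)) →
    ∑ χ ∈ S, ‖cs q y (GG N) β χ‖ ^ 2 ≤ (N : ℝ) ^ 2 / Real.log N ^ A := by
  classical
  obtain ⟨N₀, hN₀⟩ := Filter.eventually_atTop.1 (ev_log 1 (s := 1) one_pos 10000)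
  refine ⟨max N₀ 1, fun N hN q _ hqN S β y hy t1 t2 t3 => ?_⟩
  have hN1 : 1 ≤ N := le_trans (le_max_right _ _) hN
  have hN0 : (0 : ℝ) < N := by exact_mod_cast hN1
  obtain ⟨hL, -⟩ := hN₀ N (le_trans (le_max_left _ _) hN)
  have hJ := JJ_le (N := N) (U := A + 14) (by linarith)
  have hdec := j1 (V := EuclideanSpace ℂ (DirichletCharacter ℂ q)) (W := WW N) (Z := ZZ N) (D := WW N)
    (J := JJ N (A + 14)) (y := y) (ev S β) (cc N (A + 14))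
    (fun m hm => cc_lt hm.1.one_le (hm.2.2.trans (ZZ_le hN1)) (by linarith))
    (fun m hm => by
      have h2 := sm_le (one_le_WW hN1) hm.1 hm.2.1 hm.2.2
      exact cc_lt (by omega) (h2.1.trans ((WW_le hN1).trans (ZZ_le hN1))) (by linarith))
  have herr : ‖∑ n ∈ Icc 1 y, ((er (WW N) (ZZ N) (WW N) (cc N (A + 14)) n : ℝ) : ℂ) • ev S β n‖ ^ 2 ≤
      (N : ℝ) ^ 2 / Real.log N ^ (A + 4) := by
    rw [norm_ev1 S β (Icc 1 y) (fun n => ((er (WW N) (ZZ N) (WW N) (cc N (A + 14)) n : ℝ) : ℂ)) (fun n => n)]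
    have e1 : ∀ χ ∈ S, ‖∑ n ∈ Icc 1 y, ((er (WW N) (ZZ N) (WW N) (cc N (A + 14)) n : ℝ) : ℂ) *
        (χ (n : ZMod q) * ee (n * β))‖ ^ 2 = ‖∑ n ∈ Icc 1 y,
          (((er (WW N) (ZZ N) (WW N) (cc N (A + 14)) n : ℝ) : ℂ) * ee (n * β)) * χ (n : ZMod q)‖ ^ 2 := by
      intro χ _
      congr 2
      refine sum_congr rfl fun n _ => ?_
      ring
    rw [sum_congr rfl e1]
    refine (sum_le_sum_of_subset_of_nonneg (subset_univ S) fun χ _ _ => sq_nonneg _).trans ?_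
    refine ((h1 q y (fun n => ((er (WW N) (ZZ N) (WW N) (cc N (A + 14)) n : ℝ) : ℂ) * ee (n * β))).1).trans ?_
    have e2 : ∑ n ∈ Icc 1 y, ‖((er (WW N) (ZZ N) (WW N) (cc N (A + 14)) n : ℝ) : ℂ) * ee (n * β)‖ ^ 2 ≤
        64 * (Real.log N ^ (A + 14))⁻¹ * N * (1 + Real.log N) ^ 5 := by
      refine le_trans ?_ (tw_sum (δ := (Real.log N ^ (A + 14))⁻¹) (by
        have : 0 < Real.log N := by linarith
        positivity) N)
      refine le_trans (sum_le_sum fun n hn => ?_)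
        (sum_le_sum_of_subset_of_nonneg (Icc_subset_Icc le_rfl hy) fun _ _ _ => sq_nonneg _)
      rw [norm_mul, Pool.Agent.H807R2.Dav.norm_ee, mul_one, Complex.norm_real, Real.norm_eq_abs]
      refine pow_le_pow_left₀ (abs_nonneg _) ?_ 2
      exact er_le (WW_le hN1) (one_le_WW hN1) (mem_Icc.1 hn).1 _
        (fun a b ha hab => ci_mono (by
          have : 0 < Real.log N := by linarith
          positivity) a b ha hab)
    have hyr : (y : ℝ) ≤ N := by exact_mod_cast hy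
    obtain ⟨L, hLd⟩ : ∃ L, L = Real.log (N : ℝ) := ⟨_, rfl⟩
    rw [← hLd] at e2 hL ⊢
    have hL0 : 0 < L := by linarith
    calc ((y : ℝ) + q) * ∑ n ∈ Icc 1 y, ‖((er (WW N) (ZZ N) (WW N) (cc N (A + 14)) n : ℝ) : ℂ) * ee (n * β)‖ ^ 2
        ≤ (2 * N) * (64 * (L ^ (A + 14))⁻¹ * N * (1 + L) ^ 5) :=
          mul_le_mul (by linarith) e2 (sum_nonneg fun _ _ => sq_nonneg _) (by positivity)
      _ ≤ (2 * N) * (64 * (L ^ (A + 14))⁻¹ * N * (2 * L) ^ 5) := by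
          gcongr
          linarith
      _ = (N : ℝ) ^ 2 / L ^ (A + 4) * (4096 / L ^ 5) := by
          rw [show A + 14 = (A + 4) + 5 + 5 by ring, pow_add, pow_add L (A + 4) 5]
          field_simp
          ring
      _ ≤ (N : ℝ) ^ 2 / L ^ (A + 4) * 1 := by
          have h5 : 4096 / L ^ 5 ≤ 1 := by
            rw [div_le_one (by positivity)]
            calc (4096 : ℝ) ≤ L := by linarith
              _ = L ^ 1 := (pow_one L).symm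
              _ ≤ L ^ 5 := pow_le_pow_right₀ (by linarith) (by norm_num)
          gcongr
      _ = _ := mul_one _
  -- the relation between the vectors and the characters
  have hcs : ∑ χ ∈ S, ‖cs q y (GG N) β χ‖ ^ 2 =
      ‖∑ n ∈ Icc 1 y, ((ro (ZZ N) n : ℝ) : ℂ) • ev S β n‖ ^ 2 * Real.log N ^ 2 := by
    rw [norm_ev1 S β (Icc 1 y) (fun n => ((ro (ZZ N) n : ℝ) : ℂ)) (fun n => n), sum_mul]
    refine sum_congr rfl fun χ _ => ?_
    have e1 : cs q y (GG N) β χ = ((Real.log N : ℝ) : ℂ) *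
        ∑ n ∈ Icc 1 y, ((ro (ZZ N) n : ℝ) : ℂ) * (χ (n : ZMod q) * ee (n * β)) := by
      unfold cs
      rw [mul_sum]
      refine sum_congr rfl fun n _ => ?_
      have e2 : GG N n = ((Real.log N : ℝ) : ℂ) * ((ro (ZZ N) n : ℝ) : ℂ) := by
        unfold GG gr ro
        by_cases h : ∀ p ∈ n.primeFactors, ZZ N < p
        · rw [if_pos h, if_pos h]
          push_cast
          ring
        · rw [if_neg h, if_neg h]
          push_cast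
          ring
      rw [e2]
      ring
    rw [e1, norm_mul, mul_pow, Complex.norm_real, Real.norm_eq_abs, sq_abs]
    ring
  rw [hcs]
  obtain ⟨T, hT⟩ : ∃ T, T = ‖∑ n ∈ Icc 1 y, ((ro (ZZ N) n : ℝ) : ℂ) • ev S β n‖ := ⟨_, rfl⟩
  obtain ⟨T1, hT1⟩ : ∃ T1, T1 = ∑ d ∈ Icc 1 (WW N), ‖∑ b ∈ Icc 1 (y / d), ev S β (b * d)‖ := ⟨_, rfl⟩
  obtain ⟨T4, hT4⟩ : ∃ T4, T4 = ‖∑ n ∈ Icc 1 y,
    ((er (WW N) (ZZ N) (WW N) (cc N (A + 14)) n : ℝ) : ℂ) • ev S β n‖ := ⟨_, rfl⟩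
  obtain ⟨L, hLd⟩ : ∃ L, L = Real.log (N : ℝ) := ⟨_, rfl⟩
  rw [← hT, ← hT1, ← hT4] at hdec
  rw [← hT1] at t1
  rw [← hT4] at herr
  rw [← hT]
  rw [← hLd] at t1 t2 t3 herr hL hJ ⊢
  have hL0 : 0 < L := by linarith
  have hL1 : 1 ≤ L := by linarith
  have hT10 : 0 ≤ T1 := by
    rw [hT1]
    exact sum_nonneg fun _ _ => norm_nonneg _
  have hT40 : 0 ≤ T4 := by
    rw [hT4]
    exact norm_nonneg _
  have hT0 : 0 ≤ T := by
    rw [hT]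
    exact norm_nonneg _
  have hJs : ∀ f : ℕ → ℝ, (∀ j, 0 ≤ f j) → (∀ j ∈ range (JJ N (A + 14)), f j ^ 2 ≤
      (N : ℝ) ^ 2 / L ^ (A + 2 * (A + 14) + 8)) →
      (∑ j ∈ range (JJ N (A + 14)), f j) ^ 2 ≤ (N : ℝ) ^ 2 / L ^ (A + 4) := by
    intro f _ hf
    calc (∑ j ∈ range (JJ N (A + 14)), f j) ^ 2
        ≤ (range (JJ N (A + 14))).card * ∑ j ∈ range (JJ N (A + 14)), f j ^ 2 := sq_sum_le_card_mul_sum_sq
      _ ≤ (JJ N (A + 14) : ℝ) * ∑ j ∈ range (JJ N (A + 14)), (N : ℝ) ^ 2 / L ^ (A + 2 * (A + 14) + 8) := by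
          rw [card_range]
          gcongr with j hj
          exact hf j hj
      _ = (JJ N (A + 14) : ℝ) * (JJ N (A + 14) : ℝ) * ((N : ℝ) ^ 2 / L ^ (A + 2 * (A + 14) + 8)) := by
          rw [sum_const, card_range, nsmul_eq_mul]
          ring
      _ ≤ (L ^ (A + 14 + 2)) * (L ^ (A + 14 + 2)) * ((N : ℝ) ^ 2 / L ^ (A + 2 * (A + 14) + 8)) := by gcongr
      _ = (N : ℝ) ^ 2 / L ^ (A + 4) := by
          have e : L ^ (A + 2 * (A + 14) + 8) = L ^ (A + 14 + 2) * L ^ (A + 14 + 2) * L ^ (A + 4) := by ring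
          have e0 : L ^ (A + 14 + 2) ≠ 0 := by positivity
          have e1 : L ^ (A + 4) ≠ 0 := by positivity
          rw [e]
          generalize L ^ (A + 14 + 2) = X at e0 ⊢
          generalize L ^ (A + 4) = Y at e1 ⊢
          field_simp
  have k2 := hJs _ (fun j => norm_nonneg _) t2
  have k3 := hJs _ (fun j => norm_nonneg _) t3
  obtain ⟨T2, hT2⟩ : ∃ T2, T2 = ∑ j ∈ range (JJ N (A + 14)), ‖∑ m ∈ Icc 1 y, ∑ k ∈ Icc 1 (y / m),
      (a2 (WW N) (WW N) (cc N (A + 14)) j m * b2 (WW N) (cc N (A + 14)) j k) • ev S β (m * k)‖ := ⟨_, rfl⟩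
  obtain ⟨T3, hT3⟩ : ∃ T3, T3 = ∑ j ∈ range (JJ N (A + 14)), ‖∑ m ∈ Icc 1 y, ∑ k ∈ Icc 1 (y / m),
      (a1 (WW N) (ZZ N) (cc N (A + 14)) j m * b1 (cc N (A + 14)) j k) • ev S β (m * k)‖ := ⟨_, rfl⟩
  rw [← hT2] at k2 hdec
  rw [← hT3] at k3 hdec
  have k1 : T1 ^ 2 ≤ (N : ℝ) ^ 2 / L ^ (A + 4) := by
    have hX : 0 < L ^ (A + 4) := by positivity
    have h5 : 1 ≤ L ^ (A + 4) := one_le_pow₀ hL1
    calc T1 ^ 2 ≤ (N / L ^ (A + 4)) ^ 2 := pow_le_pow_left₀ hT10 t1 2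
      _ = (N : ℝ) ^ 2 / (L ^ (A + 4) * L ^ (A + 4)) := by rw [div_pow]; ring
      _ ≤ (N : ℝ) ^ 2 / L ^ (A + 4) := by
          apply div_le_div_of_nonneg_left (by positivity) hX
          nlinarith
  have k5 : T ^ 2 ≤ 4 * (T1 ^ 2 + T2 ^ 2 + T3 ^ 2 + T4 ^ 2) := by
    have h5 : T ^ 2 ≤ (T1 + T2 + T3 + T4) ^ 2 := pow_le_pow_left₀ hT0 hdec 2
    nlinarith [sq_nonneg (T1 - T2), sq_nonneg (T1 - T3), sq_nonneg (T1 - T4), sq_nonneg (T2 - T3),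
      sq_nonneg (T2 - T4), sq_nonneg (T3 - T4)]
  have hX : 0 ≤ (N : ℝ) ^ 2 / L ^ (A + 4) := by positivity
  calc T ^ 2 * L ^ 2 ≤ (16 * ((N : ℝ) ^ 2 / L ^ (A + 4))) * L ^ 2 := by
        apply mul_le_mul_of_nonneg_right _ (by positivity)
        linarith
    _ = (N : ℝ) ^ 2 / L ^ A * (16 / L ^ 2) := by
        rw [pow_add]
        field_simp
    _ ≤ (N : ℝ) ^ 2 / L ^ A * 1 := by
        have h5 : 16 / L ^ 2 ≤ 1 := by
          rw [div_le_one (by positivity)]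
          nlinarith
        gcongr
    _ = _ := mul_one _

end Pool.Agent.R460.GS
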